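import Pool.Agent.H18.DC.Defs

/-!
# MP_8e96ff_co: basic toolkit

Linearity, maxima, pointedness, and small lemmas on `IsExtreme`.
-/

open Set

namespace DC

variable {V : Type*} [AddCommGroup V] [Module ℝ V]

/-- The working form of extremeness. -/
theorem isExtreme_mk {A B : Set V} (hsub : B ⊆ A)
    (h : ∀ p ∈ A, ∀ q ∈ A, ∀ a b : ℝ, 0 < a → 0 < b → a + b = 1 → a • p + b • q ∈ B → p ∈ B) :
    IsExtreme ℝ A B := by
  refine ⟨hsub, ?_⟩
  rintro p hp q hq z hz ⟨a, b, ha, hb, hab, rfl⟩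
  exact h p hp q hq a b ha hb hab hz

/-- Use of extremeness, left point. -/
theorem IsExtreme.left {A B : Set V} (h : IsExtreme ℝ A B) {p q : V} (hp : p ∈ A) (hq : q ∈ A)
    {a b : ℝ} (ha : 0 < a) (hb : 0 < b) (hab : a + b = 1) (hz : a • p + b • q ∈ B) : p ∈ B :=
  h.left_mem_of_mem_openSegment hp hq hz ⟨a, b, ha, hb, hab, rfl⟩

/-- Use of extremeness, right point. -/
theorem IsExtreme.right {A B : Set V} (h : IsExtreme ℝ A B) {p q : V} (hp : p ∈ A) (hq : q ∈ A)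
    {a b : ℝ} (ha : 0 < a) (hb : 0 < b) (hab : a + b = 1) (hz : a • p + b • q ∈ B) : q ∈ B :=
  h.left_mem_of_mem_openSegment hq hp hz ⟨b, a, hb, ha, by linarith, by rw [add_comm]⟩

/-- If two nonnegative numbers have a positive combination which is `≤ 0`, both vanish
(first one). -/
theorem tight_left {a b u v : ℝ} (ha : 0 < a) (hb : 0 < b) (hu : 0 ≤ u) (hv : 0 ≤ v)
    (h : a * u + b * v ≤ 0) : u = 0 := by
  have h1 : 0 ≤ a * u := mul_nonneg ha.le hu
  have h2 : 0 ≤ b * v := mul_nonneg hb.le hv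
  have h3 : a * u = 0 := by linarith
  rcases mul_eq_zero.1 h3 with h | h
  · exact absurd h ha.ne'
  · exact h

/-- second one -/
theorem tight_right {a b u v : ℝ} (ha : 0 < a) (hb : 0 < b) (hu : 0 ≤ u) (hv : 0 ≤ v)
    (h : a * u + b * v ≤ 0) : v = 0 :=
  tight_left hb ha hv hu (by linarith)

/-- Tightness of an inequality `c ≤ d` between linear quantities, first point. -/
theorem tight_le_left {a b c₁ c₂ d₁ d₂ : ℝ} (ha : 0 < a) (hb : 0 < b) (h₁ : c₁ ≤ d₁)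
    (h₂ : c₂ ≤ d₂) (h : a * d₁ + b * d₂ ≤ a * c₁ + b * c₂) : c₁ = d₁ := by
  have := tight_left ha hb (sub_nonneg.2 h₁) (sub_nonneg.2 h₂) (by nlinarith)
  linarith

theorem tight_le_right {a b c₁ c₂ d₁ d₂ : ℝ} (ha : 0 < a) (hb : 0 < b) (h₁ : c₁ ≤ d₁)
    (h₂ : c₂ ≤ d₂) (h : a * d₁ + b * d₂ ≤ a * c₁ + b * c₂) : c₂ = d₂ := by
  have := tight_right ha hb (sub_nonneg.2 h₁) (sub_nonneg.2 h₂) (by nlinarith)
  linarith

/-! ## Polyhedral cones -/

theorem IsPolyCone.mk' {κ : Type} [Fintype κ] (a : κ → V →ₗ[ℝ] ℝ) :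
    IsPolyCone {v : V | ∀ k, 0 ≤ a k v} := ⟨κ, inferInstance, a, rfl⟩

theorem IsPolyCone.inter {A B : Set V} (hA : IsPolyCone A) (hB : IsPolyCone B) :
    IsPolyCone (A ∩ B) := by
  obtain ⟨κ, _, a, rfl⟩ := hA
  obtain ⟨κ', _, a', rfl⟩ := hB
  refine ⟨κ ⊕ κ', inferInstance, Sum.elim a a', ?_⟩
  ext v
  simp

theorem IsPolyCone.preimage {V' : Type*} [AddCommGroup V'] [Module ℝ V'] {A : Set V}
    (hA : IsPolyCone A) (f : V' →ₗ[ℝ] V) : IsPolyCone (f ⁻¹' A) := by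
  obtain ⟨κ, _, a, rfl⟩ := hA
  exact ⟨κ, inferInstance, fun k => (a k).comp f, rfl⟩

theorem isPolyCone_forall_nonneg {κ : Type} [Fintype κ] (a : κ → V →ₗ[ℝ] ℝ) :
    IsPolyCone {v : V | ∀ k, 0 ≤ a k v} := ⟨κ, inferInstance, a, rfl⟩

theorem isPolyCone_forall_le {κ : Type} [Fintype κ] (a b : κ → V →ₗ[ℝ] ℝ) :
    IsPolyCone {v : V | ∀ k, a k v ≤ b k v} :=
  ⟨κ, inferInstance, fun k => b k - a k, by ext v; simp⟩

theorem IsPolyCone.convex {A : Set V} (hA : IsPolyCone A) : Convex ℝ A := by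
  obtain ⟨κ, _, a, rfl⟩ := hA
  intro p hp q hq s t hs ht _ k
  simp only [map_add, map_smul, smul_eq_mul]
  exact add_nonneg (mul_nonneg hs (hp k)) (mul_nonneg ht (hq k))

theorem IsPolyCone.zero_mem {A : Set V} (hA : IsPolyCone A) : (0 : V) ∈ A := by
  obtain ⟨κ, _, a, rfl⟩ := hA
  intro k
  simp

/-- In a cone on which a linear form `t` is nonnegative and vanishes only at `0`, every set
contained in `{0}` is extreme. -/
theorem isExtreme_of_subset_zero {A B : Set V} (t : V →ₗ[ℝ] ℝ) (h0 : ∀ v ∈ A, 0 ≤ t v)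
    (h1 : ∀ v ∈ A, t v = 0 → v = 0) (hBA : B ⊆ A) (hB : ∀ v ∈ B, v = 0) : IsExtreme ℝ A B := by
  refine isExtreme_mk hBA fun p hp q hq a b ha hb _ hz => ?_
  have hz0 := hB _ hz
  have h := congrArg t hz0
  simp only [map_add, map_smul, smul_eq_mul, map_zero] at h
  have htp := tight_left ha hb (h0 p hp) (h0 q hq) h.le
  have hp0 := h1 p hp htp
  have htq := tight_right ha hb (h0 p hp) (h0 q hq) h.le
  have hq0 := h1 q hq htq
  rw [hp0, hq0] at hz
  rw [hp0]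
  simpa using hz

namespace Sys

variable {E I G P : Type}

section NN
variable [Fintype G] [Nonempty G] (S : Sys E I G P)

theorem le_N (i : I) (g : G) (t : ℝ) (x : E → ℝ) : S.l i g (t, x) ≤ S.N i t x :=
  Finset.le_sup' (fun g => S.l i g (t, x)) (Finset.mem_univ g)

theorem N_le_iff (i : I) (t : ℝ) (x : E → ℝ) (c : ℝ) :
    S.N i t x ≤ c ↔ ∀ g, S.l i g (t, x) ≤ c := by
  simp [N, Finset.sup'_le_iff]

theorem exists_N (i : I) (t : ℝ) (x : E → ℝ) : ∃ g, S.l i g (t, x) = S.N i t x := by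
  obtain ⟨g, -, hg⟩ := Finset.exists_mem_eq_sup' (Finset.univ_nonempty)
    (fun g => S.l i g (t, x))
  exact ⟨g, hg.symm⟩

theorem N_eq_of (i : I) (g : G) (t : ℝ) (x : E → ℝ)
    (h : ∀ g', S.l i g' (t, x) ≤ S.l i g (t, x)) : S.N i t x = S.l i g (t, x) :=
  le_antisymm ((S.N_le_iff i t x _).2 h) (S.le_N i g t x)

theorem N_nonneg (hS : S.Good) (i : I) (t : ℝ) (x : E → ℝ) : 0 ≤ S.N i t x := by
  obtain ⟨g, hg⟩ := hS.l_nonneg i t x
  exact hg.trans (S.le_N i g t x)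

end NN

section rho
variable (S : Sys E I G P)

@[simp] theorem ρ_zero (k : Fin 0 → P) (y : Fin 0 → E → ℝ) : S.ρ 0 k y = 0 := by
  simp [ρ]

theorem ρ_succ (J : ℕ) (k : Fin (J + 1) → P) (x : Fin (J + 1) → E → ℝ) :
    S.ρ (J + 1) k x = S.φ (k 0) (x 0) + S.ρ J (Fin.tail k) (Fin.tail x) / 8 := by
  simp only [ρ, Fin.sum_univ_succ, Fin.tail, Finset.sum_div]
  congr 1
  · simp
  · refine Finset.sum_congr rfl fun j _ => ?_
    simp only [Fin.val_succ, pow_succ]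
    ring

theorem ρ_cons (J : ℕ) (a : P) (k : Fin J → P) (x : Fin (J + 1) → E → ℝ) :
    S.ρ (J + 1) (Fin.cons a k) x = S.φ a (x 0) + S.ρ J k (Fin.tail x) / 8 := by
  rw [ρ_succ]
  simp

/-- `ρ` as a linear map. -/
noncomputable def ρL (J : ℕ) (k : Fin J → P) : (Fin J → E → ℝ) →ₗ[ℝ] ℝ :=
  ∑ j : Fin J, ((1 / 8 : ℝ) ^ (j : ℕ)) • (S.φ (k j)).comp (LinearMap.proj j)

theorem ρL_apply (J : ℕ) (k : Fin J → P) (y : Fin J → E → ℝ) : S.ρL J k y = S.ρ J k y := by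
  simp [ρL, ρ]

theorem ρ_comb (J : ℕ) (k : Fin J → P) (a b : ℝ) (x y : Fin J → E → ℝ) :
    S.ρ J k (a • x + b • y) = a * S.ρ J k x + b * S.ρ J k y := by
  simp only [← ρL_apply, map_add, map_smul, smul_eq_mul]

theorem ρ_nonneg (hS : S.Good) [Fintype E] (J : ℕ) (y : Fin J → E → ℝ) [Nonempty P] :
    ∃ k, 0 ≤ S.ρ J k y := by
  have h := fun j : Fin J => hS.φ_nonneg (y j)
  choose k hk using h
  exact ⟨k, Finset.sum_nonneg fun j _ => mul_nonneg (by positivity) (hk j)⟩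

theorem ρ_def (hS : S.Good) (J : ℕ) (y : Fin J → E → ℝ) (h : ∀ k, S.ρ J k y ≤ 0) : y = 0 := by
  classical
  obtain ⟨B, hB, hB'⟩ := hS.φ_bound
  have h0 := fun j : Fin J => hS.φ_nonneg (y j)
  choose k0 hk0 using h0
  funext j e
  obtain ⟨k, hk⟩ := hB' (y j) e
  have h1 := h (Function.update k0 j k)
  have h2 : (1 / 8 : ℝ) ^ (j : ℕ) * S.φ k (y j) ≤ S.ρ J (Function.update k0 j k) y := by
    have := Finset.single_le_sum (f := fun j' : Fin J =>
      (1 / 8 : ℝ) ^ (j' : ℕ) * S.φ (Function.update k0 j k j') (y j')) (s := Finset.univ)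
      (fun j' _ => by
        refine mul_nonneg (by positivity) ?_
        by_cases hj : j' = j
        · subst hj
          simp only [Function.update_self]
          by_contra hneg
          push Not at hneg
          have := hk.trans (mul_neg_of_pos_of_neg hB hneg).le
          have h3 := abs_nonneg (y j' e)
          have h4 : B * S.φ k (y j') < 0 := mul_neg_of_pos_of_neg hB hneg
          linarith
        · rw [Function.update_of_ne hj]
          exact hk0 j') (Finset.mem_univ j)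
    simpa [ρ] using this
  have h3 : (1 / 8 : ℝ) ^ (j : ℕ) * S.φ k (y j) ≤ 0 := h2.trans h1
  have h4 : S.φ k (y j) ≤ 0 := by
    by_contra hpos
    push Not at hpos
    have : 0 < (1 / 8 : ℝ) ^ (j : ℕ) * S.φ k (y j) := by positivity
    linarith
  have h5 : |y j e| ≤ 0 := hk.trans (mul_nonpos_of_nonneg_of_nonpos hB.le h4)
  simpa using h5

/-- A maximal facet form. -/
theorem exists_ρ_max [Finite P] [Nonempty P] (J : ℕ) (y : Fin J → E → ℝ) :
    ∃ k, ∀ k', S.ρ J k' y ≤ S.ρ J k y :=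
  Finite.exists_max fun k => S.ρ J k y

theorem Sh_nonneg (hS : S.Good) [Fintype E] [Nonempty P] {J : ℕ} {p : X E J} (hp : p ∈ S.Sh J) :
    0 ≤ p.1 := by
  obtain ⟨k, hk⟩ := S.ρ_nonneg hS J p.2
  exact hk.trans (hp k)

theorem Sh_zero (hS : S.Good) {J : ℕ} {p : X E J} (hp : p ∈ S.Sh J) (h : p.1 = 0) : p = 0 := by
  have : p.2 = 0 := S.ρ_def hS J p.2 fun k => by rw [← h]; exact hp k
  exact Prod.ext h this

theorem T_nonneg (hS : S.Good) {w : W E} (hw : w ∈ S.T) : 0 ≤ w.1 := by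
  obtain ⟨k, hk⟩ := hS.φ_nonneg w.2.1
  have h1 := hw.1
  have h2 := hw.2 k
  linarith

theorem T_bound (hS : S.Good) {w : W E} (hw : w ∈ S.T) : w.2.2 ≤ 8 * w.1 := by
  obtain ⟨k, hk⟩ := hS.φ_nonneg w.2.1
  have h2 := hw.2 k
  linarith

theorem T_zero (hS : S.Good) {w : W E} (hw : w ∈ S.T) (h : w.1 = 0) : w = 0 := by
  obtain ⟨B, hB, hB'⟩ := hS.φ_bound
  have h1 := hw.1
  have h2 := S.T_bound hS hw
  have h3 : w.2.2 = 0 := by linarith
  have h4 : w.2.1 = 0 := by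
    funext e
    obtain ⟨k, hk⟩ := hB' w.2.1 e
    have h5 := hw.2 k
    have h6 : S.φ k w.2.1 ≤ 0 := by rw [h3, h] at h5; linarith
    have h7 : |w.2.1 e| ≤ 0 := hk.trans (mul_nonpos_of_nonneg_of_nonpos hB.le h6)
    simpa using h7
  exact Prod.ext h (Prod.ext h4 h3)

/-- Every linear form is bounded by a multiple of `t` on the cone `T`. -/
theorem T_form_bound [Fintype E] (hS : S.Good) (a : W E →ₗ[ℝ] ℝ) :
    ∃ M : ℝ, 0 < M ∧ ∀ w ∈ S.T, |a w| ≤ M * w.1 := by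
  obtain ⟨B, hB, hB'⟩ := hS.φ_bound
  set a' := LinearMap.toContinuousLinearMap a
  refine ⟨(‖a'‖ + 1) * (8 + B), by positivity, fun w hw => ?_⟩
  have h0 := S.T_nonneg hS hw
  have h1 := hw.1
  have h2 := S.T_bound hS hw
  have h3 : ‖w‖ ≤ (8 + B) * w.1 := by
    rw [Prod.norm_def, Prod.norm_def]
    refine max_le ?_ (max_le ?_ ?_)
    · rw [Real.norm_eq_abs, abs_of_nonneg h0]
      nlinarith
    · rw [pi_norm_le_iff_of_nonneg (by positivity)]
      intro e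
      obtain ⟨k, hk⟩ := hB' w.2.1 e
      have h5 := hw.2 k
      have h6 : S.φ k w.2.1 ≤ w.1 := by linarith
      rw [Real.norm_eq_abs]
      calc |w.2.1 e| ≤ B * S.φ k w.2.1 := hk
        _ ≤ B * w.1 := by gcongr
        _ ≤ (8 + B) * w.1 := by nlinarith
    · rw [Real.norm_eq_abs, abs_of_nonneg h1]
      nlinarith
  calc |a w| = ‖a' w‖ := rfl
    _ ≤ ‖a'‖ * ‖w‖ := a'.le_opNorm w
    _ ≤ (‖a'‖ + 1) * ((8 + B) * w.1) := by
        apply mul_le_mul (by linarith) h3 (norm_nonneg _) (by positivity)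
    _ = (‖a'‖ + 1) * (8 + B) * w.1 := by ring

end rho

end Sys

end DC
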