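import Pool.Agent.H18.DC.Defs

/-!
# MP_8e96ff_co, job DC-BRANCH: the branching lemma

`h` is the maximum of the finitely many affine functions `B b x = c b + ∑ i, g b i * x i`.
If `h` is not affine on `Box A z r` and `4 |A| r < a`, then for some `c ∈ A` no `b` is active both
at a point of `Box A (z + a e_c) r` and at a point of `Box A (z - a e_c) r`.

PROOF.  Otherwise for every `c ∈ A` there are `b_c`, `p⁺_c`, `p⁻_c` (in the two boxes) with
`B b_c = h` at both points.
(1) `b_c` is active at the midpoint of `p⁺_c, p⁻_c` (`h ≤ (h p⁺ + h p⁻)/2 = B b_c (mid) ≤ h`,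
`h` is convex as a maximum of affine functions; or directly: for every `b'`,
`B b' (mid) = (B b' p⁺ + B b' p⁻)/2 ≤ (h p⁺ + h p⁻)/2 = B b_c (mid)`), and the midpoint is in
`Box A z r`.
(2) Let `b` be active at some `q ∈ Box A z r` and put `δ = g b - g b_c`, `‖δ‖ = ∑_{i ∈ A} |δ i|`.
`(B b - B b_c)(q) ≥ 0 ≥ (B b - B b_c)(p⁺)`, so `∑ i ∈ A, δ i * (p⁺ i - q i) ≤ 0` (coordinates
outside `A` agree), where `p⁺ - q = a e_c + η`, `|η i| ≤ 2 r`: `a δ c ≤ 2 r ‖δ‖`.  In the same
way `- a δ c ≤ 2 r ‖δ‖`.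
(3) Let `Δ` be the maximum of `∑_{i∈A} |g b i - g b' i|` over all pairs `b, b'` active somewhere
in `Box A z r` (a finite nonempty set, by (1) or since every point has an active function).  For
a maximizing pair and `c ∈ A`:
`|g b c - g b' c| ≤ |g b c - g b_c c| + |g b' c - g b_c c| ≤ (2 r/a)(Δ + Δ)` by (2), since `b_c`
is active in the box by (1).  Summing, `Δ ≤ (4 r |A| / a) Δ`, so `Δ = 0` (`Δ ≥ 0`).
(4) So all active `b` have the same gradient in the coordinates `A`; for two of them, active at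
`q`, `q'`: `B b q ≥ B b' q` and `B b' q' ≥ B b q'`, and `B b - B b'` is constant on the slice, so
it is `0` on the slice.  Hence `h = B b` on the box, and `h u + h v = 2 h ((u+v)/2)`:
contradiction with `hna`.
-/

open Set

namespace DC

section aux

variable {ι β : Type} [Fintype ι]

/-- The affine function with index `b`. -/
private noncomputable def Bf (g : β → ι → ℝ) (c0 : β → ℝ) (b : β) (x : ι → ℝ) : ℝ :=
  c0 b + ∑ i, g b i * x i

private theorem Bf_mid (g : β → ι → ℝ) (c0 : β → ℝ) (b : β) (p q : ι → ℝ) :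
    2 * Bf g c0 b ((1 / 2 : ℝ) • (p + q)) = Bf g c0 b p + Bf g c0 b q := by
  have h : ∑ i, g b i * ((1 / 2 : ℝ) • (p + q)) i
      = (1 / 2 : ℝ) * (∑ i, g b i * p i + ∑ i, g b i * q i) := by
    rw [← Finset.sum_add_distrib, Finset.mul_sum]
    refine Finset.sum_congr rfl fun i _ => ?_
    simp only [Pi.smul_apply, Pi.add_apply, smul_eq_mul]
    ring
  unfold Bf
  rw [h]
  ring

private theorem Bf_diff [DecidableEq ι] (g : β → ι → ℝ) (c0 : β → ℝ) (b b' : β) (A : Finset ι)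
    (p q : ι → ℝ) (hpq : ∀ i, i ∉ A → p i = q i) :
    (Bf g c0 b p - Bf g c0 b' p) - (Bf g c0 b q - Bf g c0 b' q)
      = ∑ i ∈ A, (g b i - g b' i) * (p i - q i) := by
  have h1 : ∑ i ∈ A, (g b i - g b' i) * (p i - q i)
      = ∑ i, (g b i - g b' i) * (p i - q i) := by
    refine Finset.sum_subset (Finset.subset_univ A) fun i _ hi => ?_
    rw [hpq i hi]
    ring
  rw [h1]
  unfold Bf
  have h2 : ∑ i, (g b i - g b' i) * (p i - q i)
      = (∑ i, g b i * p i - ∑ i, g b' i * p i) - (∑ i, g b i * q i - ∑ i, g b' i * q i) := by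
    simp only [← Finset.sum_sub_distrib]
    refine Finset.sum_congr rfl fun i _ => ?_
    ring
  rw [h2]
  ring

/-- Step (2): gradient comparison. -/
private theorem grad_bound [DecidableEq ι] (g : β → ι → ℝ) (c0 : β → ℝ) (h : (ι → ℝ) → ℝ)
    (hle : ∀ b x, Bf g c0 b x ≤ h x) (A : Finset ι) (z : ι → ℝ) (r t : ℝ) (c : ι) (hc : c ∈ A)
    (b b' : β) (q p : ι → ℝ) (hq : q ∈ Box A z r) (hbq : Bf g c0 b q = h q)
    (hp : p ∈ Box A (z + Pi.single c t) r) (hbp : Bf g c0 b' p = h p) :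
    t * (g b c - g b' c) ≤ 2 * r * ∑ i ∈ A, |g b i - g b' i| := by
  have hpq : ∀ i, i ∉ A → p i = q i := by
    intro i hi
    have h1 := hp.1 i hi
    have h2 := hq.1 i hi
    have hic : i ≠ c := fun h => hi (h ▸ hc)
    rw [h1, h2, Pi.add_apply, Pi.single_eq_of_ne hic, add_zero]
  have h1 := Bf_diff g c0 b b' A p q hpq
  have h2 : Bf g c0 b' q ≤ Bf g c0 b q := by rw [hbq]; exact hle b' q
  have h3 : Bf g c0 b p ≤ Bf g c0 b' p := by rw [hbp]; exact hle b p
  have h4 : ∑ i ∈ A, (g b i - g b' i) * (p i - q i) ≤ 0 := by linarith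
  have h5 : ∑ i ∈ A, (g b i - g b' i) * (p i - q i)
      = ∑ i ∈ A, (g b i - g b' i) * (p i - q i - (Pi.single c t : ι → ℝ) i)
        + t * (g b c - g b' c) := by
    have h6 : ∑ i ∈ A, (g b i - g b' i) * (Pi.single c t : ι → ℝ) i = t * (g b c - g b' c) := by
      rw [Finset.sum_eq_single c]
      · rw [Pi.single_eq_same]
        ring
      · intro i _ hic
        rw [Pi.single_eq_of_ne hic, mul_zero]
      · intro hcn
        exact absurd hc hcn
    rw [← h6, ← Finset.sum_add_distrib]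
    refine Finset.sum_congr rfl fun i _ => ?_
    ring
  have h7 : |∑ i ∈ A, (g b i - g b' i) * (p i - q i - (Pi.single c t : ι → ℝ) i)|
      ≤ 2 * r * ∑ i ∈ A, |g b i - g b' i| := by
    refine (Finset.abs_sum_le_sum_abs _ _).trans ?_
    rw [Finset.mul_sum]
    refine Finset.sum_le_sum fun i hi => ?_
    rw [abs_mul]
    have h8 : |p i - q i - (Pi.single c t : ι → ℝ) i| ≤ 2 * r := by
      have h9 := hp.2 i hi
      have h10 := hq.2 i hi
      rw [Pi.add_apply] at h9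
      have h11 : p i - q i - (Pi.single c t : ι → ℝ) i
          = (p i - (z i + (Pi.single c t : ι → ℝ) i)) - (q i - z i) := by ring
      rw [h11]
      refine (abs_sub _ _).trans ?_
      linarith
    calc |g b i - g b' i| * |p i - q i - (Pi.single c t : ι → ℝ) i|
        ≤ |g b i - g b' i| * (2 * r) := mul_le_mul_of_nonneg_left h8 (abs_nonneg _)
      _ = 2 * r * |g b i - g b' i| := by ring
  have h12 := neg_abs_le (∑ i ∈ A, (g b i - g b' i) * (p i - q i - (Pi.single c t : ι → ℝ) i))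
  linarith

omit [Fintype ι] in
private theorem mid_box [DecidableEq ι] (A : Finset ι) (z e : ι → ℝ) (r : ℝ) (p q : ι → ℝ)
    (hp : p ∈ Box A (z + e) r) (hq : q ∈ Box A (z - e) r) :
    (1 / 2 : ℝ) • (p + q) ∈ Box A z r := by
  constructor
  · intro i hi
    have h1 := hp.1 i hi
    have h2 := hq.1 i hi
    simp only [Pi.smul_apply, Pi.add_apply, Pi.sub_apply, smul_eq_mul] at *
    rw [h1, h2]
    ring
  · intro i hi
    have h1 := hp.2 i hi
    have h2 := hq.2 i hi
    simp only [Pi.smul_apply, Pi.add_apply, Pi.sub_apply, smul_eq_mul] at *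
    rw [abs_le] at *
    constructor <;> linarith [h1.1, h1.2, h2.1, h2.2]

end aux

theorem branching {ι β : Type} [Fintype ι] [DecidableEq ι] [Fintype β] (g : β → ι → ℝ)
    (c0 : β → ℝ) (h : (ι → ℝ) → ℝ) (hle : ∀ b x, c0 b + ∑ i, g b i * x i ≤ h x)
    (hex : ∀ x, ∃ b, c0 b + ∑ i, g b i * x i = h x) (A : Finset ι) (z : ι → ℝ) (r a : ℝ)
    (hr : 0 < r) (ha : 4 * A.card * r < a)
    (hna : ∃ u ∈ Box A z r, ∃ v ∈ Box A z r, 2 * h ((1 / 2 : ℝ) • (u + v)) < h u + h v) :
    ∃ c ∈ A, ∀ b, ¬ ((∃ x ∈ Box A (z + Pi.single c a) r, c0 b + ∑ i, g b i * x i = h x) ∧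
      ∃ x ∈ Box A (z - Pi.single c a) r, c0 b + ∑ i, g b i * x i = h x) := by
  classical
  by_contra hcon
  push Not at hcon
  obtain ⟨u, hu, v, hv, huv⟩ := hna
  have hle' : ∀ b x, Bf g c0 b x ≤ h x := hle
  have hex' : ∀ x, ∃ b, Bf g c0 b x = h x := hex
  have ha0 : 0 < a := lt_of_le_of_lt (by positivity) ha
  -- midpoint of `u` and `v`
  have hm : (1 / 2 : ℝ) • (u + v) ∈ Box A z r :=
    mid_box A z 0 r u v (by simpa using hu) (by simpa using hv)
  -- active functions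
  have hmid : ∀ c ∈ A, ∃ b, (∃ x ∈ Box A (z + Pi.single c a) r, Bf g c0 b x = h x) ∧
      (∃ x ∈ Box A (z - Pi.single c a) r, Bf g c0 b x = h x) ∧
      ∃ x ∈ Box A z r, Bf g c0 b x = h x := by
    intro c hc
    obtain ⟨b, ⟨p, hp, hbp⟩, q, hq, hbq⟩ := hcon c hc
    refine ⟨b, ⟨p, hp, hbp⟩, ⟨q, hq, hbq⟩, (1 / 2 : ℝ) • (p + q), mid_box A z _ r p q hp hq, ?_⟩
    obtain ⟨b', hb'⟩ := hex' ((1 / 2 : ℝ) • (p + q))
    have h1 := Bf_mid g c0 b p q
    have h2 := Bf_mid g c0 b' p q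
    have h3 := hle' b' p
    have h4 := hle' b' q
    have h5 := hle' b ((1 / 2 : ℝ) • (p + q))
    have h6 : Bf g c0 b p = h p := hbp
    have h7 : Bf g c0 b q = h q := hbq
    linarith
  set Act : Finset β := Finset.univ.filter fun b => ∃ x ∈ Box A z r, Bf g c0 b x = h x with hAct
  have hActm : ∀ b, b ∈ Act ↔ ∃ x ∈ Box A z r, Bf g c0 b x = h x := by
    intro b
    simp [hAct]
  obtain ⟨b0, hb0⟩ := hex' ((1 / 2 : ℝ) • (u + v))
  have hb0A : b0 ∈ Act := (hActm b0).2 ⟨_, hm, hb0⟩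
  have hne : (Act ×ˢ Act).Nonempty := ⟨(b0, b0), Finset.mem_product.2 ⟨hb0A, hb0A⟩⟩
  set D : β × β → ℝ := fun w => ∑ i ∈ A, |g w.1 i - g w.2 i| with hD
  obtain ⟨w, hw, hmax⟩ := Finset.exists_max_image (Act ×ˢ Act) D hne
  have hD0 : 0 ≤ D w := Finset.sum_nonneg fun i _ => abs_nonneg _
  obtain ⟨hw1, hw2⟩ := Finset.mem_product.1 hw
  -- the gradient estimate
  have hgrad : ∀ c ∈ A, ∀ b ∈ Act, ∀ bc, (∃ x ∈ Box A (z + Pi.single c a) r, Bf g c0 bc x = h x) →
      (∃ x ∈ Box A (z - Pi.single c a) r, Bf g c0 bc x = h x) → bc ∈ Act →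
      a * |g b c - g bc c| ≤ 2 * r * D w := by
    intro c hc b hb bc hp hq hbc
    obtain ⟨x, hx, hbx⟩ := (hActm b).1 hb
    obtain ⟨p, hp, hbp⟩ := hp
    obtain ⟨q, hq, hbq⟩ := hq
    have h1 := grad_bound g c0 h hle' A z r a c hc b bc x p hx hbx hp hbp
    have hq' : q ∈ Box A (z + Pi.single c (-a)) r := by
      have : (z - Pi.single c a : ι → ℝ) = z + Pi.single c (-a) := by
        rw [Pi.single_neg, sub_eq_add_neg]
      rwa [this] at hq
    have h2 := grad_bound g c0 h hle' A z r (-a) c hc b bc x q hx hbx hq' hbq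
    have h3 : ∑ i ∈ A, |g b i - g bc i| ≤ D w :=
      hmax (b, bc) (Finset.mem_product.2 ⟨hb, hbc⟩)
    have h4 : 2 * r * ∑ i ∈ A, |g b i - g bc i| ≤ 2 * r * D w :=
      mul_le_mul_of_nonneg_left h3 (by positivity)
    have h5 : a * |g b c - g bc c| = |a * (g b c - g bc c)| := by rw [abs_mul, abs_of_pos ha0]
    rw [h5, abs_le]
    constructor <;> linarith
  have hDw : a * D w ≤ 4 * A.card * r * D w := by
    have h1 : ∀ c ∈ A, a * |g w.1 c - g w.2 c| ≤ 4 * r * D w := by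
      intro c hc
      obtain ⟨bc, hp, hq, hz⟩ := hmid c hc
      have hbc := (hActm bc).2 hz
      have h2 := hgrad c hc w.1 hw1 bc hp hq hbc
      have h3 := hgrad c hc w.2 hw2 bc hp hq hbc
      have h4 : |g w.1 c - g w.2 c| ≤ |g w.1 c - g bc c| + |g w.2 c - g bc c| := by
        have h5 : g w.1 c - g w.2 c = (g w.1 c - g bc c) - (g w.2 c - g bc c) := by ring
        rw [h5]
        exact abs_sub _ _
      have h6 := mul_le_mul_of_nonneg_left h4 ha0.le
      linarith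
    calc a * D w = ∑ c ∈ A, a * |g w.1 c - g w.2 c| := by rw [hD, Finset.mul_sum]
      _ ≤ ∑ _c ∈ A, 4 * r * D w := Finset.sum_le_sum h1
      _ = 4 * A.card * r * D w := by rw [Finset.sum_const, nsmul_eq_mul]; ring
  have hDw0 : D w = 0 := by
    by_contra hne0
    have hpos : 0 < D w := lt_of_le_of_ne hD0 (Ne.symm hne0)
    have := mul_lt_mul_of_pos_right ha hpos
    linarith
  -- all active functions have the same gradient on `A`
  have hsame : ∀ b ∈ Act, ∀ b' ∈ Act, ∀ i ∈ A, g b i = g b' i := by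
    intro b hb b' hb' i hi
    have h1 : ∑ i ∈ A, |g b i - g b' i| ≤ D w := hmax (b, b') (Finset.mem_product.2 ⟨hb, hb'⟩)
    have h2 : |g b i - g b' i| ≤ ∑ i ∈ A, |g b i - g b' i| :=
      Finset.single_le_sum (f := fun i => |g b i - g b' i|) (fun j _ => abs_nonneg _) hi
    have h3 : |g b i - g b' i| ≤ 0 := by linarith
    have h4 := abs_nonpos_iff.1 h3
    linarith
  have hact : ∀ x ∈ Box A z r, Bf g c0 b0 x = h x := by
    intro x hx
    obtain ⟨b, hb⟩ := hex' x
    have hbA : b ∈ Act := (hActm b).2 ⟨x, hx, hb⟩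
    have hpq : ∀ i, i ∉ A → x i = ((1 / 2 : ℝ) • (u + v)) i := by
      intro i hi
      rw [hx.1 i hi, hm.1 i hi]
    have h1 := Bf_diff g c0 b0 b A x ((1 / 2 : ℝ) • (u + v)) hpq
    have h2 : ∑ i ∈ A, (g b0 i - g b i) * (x i - ((1 / 2 : ℝ) • (u + v)) i) = 0 := by
      refine Finset.sum_eq_zero fun i hi => ?_
      rw [hsame b0 hb0A b hbA i hi]
      ring
    have h3 := hle' b0 x
    have h4 := hle' b ((1 / 2 : ℝ) • (u + v))
    linarith
  have h1 := Bf_mid g c0 b0 u v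
  have h2 := hact u hu
  have h3 := hact v hv
  linarith

end DC
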