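import Pool.Agent.H18.DC.Basic

/-!
# MP_8e96ff_co, job DC-CPX: from a face-to-face covering family to a complete complex

* `cover_interior`: finitely many closed sets cover `ℝⁿ`; then those with nonempty interior cover.
  PROOF: let `Z` be the union of the closed sets with nonempty interior (closed) and suppose
  `x ∉ Z`; the complement of `Z` is open nonempty and covered by finitely many closed sets with
  empty interior, contradiction (a finite union of closed nowhere dense sets is nowhere dense; or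
  Baire `nonempty_interior_of_iUnion_of_closed` applied in `ℝⁿ` to
  the sets with empty interior together with ... ; or `IsClosed.isNowhereDense_iff`,
  `Dense.inter_of_isOpen_left`: the finite intersection of the dense open complements is dense).
* `face_eq`: a nonempty convex extreme subset `F` of a polyhedron
  `P = {x | ∀ s ∈ S, ∑ s.1 i * x i ≤ s.2}` equals `{x ∈ P | ∀ s ∈ S', ∑ s.1 i * x i = s.2}` for
  `S' = {s ∈ S | tight on all of F}`.
  PROOF: `⊆` clear.  For `s ∈ S \ S'` choose `x_s ∈ F` not tight; the average `xb` of all `x_s`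
  (and of some point of `F`) is in `F` and not tight for every `s ∈ S \ S'`.  For `y` in the right
  side, `z = xb + δ (xb - y) ∈ P` for a small `δ > 0`, and `xb` is in the open segment `(y,z)`, so
  `y ∈ F`.  Hence every polyhedron has finitely many nonempty convex extreme subsets, and they are
  polyhedra.
* `exists_complex`: `cells = {F | F.Nonempty ∧ ∃ i, (interior (C i)).Nonempty ∧ IsFaceOf F (C i)}`.
  Intersections: for faces `F` of `C i`, `F'` of `C j`, put `G = C i ∩ C j`, extreme in `C i` and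
  in `C j`; `F ∩ F' = (F ∩ G) ∩ (F' ∩ G)` is extreme in `G` (`IsExtreme.inter`, `.mono`), so in
  `C i` (`IsExtreme.trans`), so in `F`.  A face `F` of `C i` with nonempty interior equals `C i`
  (`x ∈ interior F`, `y ∈ C i`: `x + δ (x - y) ∈ F`, so `y ∈ F`), so
  `maxCells ⊆ range C`, and every `x` is in some maximal cell by `cover_interior`.
-/

open Set

namespace DC

/-- the left hand side of an inequality -/
def cpxL {n : ℕ} (a : Fin n → ℝ) (x : Fin n → ℝ) : ℝ := ∑ i, a i * x i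

theorem cpxL_comb {n : ℕ} (a : Fin n → ℝ) (x y : Fin n → ℝ) (s t : ℝ) :
    cpxL a (s • x + t • y) = s * cpxL a x + t * cpxL a y := by
  unfold cpxL
  rw [Finset.mul_sum, Finset.mul_sum, ← Finset.sum_add_distrib]
  refine Finset.sum_congr rfl fun i _ => ?_
  simp only [Pi.add_apply, Pi.smul_apply, smul_eq_mul]
  ring

theorem cpxL_cont {n : ℕ} (a : Fin n → ℝ) : Continuous (cpxL a) := by
  unfold cpxL
  exact continuous_finsetSum _ fun i _ => continuous_const.mul (continuous_apply i)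

theorem cpxL_neg {n : ℕ} (a : Fin n → ℝ) (x : Fin n → ℝ) : cpxL (-a) x = -cpxL a x := by
  unfold cpxL
  rw [← Finset.sum_neg_distrib]
  refine Finset.sum_congr rfl fun i _ => ?_
  simp only [Pi.neg_apply]
  ring

theorem IsPolyhedron.isClosed {n : ℕ} {P : Set (Fin n → ℝ)} (hP : IsPolyhedron P) :
    IsClosed P := by
  obtain ⟨S, rfl⟩ := hP
  have h : {x : Fin n → ℝ | ∀ s ∈ S, ∑ i, s.1 i * x i ≤ s.2} =
      ⋂ s ∈ S, {x | cpxL s.1 x ≤ s.2} := by
    ext x
    simp [cpxL]
  rw [h]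
  exact isClosed_biInter fun s _ => isClosed_le (cpxL_cont s.1) continuous_const

theorem IsPolyhedron.convex {n : ℕ} {P : Set (Fin n → ℝ)} (hP : IsPolyhedron P) :
    Convex ℝ P := by
  obtain ⟨S, rfl⟩ := hP
  intro x hx y hy a b ha hb hab s hs
  change cpxL s.1 (a • x + b • y) ≤ s.2
  rw [cpxL_comb]
  have h1 : cpxL s.1 x ≤ s.2 := hx s hs
  have h2 : cpxL s.1 y ≤ s.2 := hy s hs
  calc a * cpxL s.1 x + b * cpxL s.1 y ≤ a * s.2 + b * s.2 :=
        add_le_add (mul_le_mul_of_nonneg_left h1 ha) (mul_le_mul_of_nonneg_left h2 hb)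
    _ = s.2 := by rw [← add_mul, hab, one_mul]

theorem cover_interior {n : ℕ} {𝒞 : Set (Set (Fin n → ℝ))} (hfin : 𝒞.Finite)
    (hcl : ∀ P ∈ 𝒞, IsClosed P) (hcov : ⋃₀ 𝒞 = univ) (x : Fin n → ℝ) :
    ∃ P ∈ 𝒞, (interior P).Nonempty ∧ x ∈ P := by
  by_contra hcon
  push Not at hcon
  set Z : Set (Fin n → ℝ) := ⋃₀ {P | P ∈ 𝒞 ∧ (interior P).Nonempty} with hZ
  have hZc : IsClosed Z := by
    rw [hZ, Set.sUnion_eq_biUnion]
    exact (hfin.subset fun P hP => hP.1).isClosed_biUnion fun P hP => hcl P hP.1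
  have hxZ : x ∈ Zᶜ := by
    rintro ⟨P, ⟨hP, hPi⟩, hxP⟩
    exact hcon P hP hPi hxP
  have hdense : Dense (⋂₀ (compl '' {P | P ∈ 𝒞 ∧ ¬ (interior P).Nonempty})) := by
    apply dense_sInter_of_isOpen
    · rintro _ ⟨P, hP, rfl⟩
      exact (hcl P hP.1).isOpen_compl
    · exact ((hfin.subset fun P hP => hP.1).image _).countable
    · rintro _ ⟨P, hP, rfl⟩
      rw [← interior_eq_empty_iff_dense_compl]
      exact Set.not_nonempty_iff_eq_empty.1 hP.2
  obtain ⟨y, hyZ, hy⟩ := hdense.inter_open_nonempty Zᶜ hZc.isOpen_compl ⟨x, hxZ⟩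
  have hyc : y ∈ ⋃₀ 𝒞 := by rw [hcov]; trivial
  obtain ⟨P, hP, hyP⟩ := hyc
  by_cases hi : (interior P).Nonempty
  · exact hyZ ⟨P, ⟨hP, hi⟩, hyP⟩
  · exact hy Pᶜ ⟨P, ⟨hP, hi⟩, rfl⟩ hyP

theorem cpx_small {α : Type*} (T : Finset α) (c d : α → ℝ) (hd : ∀ s ∈ T, 0 < d s) :
    ∃ δ : ℝ, 0 < δ ∧ ∀ s ∈ T, δ * c s ≤ d s := by
  classical
  induction T using Finset.induction_on with
  | empty => exact ⟨1, one_pos, by simp⟩
  | insert a s ha ih =>
    obtain ⟨δ, hδ, h⟩ := ih fun t ht => hd t (Finset.mem_insert_of_mem ht)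
    have hda := hd a (Finset.mem_insert_self a s)
    refine ⟨min δ (d a / (|c a| + 1)), lt_min hδ (by positivity), ?_⟩
    intro t ht
    have hpos : 0 < min δ (d a / (|c a| + 1)) := lt_min hδ (by positivity)
    rcases Finset.mem_insert.1 ht with rfl | ht
    · calc min δ (d t / (|c t| + 1)) * c t ≤ min δ (d t / (|c t| + 1)) * (|c t| + 1) :=
            mul_le_mul_of_nonneg_left (by linarith [le_abs_self (c t)]) hpos.le
        _ ≤ d t / (|c t| + 1) * (|c t| + 1) :=
            mul_le_mul_of_nonneg_right (min_le_right _ _) (by positivity)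
        _ = d t := div_mul_cancel₀ _ (by positivity)
    · have hdt := hd t (Finset.mem_insert_of_mem ht)
      by_cases hc : c t ≤ 0
      · exact (mul_nonpos_of_nonneg_of_nonpos hpos.le hc).trans hdt.le
      · push Not at hc
        exact (mul_le_mul_of_nonneg_right (min_le_left _ _) hc.le).trans (h t ht)

open Classical in
theorem cpx_face_eq {n : ℕ} (S : Finset ((Fin n → ℝ) × ℝ)) {F : Set (Fin n → ℝ)}
    (hne : F.Nonempty) (hF : IsFaceOf F {x | ∀ s ∈ S, ∑ i, s.1 i * x i ≤ s.2}) :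
    F = {x | (∀ s ∈ S, cpxL s.1 x ≤ s.2) ∧
      ∀ s ∈ S.filter (fun s => ∀ y ∈ F, cpxL s.1 y = s.2), cpxL s.1 x = s.2} := by
  obtain ⟨hconv, hext⟩ := hF
  have hsub : ∀ y ∈ F, ∀ s ∈ S, cpxL s.1 y ≤ s.2 := fun y hy s hs => hext.1 hy s hs
  apply Set.Subset.antisymm
  · intro y hy
    exact ⟨hsub y hy, fun s hs => (Finset.mem_filter.1 hs).2 y hy⟩
  · rintro y ⟨hy1, hy2⟩
    set T := S.filter (fun s => ¬ ∀ y ∈ F, cpxL s.1 y = s.2) with hT
    have hxb : ∀ T' : Finset ((Fin n → ℝ) × ℝ), T' ⊆ T → ∃ x ∈ F, ∀ s ∈ T', cpxL s.1 x < s.2 := by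
      intro T'
      induction T' using Finset.induction_on with
      | empty =>
        intro _
        obtain ⟨x, hx⟩ := hne
        exact ⟨x, hx, by simp⟩
      | insert a s ha ih =>
        intro hs
        obtain ⟨x, hx, hxs⟩ := ih fun t ht => hs (Finset.mem_insert_of_mem ht)
        have haT := Finset.mem_filter.1 (hs (Finset.mem_insert_self a s))
        obtain ⟨haS, hna⟩ := haT
        push Not at hna
        obtain ⟨z, hz, hza⟩ := hna
        have hza' : cpxL a.1 z < a.2 := lt_of_le_of_ne (hsub z hz a haS) hza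
        refine ⟨(1 / 2 : ℝ) • x + (1 / 2 : ℝ) • z, hconv hx hz (by norm_num) (by norm_num)
          (by norm_num), ?_⟩
        intro t ht
        rw [cpxL_comb]
        rcases Finset.mem_insert.1 ht with rfl | ht'
        · have := hsub x hx t haS
          linarith
        · have h1 := hxs t ht'
          have h2 := hsub z hz t (Finset.mem_filter.1 (hs ht)).1
          linarith
    obtain ⟨x, hx, hxT⟩ := hxb T Finset.Subset.rfl
    obtain ⟨δ, hδ, hδT⟩ := cpx_small T (fun s => cpxL s.1 x - cpxL s.1 y)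
      (fun s => s.2 - cpxL s.1 x) (fun s hs => sub_pos.2 (hxT s hs))
    have hz : (1 + δ) • x + (-δ) • y ∈ {x : Fin n → ℝ | ∀ s ∈ S, ∑ i, s.1 i * x i ≤ s.2} := by
      intro s hs
      change cpxL s.1 ((1 + δ) • x + (-δ) • y) ≤ s.2
      rw [cpxL_comb]
      by_cases hsT : ∀ y ∈ F, cpxL s.1 y = s.2
      · have h1 := hy2 s (Finset.mem_filter.2 ⟨hs, hsT⟩)
        have h2 := hsT x hx
        rw [h1, h2]
        linarith
      · have h1 := hδT s (Finset.mem_filter.2 ⟨hs, hsT⟩)
        have h2 : (1 + δ) * cpxL s.1 x + -δ * cpxL s.1 y =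
            cpxL s.1 x + δ * (cpxL s.1 x - cpxL s.1 y) := by ring
        rw [h2]
        linarith
    have hδ1 : (0 : ℝ) < 1 + δ := by linarith
    refine hext.left_mem_of_mem_openSegment (x := y) (y := (1 + δ) • x + (-δ) • y) ?_ hz hx ?_
    · exact hy1
    · refine ⟨δ / (1 + δ), 1 / (1 + δ), by positivity, by positivity, by field_simp; ring, ?_⟩
      funext i
      simp only [Pi.add_apply, Pi.smul_apply, smul_eq_mul]
      field_simp
      ring

open Classical in
theorem cpx_face_finite {n : ℕ} {P : Set (Fin n → ℝ)} (hP : IsPolyhedron P) :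
    {F : Set (Fin n → ℝ) | F.Nonempty ∧ IsFaceOf F P}.Finite := by
  obtain ⟨S, rfl⟩ := hP
  refine ((S.powerset.finite_toSet).image (fun S' : Finset ((Fin n → ℝ) × ℝ) =>
    {x : Fin n → ℝ | (∀ s ∈ S, cpxL s.1 x ≤ s.2) ∧ ∀ s ∈ S', cpxL s.1 x = s.2})).subset ?_
  rintro F ⟨hne, hF⟩
  exact ⟨S.filter (fun s => ∀ y ∈ F, cpxL s.1 y = s.2),
    Finset.mem_coe.2 (Finset.mem_powerset.2 (Finset.filter_subset _ _)),
    (cpx_face_eq S hne hF).symm⟩

open Classical in
theorem cpx_face_poly {n : ℕ} {P : Set (Fin n → ℝ)} (hP : IsPolyhedron P) {F : Set (Fin n → ℝ)}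
    (hne : F.Nonempty) (hF : IsFaceOf F P) : IsPolyhedron F := by
  obtain ⟨S, rfl⟩ := hP
  refine ⟨S ∪ (S.filter (fun s => ∀ y ∈ F, cpxL s.1 y = s.2)).image (fun s => (-s.1, -s.2)), ?_⟩
  have h := cpx_face_eq S hne hF
  apply Set.Subset.antisymm
  · intro x hx s hs
    rw [h] at hx
    rcases Finset.mem_union.1 hs with hs | hs
    · exact hx.1 s hs
    · obtain ⟨s', hs', rfl⟩ := Finset.mem_image.1 hs
      change cpxL (-s'.1) x ≤ -s'.2
      rw [cpxL_neg, hx.2 s' hs']
  · intro x hx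
    rw [h]
    refine ⟨fun s hs => hx s (Finset.mem_union_left _ hs), fun s hs => ?_⟩
    have h1 : cpxL s.1 x ≤ s.2 := hx s (Finset.mem_union_left _ (Finset.mem_filter.1 hs).1)
    have h2 : cpxL (-s.1) x ≤ -s.2 :=
      hx (-s.1, -s.2) (Finset.mem_union_right _ (Finset.mem_image_of_mem _ hs))
    rw [cpxL_neg] at h2
    linarith

/-- A face-to-face covering family of polyhedra gives a complete complex whose maximal cells are
members of the family. -/
theorem exists_complex {n : ℕ} {ι : Type} [Fintype ι] (C : ι → Set (Fin n → ℝ))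
    (hpoly : ∀ i, IsPolyhedron (C i)) (hcov : ∀ x, ∃ i, x ∈ C i)
    (hext : ∀ i j, IsExtreme ℝ (C i) (C i ∩ C j)) :
    ∃ K : CompleteComplex n, K.maxCells ⊆ range C := by
  have hinter : ∀ (i j : ι) (P Q : Set (Fin n → ℝ)), IsFaceOf P (C i) → IsFaceOf Q (C j) →
      IsFaceOf (P ∩ Q) P := by
    intro i j P Q hP hQ
    refine ⟨hP.1.inter hQ.1, Set.inter_subset_left, ?_⟩
    intro p hp q hq z hz hzpq
    refine ⟨hp, ?_⟩
    have hzi : z ∈ C i ∩ C j := ⟨hP.2.1 hz.1, hQ.2.1 hz.2⟩
    have hpj := (hext i j).left_mem_of_mem_openSegment (hP.2.1 hp) (hP.2.1 hq) hzi hzpq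
    have hqj := (hext i j).left_mem_of_mem_openSegment (hP.2.1 hq) (hP.2.1 hp) hzi
      (openSegment_symm ℝ p q ▸ hzpq)
    exact hQ.2.left_mem_of_mem_openSegment hpj.2 hqj.2 hz.2 hzpq
  let K : CompleteComplex n :=
    { cells := {F | F.Nonempty ∧ ∃ i, (interior (C i)).Nonempty ∧ IsFaceOf F (C i)}
      finite := by
        refine (Set.finite_iUnion fun i => cpx_face_finite (hpoly i)).subset ?_
        rintro F ⟨hne, i, _, hF⟩
        exact Set.mem_iUnion.2 ⟨i, hne, hF⟩
      polyhedron := by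
        rintro F ⟨hne, i, _, hF⟩
        exact cpx_face_poly (hpoly i) hne hF
      nonempty := fun F hF => hF.1
      face_mem := by
        rintro P ⟨_, i, hi, hP⟩ F hne hF
        exact ⟨hne, i, hi, hF.1, hP.2.trans hF.2⟩
      inter_face := by
        rintro P ⟨_, i, _, hP⟩ Q ⟨_, j, _, hQ⟩
        refine ⟨hinter i j P Q hP hQ, ?_⟩
        rw [Set.inter_comm]
        exact hinter j i Q P hQ hP
      union := by
        apply Set.eq_univ_of_forall
        intro x
        obtain ⟨P, ⟨i, rfl⟩, hi, hx⟩ := cover_interior (Set.finite_range C)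
          (by rintro _ ⟨i, rfl⟩; exact (hpoly i).isClosed)
          (Set.eq_univ_of_forall fun x => by
            obtain ⟨i, hi⟩ := hcov x
            exact ⟨C i, ⟨i, rfl⟩, hi⟩) x
        exact ⟨C i, ⟨⟨x, hx⟩, i, hi, (hpoly i).convex, IsExtreme.rfl⟩, hx⟩ }
  refine ⟨K, ?_⟩
  rintro P ⟨⟨_, i, _, hP⟩, hPi⟩
  refine ⟨i, ?_⟩
  apply Set.Subset.antisymm _ hP.2.1
  intro y hy
  obtain ⟨x, hx⟩ := hPi
  have hcont : Continuous (fun δ : ℝ => x + δ • (x - y)) := by fun_prop
  have h0 : (fun δ : ℝ => x + δ • (x - y)) 0 ∈ interior P := by simpa using hx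
  have hev : ∀ᶠ δ in nhds (0 : ℝ), x + δ • (x - y) ∈ interior P :=
    hcont.continuousAt.eventually_mem (isOpen_interior.mem_nhds h0)
  obtain ⟨ε, hε, hball⟩ := Metric.eventually_nhds_iff.1 hev
  have hδ : x + (ε / 2) • (x - y) ∈ P := by
    apply interior_subset
    apply hball
    rw [Real.dist_eq, sub_zero, abs_of_pos (by positivity)]
    linarith
  refine hP.2.left_mem_of_mem_openSegment hy (hP.2.1 hδ) (interior_subset hx) ?_
  have h1 : (0 : ℝ) < 1 + ε / 2 := by positivity
  refine ⟨(ε / 2) / (1 + ε / 2), 1 / (1 + ε / 2), by positivity, by positivity,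
    by field_simp; ring, ?_⟩
  funext j
  simp only [Pi.add_apply, Pi.smul_apply, Pi.sub_apply, smul_eq_mul]
  field_simp
  ring

end DC
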