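import Mathlib

/-!
# MP_8e96ff_co (size of convex decompositions of CPWL functions): definitions

Everything in the namespace `DC`.  First the official notions of the problem
(`IsPolyhedron`, `IsFaceOf`, `CompleteComplex`, `maxCells`, `IsCPWL`, `Compatible`, `HasPieces`),
then the internal notions of the construction.
-/

open Set

namespace DC

/-! ## Official notions -/

/-- A polyhedron in `ℝⁿ`: the solution set of finitely many weak linear inequalities. -/
def IsPolyhedron {n : ℕ} (P : Set (Fin n → ℝ)) : Prop :=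
  ∃ S : Finset ((Fin n → ℝ) × ℝ), P = {x | ∀ s ∈ S, ∑ i, s.1 i * x i ≤ s.2}

/-- `F` is a face of the convex set `P`: a convex subset of `P` which contains every closed
segment of `P` that has a relatively interior point in it.  (For a polyhedron `P` these are
exactly the empty set, `P` and the sets where a linear function attains its maximum on `P`.) -/
def IsFaceOf {n : ℕ} (F P : Set (Fin n → ℝ)) : Prop :=
  Convex ℝ F ∧ IsExtreme ℝ P F

/-- A complete polyhedral complex in `ℝⁿ`: a finite set of nonempty polyhedra, closed under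
taking nonempty faces, in which any two cells meet in a (possibly empty) common face, and whose
union is `ℝⁿ`. -/
structure CompleteComplex (n : ℕ) where
  /-- the cells, of all dimensions -/
  cells : Set (Set (Fin n → ℝ))
  finite : cells.Finite
  polyhedron : ∀ P ∈ cells, IsPolyhedron P
  nonempty : ∀ P ∈ cells, P.Nonempty
  face_mem : ∀ P ∈ cells, ∀ F : Set (Fin n → ℝ), F.Nonempty → IsFaceOf F P → F ∈ cells
  inter_face : ∀ P ∈ cells, ∀ Q ∈ cells, IsFaceOf (P ∩ Q) P ∧ IsFaceOf (P ∩ Q) Q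
  union : ⋃₀ cells = univ

/-- The `n`-dimensional cells of a complete complex. -/
def CompleteComplex.maxCells {n : ℕ} (K : CompleteComplex n) : Set (Set (Fin n → ℝ)) :=
  {P | P ∈ K.cells ∧ (interior P).Nonempty}

/-- Continuous piecewise linear functions on `ℝⁿ`. -/
def IsCPWL {n : ℕ} (f : (Fin n → ℝ) → ℝ) : Prop :=
  Continuous f ∧ ∃ S : Finset ((Fin n → ℝ) →ᵃ[ℝ] ℝ), ∀ x, ∃ a ∈ S, f x = a x

/-- `f` is compatible with the complete complex `K`: it is affine on every `n`-dimensional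
cell. -/
def Compatible {n : ℕ} (f : (Fin n → ℝ) → ℝ) (K : CompleteComplex n) : Prop :=
  ∀ P ∈ K.maxCells, ∃ a : (Fin n → ℝ) →ᵃ[ℝ] ℝ, ∀ x ∈ P, f x = a x

/-- `q` is the number of pieces of `f`: the least number of `n`-dimensional cells of a complete
complex compatible with `f`. -/
def HasPieces {n : ℕ} (f : (Fin n → ℝ) → ℝ) (q : ℕ) : Prop :=
  IsLeast {N : ℕ | ∃ K : CompleteComplex n, Compatible f K ∧ K.maxCells.ncard = N} q

/-! ## Internal notions: polyhedral cones, the abstract recursion -/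

/-- A polyhedral cone in a real vector space: finitely many homogeneous inequalities. -/
def IsPolyCone {V : Type*} [AddCommGroup V] [Module ℝ V] (C : Set V) : Prop :=
  ∃ (κ : Type) (_ : Fintype κ) (a : κ → V →ₗ[ℝ] ℝ), C = {v | ∀ k, 0 ≤ a k v}

/-- The space of level `J`: the homogenizing coordinate `t` and `J` blocks `E → ℝ`. -/
abbrev X (E : Type) (J : ℕ) := ℝ × (Fin J → E → ℝ)

/-- The space in which the constant size gadget lives: `(t, x, lam)`. -/
abbrev W (E : Type) := ℝ × (E → ℝ) × ℝ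

/-- A system of bodies: for every body `i : I` the facet forms `l i g` (`g : G`), linear in
`(t, x)`; and the facet forms `φ k` (`k : P`) of the outer box. -/
structure Sys (E I G P : Type) where
  l : I → G → (ℝ × (E → ℝ)) →ₗ[ℝ] ℝ
  φ : P → (E → ℝ) →ₗ[ℝ] ℝ

variable {E I G P : Type}

namespace Sys

/-- The gauge of body `i` : the maximum of its facet forms. -/
noncomputable def N [Fintype G] [Nonempty G] (S : Sys E I G P) (i : I) (t : ℝ) (x : E → ℝ) : ℝ :=
  Finset.univ.sup' Finset.univ_nonempty fun g => S.l i g (t, x)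

/-- The recursively defined function: `F 0 t = max t 0`,
`F (J+1) t (x, y) = ∑ i, F J (t - N i t x) y`. -/
noncomputable def F [Fintype I] [Fintype G] [Nonempty G] (S : Sys E I G P) :
    (J : ℕ) → ℝ → (Fin J → E → ℝ) → ℝ
  | 0, t, _ => max t 0
  | J + 1, t, x => ∑ i, F S J (t - S.N i t (x 0)) (Fin.tail x)

/-- The facet forms of the outer gauge of level `J`; `k` selects a facet form at every level. -/
noncomputable def ρ (S : Sys E I G P) (J : ℕ) (k : Fin J → P) (y : Fin J → E → ℝ) : ℝ :=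
  ∑ j : Fin J, (1 / 8 : ℝ) ^ (j : ℕ) * S.φ (k j) (y j)

/-- The support cone of level `J`. -/
def Sh (S : Sys E I G P) (J : ℕ) : Set (X E J) :=
  {p | ∀ k, S.ρ J k p.2 ≤ p.1}

/-- The outer cone of the gadget. -/
def T (S : Sys E I G P) : Set (W E) :=
  {w | 0 ≤ w.2.2 ∧ ∀ k, S.φ k w.2.1 + w.2.2 / 8 ≤ w.1}

/-- The cone over body `i` of the gadget. -/
def Eh (S : Sys E I G P) (i : I) : Set (W E) :=
  {w | 0 ≤ w.2.2 ∧ ∀ g, S.l i g (w.1, w.2.1) + w.2.2 ≤ w.1}

/-- The properties of a system of bodies used in the construction. -/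
structure Good (S : Sys E I G P) : Prop where
  l_nonneg : ∀ i t x, ∃ g, 0 ≤ S.l i g (t, x)
  l_def : ∀ i x, (∀ g, S.l i g (0, x) ≤ 0) → x = 0
  φ_nonneg : ∀ x, ∃ k, 0 ≤ S.φ k x
  φ_bound : ∃ B : ℝ, 0 < B ∧ ∀ x e, ∃ k, |x e| ≤ B * S.φ k x
  sep : ∀ i i', i ≠ i' → ∀ t x, (∀ g, S.l i g (t, x) ≤ 3 / 2 * t) →
    (∀ g, S.l i' g (t, x) ≤ 3 / 2 * t) → t = 0
  small : ∀ i t x lam, 0 ≤ lam → (∀ g, S.l i g (t, x) + lam ≤ 3 / 2 * t) → 0 < t →
    ∀ k, S.φ k x + lam / 8 < t / 2

/-- A family of cones of the gadget: it subdivides the outer cone minus the bodies, face to face,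
and leaves the facets of the bodies and of the outer cone unsubdivided. -/
structure GadOK (S : Sys E I G P) {κ : Type} (Q : κ → Set (W E)) : Prop where
  poly : ∀ q, IsPolyCone (Q q)
  sub : ∀ q, Q q ⊆ S.T
  cover : ∀ w ∈ S.T, (∃ i, w ∈ S.Eh i) ∨ ∃ q, w ∈ Q q
  ext : ∀ q q', IsExtreme ℝ (Q q) (Q q ∩ Q q')
  out : ∀ q i, ∀ w ∈ Q q, ∃ g, w.1 ≤ S.l i g (w.1, w.2.1) + w.2.2
  extQ : ∀ q i, IsExtreme ℝ (Q q) (Q q ∩ S.Eh i)
  extE : ∀ q i, IsExtreme ℝ (S.Eh i) (Q q ∩ S.Eh i)
  outer : ∀ q k, IsExtreme ℝ S.T (Q q ∩ {w | S.φ k w.2.1 + w.2.2 / 8 = w.1})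

/-- A stage of the recursion: a family of cones subdividing the support cone of level `J`, face to
face, leaving its facets unsubdivided, such that `F J` is linear on every cone of the family. -/
structure Stage [Fintype I] [Fintype G] [Nonempty G] (S : Sys E I G P) (J : ℕ) {ι : Type}
    (C : ι → Set (X E J)) : Prop where
  poly : ∀ c, IsPolyCone (C c)
  cover : ∀ p, p ∈ S.Sh J ↔ ∃ c, p ∈ C c
  ext : ∀ c c', IsExtreme ℝ (C c) (C c ∩ C c')
  outer : ∀ c k, IsExtreme ℝ (S.Sh J) (C c ∩ {p | S.ρ J k p.2 = p.1})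
  lin : ∀ c, ∃ g : X E J →ₗ[ℝ] ℝ, ∀ p ∈ C c, S.F J p.1 p.2 = g p

/-- The family of level `J + 1` built from the family `C` of level `J` and the gadget `Q`. -/
def stepFam (S : Sys E I G P) {κ ι : Type} (Q : κ → Set (W E)) {J : ℕ} (C : ι → Set (X E J)) :
    (I × G × ι) ⊕ (κ × (Fin J → P)) → Set (X E (J + 1))
  | Sum.inl (i, g, c) => {p | (∀ g', S.l i g' (p.1, p.2 0) ≤ S.l i g (p.1, p.2 0)) ∧
      (p.1 - S.l i g (p.1, p.2 0), Fin.tail p.2) ∈ C c}
  | Sum.inr (q, k) => {p | (∀ k', S.ρ J k' (Fin.tail p.2) ≤ S.ρ J k (Fin.tail p.2)) ∧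
      (p.1, p.2 0, S.ρ J k (Fin.tail p.2)) ∈ Q q}

end Sys

/-! ## The concrete system of bodies -/

/-- Edges of the complete graph on `Fin n`. -/
abbrev Edge (n : ℕ) := {p : Fin n × Fin n // p.1 < p.2}

/-- The vertex `i` is an end of the edge `e`. -/
def Inc {n : ℕ} (i : Fin n) (e : Edge n) : Prop := e.1.1 = i ∨ e.1.2 = i

instance {n : ℕ} (i : Fin n) (e : Edge n) : Decidable (Inc i e) := by
  unfold Inc; infer_instance

/-- The sign of the vertex `i` in the edge `e`: `1` at the first end, `-1` at the second. -/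
def sg {n : ℕ} (i : Fin n) (e : Edge n) : ℝ :=
  if e.1.1 = i then 1 else if e.1.2 = i then -1 else 0

/-- The weight of the coordinate `e` in the gauge of body `i`. -/
noncomputable def wt {n : ℕ} (R : ℝ) (i : Fin n) (e : Edge n) : ℝ := if Inc i e then 2 else 1 / R

/-- `±1`. -/
def pm (b : Bool) : ℝ := if b then 1 else -1

/-- The concrete system: bodies `|x_e - t σ| ≤ t/2` for `e ∋ i`, `|x_e| ≤ R t` for the other
coordinates; outer box `|x_e| ≤ 8 R`. -/
noncomputable def sysR (n : ℕ) (R : ℝ) : Sys (Edge n) (Fin n) (Edge n × Bool) (Edge n × Bool) where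
  l i g := (pm g.2 * wt R i g.1) •
    ((LinearMap.proj g.1).comp (LinearMap.snd ℝ ℝ (Edge n → ℝ)) -
      sg i g.1 • LinearMap.fst ℝ ℝ (Edge n → ℝ))
  φ k := (pm k.2 / (8 * R)) • (LinearMap.proj k.1 : (Edge n → ℝ) →ₗ[ℝ] ℝ)

@[simp] theorem sysR_l {n : ℕ} (R : ℝ) (i : Fin n) (g : Edge n × Bool) (t : ℝ) (x : Edge n → ℝ) :
    (sysR n R).l i g (t, x) = pm g.2 * wt R i g.1 * (x g.1 - sg i g.1 * t) := by
  simp [sysR]

@[simp] theorem sysR_φ {n : ℕ} (R : ℝ) (k : Edge n × Bool) (x : Edge n → ℝ) :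
    (sysR n R).φ k x = pm k.2 / (8 * R) * x k.1 := by
  simp [sysR]

/-! ## Boxes in a coordinate slice -/

/-- The sup-norm box of radius `r` around `z` in the slice through `z` in which only the
coordinates in `A` are free. -/
def Box {ι : Type*} (A : Finset ι) (z : ι → ℝ) (r : ℝ) : Set (ι → ℝ) :=
  {x | (∀ c, c ∉ A → x c = z c) ∧ ∀ c ∈ A, |x c - z c| ≤ r}

end DC
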