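import Pool.Agent.H18.DC.Basic

/-!
# MP_8e96ff_co, job DC-EXT: the family of level `J + 1` is face to face

PROOF.  Notation: for `p : X E (J+1)` write `t = p.1`, `x = p.2 0`, `y = Fin.tail p.2`.
`β`-cells `(i,g,c)` : `l i g' (t,x) ≤ l i g (t,x) ∀ g'` (so `N i t x = l i g (t,x)`) and
`(t - l i g (t,x), y) ∈ C c`.  `α`-cells `(q,k)` : `ρ k' y ≤ ρ k y ∀ k'` and `(t,x,ρ k y) ∈ Q q`.
Let `p₁, p₂` be in the first cell, `p = a p₁ + b p₂` in both, show that `p₁` is in the second.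
Use `isExtreme_mk`, `tight_le_left`, `IsExtreme.left`, `ρ_comb`; all forms are linear
(`l i g` is a linear map of `(t,x)`, `Fin.tail (a • x + b • y) = a • Fin.tail x + b • Fin.tail y`
is `rfl`/`funext`).
* (α)–(α) `(q,k)`, `(q',k')`: `ρ k' y = ρ k y` at `p`, and `ρ k' ≤ ρ k` at `p₁, p₂`, so equality
  at `p₁, p₂`; `(t,x,ρ k y)(p)` is the combination of those of `p₁,p₂ ∈ Q q` and lies in
  `Q q ∩ Q q'`, use `hQ.ext`.
* (β)–(β), same `i`: `l i g' = l i g` at `p`, so at `p₁, p₂`; use `hC.ext c c'`.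
* (β)–(β), `i ≠ i'`: at `p`, `(t - l i g, y) ∈ Sh J` and `(t - l i' g', y) ∈ Sh J` give (with
  `ρ_nonneg`) `l i g'' (t,x) ≤ t ≤ 3/2 t` for all `g''` and the same for `i'`, where `t ≥ 0` as
  `0 ≤ N ≤ t`; by `sep` `t = 0`, then `x = 0` (`l_def`), `y = 0` (`ρ_def`), so `p = 0`.  Points
  of a β-cell satisfy `0 ≤ N i t x ≤ t`, and `t = 0` implies that the point is `0`
  (`l_def`, `ρ_def`), so the intersection is extreme by `isExtreme_of_subset_zero`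
  (`t = LinearMap.fst ..`).
* (α)∩(β) extreme in (α): at `p`, put `lam = ρ k y = max`.  `w(p) = (t,x,lam) ∈ Q q`, and
  `(t - l i g, y) ∈ C c ⊆ Sh J` gives `N i t x + lam ≤ t`, so `w(p) ∈ Eh i` (`lam ≥ 0` by
  `ρ_nonneg` and maximality), and by `hQ.out q i` `N i t x + lam = t` at `p`.
  `hQ.extQ q i` gives `w(p₁), w(p₂) ∈ Eh i`: `l i g' + lam ≤ t` at `p₁, p₂` for all `g'`, with
  equality for `g` at `p`, so with equality for `g` at `p₁, p₂`; hence `l i g (p₁) = N i (p₁)`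
  and `t - l i g = lam = ρ k y` at `p₁, p₂, p`.  So `(t - l i g, y)(p)` lies in
  `C c ∩ {ρ k = t}` and is the combination of the two points `(lam, y)(p_s) ∈ Sh J`; by
  `hC.outer c k`, `(lam, y)(p₁) ∈ C c`.
* (β)∩(α) extreme in (β): at `p` as before `ρ k y = lam = t - l i g`.  At `p₁,p₂` (in the β-cell)
  `ρ k y ≤ t - l i g` (since `C c ⊆ Sh J`), so equality at `p₁, p₂`, and
  `ρ k' y ≤ t - l i g = ρ k y` for all `k'` at `p₁`.  `w(p₁) = (t,x,ρ k y) ∈ Eh i` (and `w(p₂)`),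
  and `w(p) ∈ Q q ∩ Eh i`, so `w(p₁) ∈ Q q` by `hQ.extE q i`.
-/

open Set

namespace DC

namespace Sys

variable {E I G P : Type}

theorem extL_comb (S : Sys E I G P) {J : ℕ} (i : I) (g : G) (a b : ℝ) (p q : X E (J + 1)) :
    S.l i g ((a • p + b • q).1, (a • p + b • q).2 0) =
      a * S.l i g (p.1, p.2 0) + b * S.l i g (q.1, q.2 0) := by
  have h : (((a • p + b • q).1, (a • p + b • q).2 0) : ℝ × (E → ℝ)) =
      a • (p.1, p.2 0) + b • (q.1, q.2 0) := rfl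
  rw [h, map_add, map_smul, map_smul]
  rfl

theorem extρ_comb (S : Sys E I G P) {J : ℕ} (k : Fin J → P) (a b : ℝ) (p q : X E (J + 1)) :
    S.ρ J k (Fin.tail (a • p + b • q).2) =
      a * S.ρ J k (Fin.tail p.2) + b * S.ρ J k (Fin.tail q.2) := by
  have h : Fin.tail (a • p + b • q).2 = a • Fin.tail p.2 + b • Fin.tail q.2 := rfl
  rw [h, S.ρ_comb]

/-- the point of the gadget -/
noncomputable def extW (S : Sys E I G P) {J : ℕ} (k : Fin J → P) (p : X E (J + 1)) : W E :=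
  (p.1, p.2 0, S.ρ J k (Fin.tail p.2))

theorem extW_comb (S : Sys E I G P) {J : ℕ} (k : Fin J → P) (a b : ℝ) (p q : X E (J + 1)) :
    S.extW k (a • p + b • q) = a • S.extW k p + b • S.extW k q := by
  refine Prod.ext rfl (Prod.ext rfl ?_)
  exact S.extρ_comb k a b p q

/-- the point of the previous level -/
noncomputable def extB (S : Sys E I G P) {J : ℕ} (i : I) (g : G) (p : X E (J + 1)) : X E J :=
  (p.1 - S.l i g (p.1, p.2 0), Fin.tail p.2)

theorem extB_comb (S : Sys E I G P) {J : ℕ} (i : I) (g : G) (a b : ℝ) (p q : X E (J + 1)) :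
    S.extB i g (a • p + b • q) = a • S.extB i g p + b • S.extB i g q := by
  refine Prod.ext ?_ rfl
  change (a • p + b • q).1 - S.l i g ((a • p + b • q).1, (a • p + b • q).2 0) =
    a * (p.1 - S.l i g (p.1, p.2 0)) + b * (q.1 - S.l i g (q.1, q.2 0))
  rw [S.extL_comb]
  change a * p.1 + b * q.1 - _ = _
  ring

section
variable [Fintype E] [Fintype I] [Fintype G] [Nonempty G] [Fintype P] [Nonempty P]
  (S : Sys E I G P) {κ ι : Type} {Q : κ → Set (W E)} {J : ℕ} {C : ι → Set (X E J)}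

theorem ext_beta_Sh (hC : S.Stage J C) {i : I} {g : G} {c : ι} {p : X E (J + 1)}
    (hp : S.extB i g p ∈ C c) : S.extB i g p ∈ S.Sh J := (hC.cover _).2 ⟨c, hp⟩

theorem ext_beta_bounds (hS : S.Good) (hC : S.Stage J C) {i : I} {g : G} {c : ι} {p : X E (J + 1)}
    (h1 : ∀ g', S.l i g' (p.1, p.2 0) ≤ S.l i g (p.1, p.2 0)) (hp : S.extB i g p ∈ C c) :
    0 ≤ S.l i g (p.1, p.2 0) ∧ S.l i g (p.1, p.2 0) ≤ p.1 := by
  obtain ⟨g', hg'⟩ := hS.l_nonneg i p.1 (p.2 0)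
  have h2 := S.Sh_nonneg hS (S.ext_beta_Sh hC hp)
  change 0 ≤ p.1 - S.l i g (p.1, p.2 0) at h2
  exact ⟨hg'.trans (h1 g'), by linarith⟩

theorem ext_beta_zero (hS : S.Good) (hC : S.Stage J C) {i : I} {g : G} {c : ι} {p : X E (J + 1)}
    (h1 : ∀ g', S.l i g' (p.1, p.2 0) ≤ S.l i g (p.1, p.2 0)) (hp : S.extB i g p ∈ C c)
    (h0 : p.1 = 0) : p = 0 := by
  obtain ⟨h2, h3⟩ := S.ext_beta_bounds hS hC h1 hp
  have h4 : S.l i g (p.1, p.2 0) = 0 := by linarith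
  have hx : p.2 0 = 0 := by
    apply hS.l_def i
    intro g'
    have h5 := h1 g'
    rw [h4, h0] at h5
    exact h5
  have hy : S.extB i g p = 0 := by
    apply S.Sh_zero hS (S.ext_beta_Sh hC hp)
    change p.1 - S.l i g (p.1, p.2 0) = 0
    rw [h4, h0, sub_zero]
  have hy2 : Fin.tail p.2 = 0 := congrArg Prod.snd hy
  refine Prod.ext h0 ?_
  funext j
  refine Fin.cases hx (fun j => ?_) j
  exact congrFun hy2 j

/-- Tightness at a point of an alpha cell and a beta cell. -/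
theorem ext_alpha_beta (hS : S.Good) (hQ : S.GadOK Q) (hC : S.Stage J C) {i : I} {g : G} {c : ι}
    {q : κ} {k : Fin J → P} {p : X E (J + 1)}
    (h1 : ∀ g', S.l i g' (p.1, p.2 0) ≤ S.l i g (p.1, p.2 0)) (hp : S.extB i g p ∈ C c)
    (h2 : ∀ k', S.ρ J k' (Fin.tail p.2) ≤ S.ρ J k (Fin.tail p.2)) (hq : S.extW k p ∈ Q q) :
    S.extW k p ∈ S.Eh i ∧ S.l i g (p.1, p.2 0) + S.ρ J k (Fin.tail p.2) = p.1 := by
  obtain ⟨k', hk'⟩ := S.ρ_nonneg hS J (Fin.tail p.2)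
  have h3 : 0 ≤ S.ρ J k (Fin.tail p.2) := hk'.trans (h2 k')
  have h4 := S.ext_beta_Sh hC hp k
  change S.ρ J k (Fin.tail p.2) ≤ p.1 - S.l i g (p.1, p.2 0) at h4
  have h5 : S.extW k p ∈ S.Eh i := by
    refine ⟨h3, fun g' => ?_⟩
    change S.l i g' (p.1, p.2 0) + S.ρ J k (Fin.tail p.2) ≤ p.1
    have := h1 g'
    linarith
  obtain ⟨g₀, hg₀⟩ := hQ.out q i _ hq
  change p.1 ≤ S.l i g₀ (p.1, p.2 0) + S.ρ J k (Fin.tail p.2) at hg₀
  have h6 := h1 g₀
  exact ⟨h5, by linarith⟩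

end

theorem step_ext [Fintype E] [Fintype I] [Fintype G] [Nonempty G] [Fintype P] [Nonempty P]
    (S : Sys E I G P) (hS : S.Good) {κ ι : Type} {Q : κ → Set (W E)} (hQ : S.GadOK Q) {J : ℕ}
    {C : ι → Set (X E J)} (hC : S.Stage J C) :
    ∀ c c', IsExtreme ℝ (S.stepFam Q C c) (S.stepFam Q C c ∩ S.stepFam Q C c') := by
  rintro (⟨i, g, c⟩ | ⟨q, k⟩) (⟨i', g', c'⟩ | ⟨q', k'⟩)
  · -- beta, beta
    by_cases hii : i = i'
    · subst hii
      refine isExtreme_mk inter_subset_left ?_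
      rintro p₁ ⟨hp1, hp1'⟩ p₂ ⟨hp2, hp2'⟩ a b ha hb hab ⟨⟨hz1, hz2⟩, ⟨hz3, hz4⟩⟩
      have e1 : S.l i g' (p₁.1, p₁.2 0) = S.l i g (p₁.1, p₁.2 0) := by
        refine tight_le_left ha hb (hp1 g') (hp2 g') ?_
        have h := hz3 g
        rw [S.extL_comb, S.extL_comb] at h
        exact h
      have e2 : S.l i g' ((a • p₁ + b • p₂).1, (a • p₁ + b • p₂).2 0) =
          S.l i g ((a • p₁ + b • p₂).1, (a • p₁ + b • p₂).2 0) := le_antisymm (hz1 g') (hz3 g)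
      have hb1 : S.extB i g p₁ ∈ C c ∩ C c' := by
        refine IsExtreme.left (hC.ext c c') (q := S.extB i g p₂) hp1' hp2' ha hb hab ?_
        rw [← S.extB_comb]
        refine ⟨hz2, ?_⟩
        have e3 : S.extB i g (a • p₁ + b • p₂) = S.extB i g' (a • p₁ + b • p₂) := by
          unfold extB
          rw [e2]
        rw [e3]
        exact hz4
      refine ⟨⟨hp1, hp1'⟩, ⟨fun g'' => ?_, ?_⟩⟩
      · rw [e1]
        exact hp1 g''
      · change S.extB i g' p₁ ∈ C c'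
        have e3 : S.extB i g' p₁ = S.extB i g p₁ := by
          unfold extB
          rw [e1]
        rw [e3]
        exact hb1.2
    · refine isExtreme_of_subset_zero (LinearMap.fst ℝ ℝ (Fin (J + 1) → E → ℝ)) ?_ ?_
        inter_subset_left ?_
      · rintro v ⟨h1, h2⟩
        obtain ⟨h3, h4⟩ := S.ext_beta_bounds hS hC h1 h2
        exact h3.trans h4
      · rintro v ⟨h1, h2⟩ h0
        exact S.ext_beta_zero hS hC h1 h2 h0
      · rintro v ⟨⟨h1, h2⟩, ⟨h1', h2'⟩⟩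
        obtain ⟨h3, h4⟩ := S.ext_beta_bounds hS hC h1 h2
        obtain ⟨h3', h4'⟩ := S.ext_beta_bounds hS hC h1' h2'
        have h0 : v.1 = 0 := by
          apply hS.sep i i' hii v.1 (v.2 0)
          · intro g''
            have := h1 g''
            linarith
          · intro g''
            have := h1' g''
            linarith
        exact S.ext_beta_zero hS hC h1 h2 h0
  · -- beta, alpha
    refine isExtreme_mk inter_subset_left ?_
    rintro p₁ ⟨hp1, hp1'⟩ p₂ ⟨hp2, hp2'⟩ a b ha hb hab ⟨⟨hz1, hz2⟩, ⟨hz3, hz4⟩⟩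
    obtain ⟨hE, hT⟩ := S.ext_alpha_beta hS hQ hC hz1 hz2 hz3 hz4
    rw [S.extL_comb, S.extρ_comb] at hT
    have s1 : ∀ k'', S.ρ J k'' (Fin.tail p₁.2) ≤ p₁.1 - S.l i g (p₁.1, p₁.2 0) :=
      S.ext_beta_Sh hC hp1'
    have s2 : ∀ k'', S.ρ J k'' (Fin.tail p₂.2) ≤ p₂.1 - S.l i g (p₂.1, p₂.2 0) :=
      S.ext_beta_Sh hC hp2'
    have hT' : a * (p₁.1 - S.l i g (p₁.1, p₁.2 0)) + b * (p₂.1 - S.l i g (p₂.1, p₂.2 0)) ≤
        a * S.ρ J k' (Fin.tail p₁.2) + b * S.ρ J k' (Fin.tail p₂.2) := by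
      have h : (a • p₁ + b • p₂).1 = a * p₁.1 + b * p₂.1 := rfl
      rw [h] at hT
      linarith
    have t1 := tight_le_left ha hb (s1 k') (s2 k') hT'
    have t2 := tight_le_right ha hb (s1 k') (s2 k') hT'
    have key : ∀ p : X E (J + 1), (∀ g'', S.l i g'' (p.1, p.2 0) ≤ S.l i g (p.1, p.2 0)) →
        (∀ k'', S.ρ J k'' (Fin.tail p.2) ≤ p.1 - S.l i g (p.1, p.2 0)) →
        S.ρ J k' (Fin.tail p.2) = p.1 - S.l i g (p.1, p.2 0) → S.extW k' p ∈ S.Eh i := by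
      intro p h1 h2 h3
      obtain ⟨k₀, hk₀⟩ := S.ρ_nonneg hS J (Fin.tail p.2)
      refine ⟨?_, fun g'' => ?_⟩
      · change 0 ≤ S.ρ J k' (Fin.tail p.2)
        rw [h3]
        exact hk₀.trans (h2 k₀)
      · change S.l i g'' (p.1, p.2 0) + S.ρ J k' (Fin.tail p.2) ≤ p.1
        have := h1 g''
        linarith
    have w1 := key p₁ hp1 s1 t1
    have w2 := key p₂ hp2 s2 t2
    have hw : S.extW k' p₁ ∈ Q q' ∩ S.Eh i := by
      refine IsExtreme.left (hQ.extE q' i) w1 w2 ha hb hab ?_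
      rw [← S.extW_comb]
      exact ⟨hz4, hE⟩
    refine ⟨⟨hp1, hp1'⟩, ⟨fun k'' => ?_, hw.1⟩⟩
    rw [t1]
    exact s1 k''
  · -- alpha, beta
    refine isExtreme_mk inter_subset_left ?_
    rintro p₁ ⟨hp1, hp1'⟩ p₂ ⟨hp2, hp2'⟩ a b ha hb hab ⟨⟨hz1, hz2⟩, ⟨hz3, hz4⟩⟩
    obtain ⟨hE, hT⟩ := S.ext_alpha_beta hS hQ hC hz3 hz4 hz1 hz2
    have hzc : S.extW k (a • p₁ + b • p₂) = a • S.extW k p₁ + b • S.extW k p₂ :=
      S.extW_comb k a b p₁ p₂
    have w1 : S.extW k p₁ ∈ Q q ∩ S.Eh i' := by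
      refine IsExtreme.left (hQ.extQ q i') (q := S.extW k p₂) hp1' hp2' ha hb hab ?_
      rw [← hzc]
      exact ⟨hz2, hE⟩
    have w2 : S.extW k p₂ ∈ Q q ∩ S.Eh i' := by
      refine IsExtreme.right (hQ.extQ q i') (p := S.extW k p₁) hp1' hp2' ha hb hab ?_
      rw [← hzc]
      exact ⟨hz2, hE⟩
    have u1 : ∀ g'', S.l i' g'' (p₁.1, p₁.2 0) + S.ρ J k (Fin.tail p₁.2) ≤ p₁.1 := w1.2.2
    have u2 : ∀ g'', S.l i' g'' (p₂.1, p₂.2 0) + S.ρ J k (Fin.tail p₂.2) ≤ p₂.1 := w2.2.2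
    rw [S.extL_comb, S.extρ_comb] at hT
    have hT' : a * p₁.1 + b * p₂.1 ≤
        a * (S.l i' g' (p₁.1, p₁.2 0) + S.ρ J k (Fin.tail p₁.2)) +
          b * (S.l i' g' (p₂.1, p₂.2 0) + S.ρ J k (Fin.tail p₂.2)) := by
      have h : (a • p₁ + b • p₂).1 = a * p₁.1 + b * p₂.1 := rfl
      rw [h] at hT
      linarith
    have t1 := tight_le_left ha hb (u1 g') (u2 g') hT'
    have t2 := tight_le_right ha hb (u1 g') (u2 g') hT'
    have hSh1 : S.extB i' g' p₁ ∈ S.Sh J := by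
      intro k''
      change S.ρ J k'' (Fin.tail p₁.2) ≤ p₁.1 - S.l i' g' (p₁.1, p₁.2 0)
      have := hp1 k''
      linarith
    have hSh2 : S.extB i' g' p₂ ∈ S.Sh J := by
      intro k''
      change S.ρ J k'' (Fin.tail p₂.2) ≤ p₂.1 - S.l i' g' (p₂.1, p₂.2 0)
      have := hp2 k''
      linarith
    have hb1 : S.extB i' g' p₁ ∈ C c' ∩ {p | S.ρ J k p.2 = p.1} := by
      refine IsExtreme.left (hC.outer c' k) hSh1 hSh2 ha hb hab ?_
      rw [← S.extB_comb]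
      refine ⟨hz4, ?_⟩
      change S.ρ J k (Fin.tail (a • p₁ + b • p₂).2) = (a • p₁ + b • p₂).1 -
        S.l i' g' ((a • p₁ + b • p₂).1, (a • p₁ + b • p₂).2 0)
      rw [S.extL_comb, S.extρ_comb]
      linarith
    refine ⟨⟨hp1, hp1'⟩, ⟨fun g'' => ?_, hb1.1⟩⟩
    have := u1 g''
    linarith
  · -- alpha, alpha
    refine isExtreme_mk inter_subset_left ?_
    rintro p₁ ⟨hp1, hp1'⟩ p₂ ⟨hp2, hp2'⟩ a b ha hb hab ⟨⟨hz1, hz2⟩, ⟨hz3, hz4⟩⟩
    have e1 : S.ρ J k' (Fin.tail p₁.2) = S.ρ J k (Fin.tail p₁.2) := by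
      refine tight_le_left ha hb (hp1 k') (hp2 k') ?_
      have h := hz3 k
      rw [S.extρ_comb, S.extρ_comb] at h
      exact h
    have e2 : S.ρ J k' (Fin.tail (a • p₁ + b • p₂).2) = S.ρ J k (Fin.tail (a • p₁ + b • p₂).2) :=
      le_antisymm (hz1 k') (hz3 k)
    have hw : S.extW k p₁ ∈ Q q ∩ Q q' := by
      refine IsExtreme.left (hQ.ext q q') (q := S.extW k p₂) hp1' hp2' ha hb hab ?_
      rw [← S.extW_comb]
      refine ⟨hz2, ?_⟩
      have e3 : S.extW k (a • p₁ + b • p₂) = S.extW k' (a • p₁ + b • p₂) := by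
        unfold extW
        rw [e2]
      rw [e3]
      exact hz4
    refine ⟨⟨hp1, hp1'⟩, ⟨fun k'' => ?_, ?_⟩⟩
    · rw [e1]
      exact hp1 k''
    · change S.extW k' p₁ ∈ Q q'
      have e3 : S.extW k' p₁ = S.extW k p₁ := by
        unfold extW
        rw [e1]
      rw [e3]
      exact hw.2

end Sys

end DC
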