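import Pool.Agent.H18.DC.Basic

/-!
# MP_8e96ff_co, job DC-LIN: `F` is linear on the cells of the next stage

Notation: for `p : X E (J+1)` write `t = p.1`, `x = p.2 0`, `y = Fin.tail p.2`.
`β`-cells `(i,g,c)`, `α`-cells `(q,k)`, see `stepFam` in `Defs`.  `ρ_succ` in `Basic`.

* `step_lin`: `F J t y = 0` for `t ≤ 0`... more precisely prove by induction (or use `hC.cover`,
  no: prove directly) `F_eq_zero : (∃ k, t ≤ ρ J k y) → F J t y = 0` and `F J t y = 0` if `t ≤ 0`
  (follows, `ρ_nonneg`).  [Induction: `F (J+1) t (x,y) = ∑ i, F J (t - N i t x) y`; suppose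
  `t ≤ φ k0 x + ρ k y / 8`; if `t - N i t x > ρ k y` for ALL `k` then, with `lam = max ρ k y ≥ 0`,
  `l i g + lam ≤ t` for all `g`, so `t ≥ 0`, and `small` gives `φ k0 x + lam/8 < t/2` if `t > 0`,
  a contradiction; if `t = 0`, `N + lam < 0`, a contradiction.]
  α-cell: by `hQ.out q i` there is `g` with `t ≤ l i g + lam`, so `t - N i t x ≤ lam = ρ k y` and
  all summands vanish: `F (J+1) = 0` on the cell.  β-cell `(i,g,c)`: the summands `i' ≠ i` vanish
  (otherwise `t - N i' > max ρ =: lam ≥ 0` and `t - N i ≥ lam`, so `N i, N i' ≤ t ≤ 3/2 t`, by `sep`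
  `t = 0` and `0 - N i' > lam ≥ 0`, contradiction), and the summand `i` is
  `F J (t - l i g (t,x)) y`, the linear form of `hC.lin c` at `(t - l i g (t,x), y)`.
-/

open Set

namespace DC

namespace Sys

variable {E I G P : Type}

/-- `F J` vanishes outside the support cone and on its boundary. -/
theorem F_eq_zero [Fintype E] [Fintype I] [Fintype G] [Nonempty G] [Fintype P] [Nonempty P]
    (S : Sys E I G P) (hS : S.Good) (J : ℕ) (t : ℝ) (y : Fin J → E → ℝ)
    (h : ∃ k, t ≤ S.ρ J k y) : S.F J t y = 0 := by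
  induction J generalizing t with
  | zero =>
    obtain ⟨k, hk⟩ := h
    rw [S.ρ_zero] at hk
    exact max_eq_right hk
  | succ J ih =>
    obtain ⟨k, hk⟩ := h
    rw [S.ρ_succ] at hk
    show ∑ i, S.F J (t - S.N i t (y 0)) (Fin.tail y) = 0
    refine Finset.sum_eq_zero fun i _ => ih _ _ ?_
    by_contra hc
    push Not at hc
    obtain ⟨k1, hk1⟩ := S.exists_ρ_max J (Fin.tail y)
    obtain ⟨k2, hk2⟩ := S.ρ_nonneg hS J (Fin.tail y)
    have hlam : 0 ≤ S.ρ J k1 (Fin.tail y) := hk2.trans (hk1 k2)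
    have hN := S.N_nonneg hS i t (y 0)
    have h1 := hc k1
    have ht : 0 < t := by linarith
    have hsm := hS.small i t (y 0) (S.ρ J k1 (Fin.tail y)) hlam (fun g => by
      have := S.le_N i g t (y 0)
      linarith) ht (k 0)
    have h2 := hk1 (Fin.tail k)
    linarith

theorem step_lin [Fintype E] [Fintype I] [Fintype G] [Nonempty G] [Fintype P] [Nonempty P]
    (S : Sys E I G P) (hS : S.Good) {κ ι : Type} {Q : κ → Set (W E)} (hQ : S.GadOK Q) {J : ℕ}
    {C : ι → Set (X E J)} (hC : S.Stage J C) :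
    ∀ c, ∃ g : X E (J + 1) →ₗ[ℝ] ℝ, ∀ p ∈ S.stepFam Q C c, S.F (J + 1) p.1 p.2 = g p := by
  classical
  rintro (⟨i, g, c⟩ | ⟨q, k⟩)
  · obtain ⟨gc, hgc⟩ := hC.lin c
    let tl : (Fin (J + 1) → E → ℝ) →ₗ[ℝ] (Fin J → E → ℝ) := LinearMap.pi fun j => LinearMap.proj j.succ
    let A : X E (J + 1) →ₗ[ℝ] X E J := LinearMap.prod
      (LinearMap.fst ℝ ℝ (Fin (J + 1) → E → ℝ) - (S.l i g).comp (LinearMap.prod
        (LinearMap.fst ℝ ℝ (Fin (J + 1) → E → ℝ))
        ((LinearMap.proj 0).comp (LinearMap.snd ℝ ℝ (Fin (J + 1) → E → ℝ)))))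
      (tl.comp (LinearMap.snd ℝ ℝ (Fin (J + 1) → E → ℝ)))
    refine ⟨gc.comp A, ?_⟩
    rintro ⟨t, x⟩ ⟨hmax, hmem⟩
    simp only at hmax hmem
    have hNi : S.N i t (x 0) = S.l i g (t, x 0) := S.N_eq_of i g t (x 0) hmax
    have hSh : (t - S.l i g (t, x 0), Fin.tail x) ∈ S.Sh J := (hC.cover _).2 ⟨c, hmem⟩
    have hlin := hgc _ hmem
    show ∑ i', S.F J (t - S.N i' t (x 0)) (Fin.tail x) = gc (A (t, x))
    have hA : A (t, x) = (t - S.l i g (t, x 0), Fin.tail x) := rfl
    rw [hA, ← hlin, Finset.sum_eq_single i]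
    · rw [hNi]
    · intro i' _ hi'
      apply S.F_eq_zero hS
      by_contra hc
      push Not at hc
      obtain ⟨k1, hk1⟩ := S.exists_ρ_max J (Fin.tail x)
      obtain ⟨k2, hk2⟩ := S.ρ_nonneg hS J (Fin.tail x)
      have hlam : 0 ≤ S.ρ J k1 (Fin.tail x) := hk2.trans (hk1 k2)
      have hN := S.N_nonneg hS i' t (x 0)
      have h1 := hc k1
      have h2 : S.ρ J k1 (Fin.tail x) ≤ t - S.l i g (t, x 0) := hSh k1
      have ht : 0 < t := by linarith
      have h3 := hS.sep i i' (Ne.symm hi') t (x 0) (fun g' => by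
        have := hmax g'
        linarith) (fun g' => by
        have := S.le_N i' g' t (x 0)
        linarith)
      linarith
    · intro h
      exact absurd (Finset.mem_univ i) h
  · refine ⟨0, ?_⟩
    rintro ⟨t, x⟩ ⟨-, hmem⟩
    simp only at hmem
    show ∑ i', S.F J (t - S.N i' t (x 0)) (Fin.tail x) = 0
    refine Finset.sum_eq_zero fun i _ => ?_
    apply S.F_eq_zero hS
    obtain ⟨g, hg⟩ := hQ.out q i _ hmem
    simp only at hg
    refine ⟨k, ?_⟩
    have := S.le_N i g t (x 0)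
    linarith

end Sys

end DC
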