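import Pool.Agent.H18.DC.Basic

/-!
# MP_8e96ff_co, job DC-STEP: the other properties of the family of level `J + 1`

Notation: for `p : X E (J+1)` write `t = p.1`, `x = p.2 0`, `y = Fin.tail p.2`.
`β`-cells `(i,g,c)`, `α`-cells `(q,k)`, see `stepFam` in `Defs`.  `ρ_succ` in `Basic`.

* `step_poly`: linear conditions; preimages of polyhedral cones under linear maps
  (`IsPolyCone.inter`, `IsPolyCone.preimage`, `isPolyCone_forall_le`); `ρL` is `ρ` as a linear map.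
* `step_cover`: `p ∈ Sh (J+1)` iff `φ k x + (ρ k' y)/8 ≤ t` for all `k, k'`.  Let `lam = ρ k y` be
  the maximum (`exists_ρ_max`; `lam ≥ 0` by `ρ_nonneg`).  Then `w = (t,x,lam) ∈ T`; by `hQ.cover`
  either `w ∈ Q q` (α-cell `(q,k)`) or `w ∈ Eh i`, i.e. `N i t x + lam ≤ t`, so
  `(t - N i t x, y) ∈ Sh J` is in some `C c`; take `g` with `l i g (t,x) = N i t x` (`exists_N`).
  Conversely α-cells: `Q q ⊆ T` (`hQ.sub`) and `ρ k' y ≤ ρ k y`; β-cells: `C c ⊆ Sh J`, so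
  `w = (t,x,max ρ) ∈ Eh i`, and then `w ∈ T`: `t ≥ 0`; if `t > 0` use `hS.small` (as
  `l i g + lam ≤ t ≤ 3/2 t`), if `t = 0` then `x = 0` (`l_def`) and `lam = 0`.
* `step_outer`: for the facet `(k 0, tail k)` of level `J+1`: `φ (k 0) x + ρ (tail k) y / 8 = t`.
  β-cell: for such a point `w = (t,x,max ρ) ∈ Eh i` and `t ≤ φ x + lam/8`, contradiction with
  `small` unless `t = 0`, so the intersection is contained in `{0}`
  (`isExtreme_of_subset_zero`, `Sh_nonneg`, `Sh_zero`).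
  α-cell `(q,k')`: let `p₁,p₂ ∈ Sh (J+1)`, `p = a p₁ + b p₂` in the set.  At `p`:
  `t = φ (k 0) x + ρ (tail k) y/8 ≤ φ (k 0) x + ρ k' y/8 ≤ t` (as `ρ (tail k) y ≤ ρ k' y`), so both
  forms `φ (k 0) x + ρ (tail k) y/8` and `φ (k 0) x + ρ k' y/8` (facet forms of level `J+1`, so
  `≤ t` at `p₁,p₂`) are `= t` at `p`, hence at `p₁, p₂`.  Hence at `p₁` (and `p₂`) `ρ k' y` is the
  maximum of all `ρ k'' y` (since `φ (k 0) x + ρ k'' y / 8 ≤ t`), `(t,x,ρ k' y) ∈ T` and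
  `φ (k 0) x + ρ k' y/8 = t`; use `hQ.outer q (k 0)`.
* `stage_zero`: `C = {p | 0 ≤ p.1}` on the one-element index set (`Sh 0 = {p | 0 ≤ p.1}`,
  `F 0 t = max t 0`).
-/

open Set

namespace DC

namespace Sys

variable {E I G P : Type}

/-- the tail of a tuple of blocks, as a linear map -/
def tailL (E : Type) (J : ℕ) : (Fin (J + 1) → E → ℝ) →ₗ[ℝ] (Fin J → E → ℝ) :=
  LinearMap.pi fun j => LinearMap.proj j.succ

theorem tailL_apply (J : ℕ) (x : Fin (J + 1) → E → ℝ) : tailL E J x = Fin.tail x := rfl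

/-- the first two blocks, as a linear map -/
def prL (E : Type) (J : ℕ) : X E (J + 1) →ₗ[ℝ] ℝ × (E → ℝ) :=
  (LinearMap.fst ℝ ℝ _).prod ((LinearMap.proj 0).comp (LinearMap.snd ℝ ℝ (Fin (J + 1) → E → ℝ)))

theorem prL_apply (J : ℕ) (p : X E (J + 1)) : prL E J p = (p.1, p.2 0) := rfl

theorem step_poly [Fintype E] [Fintype I] [Fintype G] [Nonempty G] [Fintype P] [Nonempty P]
    (S : Sys E I G P) {κ ι : Type} {Q : κ → Set (W E)} (hQ : S.GadOK Q) {J : ℕ}
    {C : ι → Set (X E J)} (hC : S.Stage J C) :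
    ∀ c, IsPolyCone (S.stepFam Q C c) := by
  rintro (⟨i, g, c⟩ | ⟨q, k⟩)
  · have h1 := isPolyCone_forall_le (V := X E (J + 1)) (fun g' : G => (S.l i g').comp (prL E J))
      (fun _ => (S.l i g).comp (prL E J))
    have h2 := (hC.poly c).preimage
      ((LinearMap.fst ℝ ℝ (Fin (J + 1) → E → ℝ) - (S.l i g).comp (prL E J)).prod
        ((tailL E J).comp (LinearMap.snd ℝ ℝ (Fin (J + 1) → E → ℝ))))
    exact h1.inter h2
  · have h1 := isPolyCone_forall_le (V := X E (J + 1))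
      (fun k' : Fin J → P => (S.ρL J k').comp ((tailL E J).comp (LinearMap.snd ℝ ℝ _)))
      (fun _ => (S.ρL J k).comp ((tailL E J).comp (LinearMap.snd ℝ ℝ _)))
    have h2 := (hQ.poly q).preimage
      ((LinearMap.fst ℝ ℝ (Fin (J + 1) → E → ℝ)).prod
        (((LinearMap.proj 0).comp (LinearMap.snd ℝ ℝ (Fin (J + 1) → E → ℝ))).prod
          ((S.ρL J k).comp ((tailL E J).comp (LinearMap.snd ℝ ℝ _)))))
    have h3 := h1.inter h2
    convert h3 using 1
    ext p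
    simp [stepFam, ρL_apply, tailL_apply]

/-- a point over a body lies in the outer cone, and strictly inside unless it is the apex -/
theorem beta_T (S : Sys E I G P) (hS : S.Good) (i : I) {t : ℝ} {x : E → ℝ} {lam : ℝ}
    (hlam : 0 ≤ lam) (h : ∀ g, S.l i g (t, x) + lam ≤ t) :
    0 ≤ t ∧ (0 < t → ∀ k, S.φ k x + lam / 8 < t / 2) ∧ (t = 0 → x = 0 ∧ lam = 0) := by
  obtain ⟨g0, hg0⟩ := hS.l_nonneg i t x
  have ht : 0 ≤ t := by have := h g0; linarith
  refine ⟨ht, fun hpos => hS.small i t x lam hlam (fun g => by have := h g; linarith) hpos, ?_⟩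
  intro h0
  have hl : lam = 0 := by have := h g0; linarith
  refine ⟨hS.l_def i x fun g => ?_, hl⟩
  have := h g
  rw [h0] at this
  linarith

theorem beta_le (S : Sys E I G P) (hS : S.Good) (i : I) {t : ℝ} {x : E → ℝ} {lam : ℝ}
    (hlam : 0 ≤ lam) (h : ∀ g, S.l i g (t, x) + lam ≤ t) (k : P) : S.φ k x + lam / 8 ≤ t := by
  obtain ⟨h1, h2, h3⟩ := S.beta_T hS i hlam h
  rcases h1.eq_or_lt with h0 | h0
  · obtain ⟨hx, hl⟩ := h3 h0.symm
    rw [hx, hl, ← h0]
    simp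
  · have := h2 h0 k
    linarith

theorem step_cover [Fintype E] [Fintype I] [Fintype G] [Nonempty G] [Fintype P] [Nonempty P]
    (S : Sys E I G P) (hS : S.Good) {κ ι : Type} {Q : κ → Set (W E)} (hQ : S.GadOK Q) {J : ℕ}
    {C : ι → Set (X E J)} (hC : S.Stage J C) :
    ∀ p, p ∈ S.Sh (J + 1) ↔ ∃ c, p ∈ S.stepFam Q C c := by
  intro p
  obtain ⟨k, hk⟩ := S.exists_ρ_max J (Fin.tail p.2)
  have hlam : 0 ≤ S.ρ J k (Fin.tail p.2) := by
    obtain ⟨k0, hk0⟩ := S.ρ_nonneg hS J (Fin.tail p.2)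
    exact hk0.trans (hk k0)
  constructor
  · intro hp
    have hw : ((p.1, p.2 0, S.ρ J k (Fin.tail p.2)) : W E) ∈ S.T := by
      refine ⟨hlam, fun a => ?_⟩
      have := hp (Fin.cons a k)
      rwa [ρ_cons] at this
    rcases hQ.cover _ hw with ⟨i, hi⟩ | ⟨q, hq⟩
    · obtain ⟨g, hg⟩ := S.exists_N i p.1 (p.2 0)
      have hmem : ((p.1 - S.l i g (p.1, p.2 0), Fin.tail p.2) : X E J) ∈ S.Sh J := by
        intro k'
        have h1 := hi.2 g
        have h2 := hk k'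
        simp only at h1 ⊢
        linarith
      obtain ⟨c, hc⟩ := (hC.cover _).1 hmem
      refine ⟨Sum.inl (i, g, c), fun g' => ?_, hc⟩
      rw [hg]
      exact S.le_N i g' p.1 (p.2 0)
    · exact ⟨Sum.inr (q, k), hk, hq⟩
  · rintro ⟨c, hc⟩ k''
    rw [ρ_succ]
    rcases c with ⟨i, g, c⟩ | ⟨q, k'⟩
    · obtain ⟨h1, h2⟩ := hc
      have h3 := (hC.cover _).2 ⟨c, h2⟩
      have h4 : ∀ g', S.l i g' (p.1, p.2 0) + S.ρ J k (Fin.tail p.2) ≤ p.1 := by
        intro g'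
        have h5 := h1 g'
        have h6 := h3 k
        simp only at h6
        linarith
      have h7 := S.beta_le hS i hlam h4 (k'' 0)
      have h8 := hk (Fin.tail k'')
      linarith
    · obtain ⟨h1, h2⟩ := hc
      have h3 := (hQ.sub q h2).2 (k'' 0)
      have h4 := h1 (Fin.tail k'')
      simp only at h3
      linarith

theorem step_outer [Fintype E] [Fintype I] [Fintype G] [Nonempty G] [Fintype P] [Nonempty P]
    (S : Sys E I G P) (hS : S.Good) {κ ι : Type} {Q : κ → Set (W E)} (hQ : S.GadOK Q) {J : ℕ}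
    {C : ι → Set (X E J)} (hC : S.Stage J C) :
    ∀ c k, IsExtreme ℝ (S.Sh (J + 1)) (S.stepFam Q C c ∩ {p | S.ρ (J + 1) k p.2 = p.1}) := by
  intro c k
  have hsub : S.stepFam Q C c ∩ {p | S.ρ (J + 1) k p.2 = p.1} ⊆ S.Sh (J + 1) := fun p hp =>
    (S.step_cover hS hQ hC p).2 ⟨c, hp.1⟩
  rcases c with ⟨i, g, c⟩ | ⟨q, k'⟩
  · refine isExtreme_of_subset_zero (LinearMap.fst ℝ ℝ (Fin (J + 1) → E → ℝ))
      (fun v hv => S.Sh_nonneg hS hv) (fun v hv h => S.Sh_zero hS hv h) hsub ?_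
    intro p hp
    refine S.Sh_zero hS (hsub hp) ?_
    obtain ⟨⟨h1, h2⟩, h0⟩ := hp
    obtain ⟨k1, hk1⟩ := S.exists_ρ_max J (Fin.tail p.2)
    have hlam : 0 ≤ S.ρ J k1 (Fin.tail p.2) := by
      obtain ⟨k0, hk0⟩ := S.ρ_nonneg hS J (Fin.tail p.2)
      exact hk0.trans (hk1 k0)
    have h3 := (hC.cover _).2 ⟨c, h2⟩
    have h4 : ∀ g', S.l i g' (p.1, p.2 0) + S.ρ J k1 (Fin.tail p.2) ≤ p.1 := by
      intro g'
      have h5 := h1 g'
      have h6 := h3 k1
      simp only at h6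
      linarith
    obtain ⟨h7, h8, -⟩ := S.beta_T hS i hlam h4
    rcases h7.eq_or_lt with h9 | h9
    · exact h9.symm
    · exfalso
      have h10 := h8 h9 (k 0)
      have h11 : S.ρ (J + 1) k p.2 = p.1 := h0
      rw [ρ_succ] at h11
      have h12 := hk1 (Fin.tail k)
      linarith
  · refine isExtreme_mk hsub fun p₁ hp₁ p₂ hp₂ a b ha hb hab hz => ?_
    set z : X E (J + 1) := a • p₁ + b • p₂ with hzdef
    obtain ⟨⟨hz1, hz2⟩, hz3⟩ := hz
    have hz3' : S.ρ (J + 1) k z.2 = z.1 := hz3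
    have hz11 : z.1 = a * p₁.1 + b * p₂.1 := by simp [hzdef]
    have hz22 : z.2 = a • p₁.2 + b • p₂.2 := by simp [hzdef]
    have hA : S.ρ (J + 1) (Fin.cons (k 0) k') z.2 = z.1 := by
      rw [ρ_cons]
      apply le_antisymm
      · exact (hQ.sub q hz2).2 (k 0)
      · have h1 := hz1 (Fin.tail k)
        rw [ρ_succ] at hz3'
        linarith
    have hcomb : ∀ K : Fin (J + 1) → P, S.ρ (J + 1) K z.2 = z.1 →
        S.ρ (J + 1) K p₁.2 = p₁.1 ∧ S.ρ (J + 1) K p₂.2 = p₂.1 := by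
      intro K hK
      rw [hz22, ρ_comb, hz11] at hK
      exact ⟨tight_le_left ha hb (hp₁ K) (hp₂ K) hK.ge, tight_le_right ha hb (hp₁ K) (hp₂ K) hK.ge⟩
    obtain ⟨hA1, hA2⟩ := hcomb _ hA
    obtain ⟨hk1, hk2⟩ := hcomb _ hz3'
    have key : ∀ p ∈ S.Sh (J + 1), S.ρ (J + 1) (Fin.cons (k 0) k') p.2 = p.1 →
        (∀ k'', S.ρ J k'' (Fin.tail p.2) ≤ S.ρ J k' (Fin.tail p.2)) ∧
          ((p.1, p.2 0, S.ρ J k' (Fin.tail p.2)) : W E) ∈ S.T := by
      intro p hp hpA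
      have hmax : ∀ k'', S.ρ J k'' (Fin.tail p.2) ≤ S.ρ J k' (Fin.tail p.2) := by
        intro k''
        have h1 := hp (Fin.cons (k 0) k'')
        rw [ρ_cons] at h1 hpA
        linarith
      refine ⟨hmax, ?_, fun a' => ?_⟩
      · obtain ⟨k0, hk0⟩ := S.ρ_nonneg hS J (Fin.tail p.2)
        exact hk0.trans (hmax k0)
      · have h1 := hp (Fin.cons a' k')
        rwa [ρ_cons] at h1
    obtain ⟨m1, w1⟩ := key p₁ hp₁ hA1
    obtain ⟨m2, w2⟩ := key p₂ hp₂ hA2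
    have htail : Fin.tail z.2 = a • Fin.tail p₁.2 + b • Fin.tail p₂.2 := by
      rw [hz22]; rfl
    have hw : (a • ((p₁.1, p₁.2 0, S.ρ J k' (Fin.tail p₁.2)) : W E) +
        b • ((p₂.1, p₂.2 0, S.ρ J k' (Fin.tail p₂.2)) : W E)) =
        (z.1, z.2 0, S.ρ J k' (Fin.tail z.2)) := by
      rw [htail, ρ_comb, hz11, hz22]
      rfl
    have hwz : ((z.1, z.2 0, S.ρ J k' (Fin.tail z.2)) : W E) ∈
        Q q ∩ {w | S.φ (k 0) w.2.1 + w.2.2 / 8 = w.1} := by
      refine ⟨hz2, ?_⟩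
      rw [ρ_cons] at hA
      exact hA
    rw [← hw] at hwz
    have hres := IsExtreme.left (hQ.outer q (k 0)) w1 w2 ha hb hab hwz
    exact ⟨⟨m1, hres.1⟩, hk1⟩

theorem stage_zero [Fintype E] [Fintype I] [Fintype G] [Nonempty G] [Fintype P] [Nonempty P]
    (S : Sys E I G P) (hS : S.Good) :
    S.Stage 0 (fun _ : Unit => {p : X E 0 | 0 ≤ p.1}) where
  poly := by
    intro _
    have := IsPolyCone.mk' (V := X E 0) (fun _ : Unit => LinearMap.fst ℝ ℝ (Fin 0 → E → ℝ))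
    convert this using 1
    ext p
    simp
  cover := by
    intro p
    simp only [Sh, mem_setOf_eq, ρ_zero, exists_const]
    constructor
    · intro h
      exact h Fin.elim0
    · intro h _
      exact h
  ext := by
    intro _ _
    exact isExtreme_mk inter_subset_left fun p hp q hq a b ha hb hab hz => ⟨hp, hp⟩
  outer := by
    intro _ k
    refine isExtreme_mk (fun p hp k' => ?_) fun p hp q hq a b ha hb hab hz => ?_
    · rw [ρ_zero]; exact hp.1
    · have h1 : 0 ≤ p.1 := S.Sh_nonneg hS hp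
      have h2 : 0 ≤ q.1 := S.Sh_nonneg hS hq
      have h3 : S.ρ 0 k (a • p + b • q).2 = (a • p + b • q).1 := hz.2
      rw [ρ_zero] at h3
      have h4 : a * p.1 + b * q.1 ≤ 0 := by
        have : (a • p + b • q).1 = a * p.1 + b * q.1 := by simp
        rw [this] at h3
        exact h3.ge
      have h5 := tight_left ha hb h1 h2 h4
      refine ⟨h1, ?_⟩
      simp only [mem_setOf_eq, ρ_zero]
      exact h5.symm
  lin := by
    intro _
    refine ⟨LinearMap.fst ℝ ℝ (Fin 0 → E → ℝ), fun p hp => ?_⟩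
    simp only [F, LinearMap.fst_apply]
    exact max_eq_left hp

end Sys

end DC
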