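import Pool.Agent.H18.DC.Basic

/-!
# MP_8e96ff_co, job DC-GOOD: the concrete system is good

`l i (e,b) (t,x) = ± wt R i e * (x e - sg i e * t)`, `φ (e,b) x = ± x e / (8 R)`, `R ≥ 2`, `n ≥ 2`
(so that `Edge n` is nonempty).
* `l_nonneg`, `φ_nonneg`: one of the two signs.
* `l_def`: `t = 0`: `± wt * x e ≤ 0` for both signs, so `x e = 0`.
* `φ_bound`: `B = 8 R`.
* `sep`: `i ≠ i'`: for the edge `e = {i,i'}` (`i < i'` or `i' < i`), `2 |x e - σ t| ≤ 3/2 t` and
  `2 |x e + σ t| ≤ 3/2 t` (`σ = ±1`), so `4 |t| ≤ 3 t`, so `t = 0`.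
* `small`: `wt * |x e - sg i e t| + lam ≤ 3/2 t`, `t > 0`, `lam ≥ 0`: `lam ≤ 3/2 t`; for
  `Inc i e` `|x e| ≤ 3/4 t + t = 7/4 t ≤ 7/8 R t`, otherwise (`sg = 0`) `|x e| ≤ 3/2 R t`; so
  `± x e / (8R) + lam/8 ≤ (3/16 + 3/16) t < t/2`.
-/

open Set

namespace DC

theorem nonempty_facet {n : ℕ} (hn : 2 ≤ n) : Nonempty (Edge n × Bool) :=
  ⟨(⟨(⟨0, by omega⟩, ⟨1, by omega⟩), by simp [Fin.lt_def]⟩, true)⟩

/-- Among the two signs one gives a nonnegative number, and its value is the absolute value. -/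
theorem exists_pm_abs (c : ℝ) : ∃ b : Bool, pm b * c = |c| := by
  rcases le_total 0 c with h | h
  · exact ⟨true, by simp [pm, abs_of_nonneg h]⟩
  · exact ⟨false, by simp [pm, abs_of_nonpos h]⟩

theorem pm_mul_le_abs (b : Bool) (c : ℝ) : pm b * c ≤ |c| := by
  cases b
  · simpa [pm] using neg_le_abs c
  · simpa [pm] using le_abs_self c

theorem wt_pos {n : ℕ} {R : ℝ} (hR : 2 ≤ R) (i : Fin n) (e : Edge n) : 0 < wt R i e := by
  unfold wt
  split_ifs
  · norm_num
  · positivity

/-- All the facet forms of body `i` are at most `c` iff the absolute values are. -/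
theorem abs_le_of_l_le {n : ℕ} {R : ℝ} {i : Fin n} {t : ℝ} {x : Edge n → ℝ} {c : ℝ}
    (h : ∀ g, (sysR n R).l i g (t, x) ≤ c) (e : Edge n) :
    wt R i e * |x e - sg i e * t| ≤ c := by
  obtain ⟨b, hb⟩ := exists_pm_abs (x e - sg i e * t)
  have h1 := h (e, b)
  simp only [sysR_l] at h1
  rw [← hb]
  linarith [mul_comm (pm b) (wt R i e), mul_assoc (wt R i e) (pm b) (x e - sg i e * t),
    mul_assoc (pm b) (wt R i e) (x e - sg i e * t),
    mul_left_comm (pm b) (wt R i e) (x e - sg i e * t)]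

theorem sep_aux {n : ℕ} {R : ℝ} {i i' : Fin n} (hlt : i < i') {t : ℝ}
    {x : Edge n → ℝ} (h : ∀ g, (sysR n R).l i g (t, x) ≤ 3 / 2 * t)
    (h' : ∀ g, (sysR n R).l i' g (t, x) ≤ 3 / 2 * t) : t = 0 := by
  set e : Edge n := ⟨(i, i'), hlt⟩ with he
  have h1 := abs_le_of_l_le h e
  have h2 := abs_le_of_l_le h' e
  have hs1 : sg i e = 1 := by simp [sg, he]
  have hs2 : sg i' e = -1 := by simp [sg, he, hlt.ne]
  have hw1 : wt R i e = 2 := by simp [wt, Inc, he]
  have hw2 : wt R i' e = 2 := by simp [wt, Inc, he]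
  rw [hs1, hw1] at h1
  rw [hs2, hw2] at h2
  have a1 := abs_le.1 (show |x e - 1 * t| ≤ 3 / 4 * t by linarith)
  have a2 := abs_le.1 (show |x e - -1 * t| ≤ 3 / 4 * t by linarith)
  linarith [a1.1, a1.2, a2.1, a2.2]

theorem sysR_good {n : ℕ} (hn : 2 ≤ n) {R : ℝ} (hR : 2 ≤ R) : (sysR n R).Good := by
  have hR0 : 0 < R := by linarith
  obtain ⟨⟨e0, -⟩⟩ := nonempty_facet hn
  refine ⟨?_, ?_, ?_, ?_, ?_, ?_⟩
  · intro i t x
    obtain ⟨b, hb⟩ := exists_pm_abs (x e0 - sg i e0 * t)
    refine ⟨(e0, b), ?_⟩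
    simp only [sysR_l]
    rw [mul_right_comm, hb]
    exact mul_nonneg (abs_nonneg _) (wt_pos hR i e0).le
  · intro i x h
    funext e
    have h1 := abs_le_of_l_le h e
    have h2 : |x e - sg i e * 0| ≤ 0 := by
      by_contra hcon
      push Not at hcon
      have := mul_pos (wt_pos hR i e) hcon
      linarith
    simpa using h2
  · intro x
    obtain ⟨b, hb⟩ := exists_pm_abs (x e0)
    refine ⟨(e0, b), ?_⟩
    simp only [sysR_φ]
    rw [div_mul_eq_mul_div, hb]
    positivity
  · refine ⟨8 * R, by positivity, fun x e => ?_⟩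
    obtain ⟨b, hb⟩ := exists_pm_abs (x e)
    refine ⟨(e, b), ?_⟩
    simp only [sysR_φ]
    rw [div_mul_eq_mul_div, hb, mul_div_cancel₀ _ (by positivity)]
  · intro i i' hne t x h h'
    rcases lt_or_gt_of_ne hne with hlt | hlt
    · exact sep_aux hlt h h'
    · exact sep_aux hlt h' h
  · intro i t x lam hlam h ht k
    have h1 : ∀ g, (sysR n R).l i g (t, x) ≤ 3 / 2 * t - lam := fun g => by linarith [h g]
    obtain ⟨e, b⟩ := k
    have h2 := abs_le_of_l_le h1 e
    have h3 : 0 ≤ wt R i e * |x e - sg i e * t| := mul_nonneg (wt_pos hR i e).le (abs_nonneg _)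
    have hlam' : lam ≤ 3 / 2 * t := by linarith
    have hx : |x e| ≤ 3 / 2 * R * t := by
      by_cases hi : Inc i e
      · have hw : wt R i e = 2 := by simp [wt, hi]
        rw [hw] at h2
        have hsg : |sg i e| ≤ 1 := by
          unfold sg
          split_ifs <;> simp
        have h4 : |x e| ≤ |x e - sg i e * t| + |sg i e * t| := by
          have := abs_add_le (x e - sg i e * t) (sg i e * t)
          simpa using this
        have h5 : |sg i e * t| ≤ t := by
          rw [abs_mul, abs_of_pos ht]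
          nlinarith [abs_nonneg (sg i e)]
        have h6 : |x e| ≤ 7 / 4 * t := by linarith
        nlinarith
      · have hw : wt R i e = 1 / R := by simp [wt, hi]
        have hsg : sg i e = 0 := by
          unfold Inc at hi
          push Not at hi
          simp [sg, hi.1, hi.2]
        rw [hw, hsg, zero_mul, sub_zero, one_div, inv_mul_le_iff₀ hR0] at h2
        nlinarith
    have h7 : pm b * x e ≤ 3 / 2 * R * t := (pm_mul_le_abs b (x e)).trans hx
    have h8 : pm b * x e / (8 * R) ≤ 3 / 16 * t := by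
      rw [div_le_iff₀ (by positivity)]
      nlinarith
    simp only [sysR_φ]
    rw [div_mul_eq_mul_div]
    linarith

/-- the number of edges of the complete graph on `2 m + 1` vertices -/
theorem card_edge (m : ℕ) : Fintype.card (Edge (2 * m + 1)) = m * (2 * m + 1) := by
  have h1 : ∀ n : ℕ, Fintype.card (Edge n) = ∑ i : Fin n, (n - 1 - (i : ℕ)) := by
    intro n
    rw [Fintype.card_subtype, ← Finset.univ_product_univ, Finset.card_filter,
      Finset.sum_product]
    refine Finset.sum_congr rfl fun i _ => ?_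
    rw [← Finset.card_filter]
    have : (Finset.univ.filter fun j : Fin n => i < j) = Finset.Ioi i := by
      ext j
      simp
    simp only [this, Fin.card_Ioi]
  rw [h1]
  have h2 : ∀ n : ℕ, ∑ i : Fin n, (n - 1 - (i : ℕ)) = n.choose 2 := by
    intro n
    rw [Fin.sum_univ_eq_sum_range (fun i => n - 1 - i), Finset.sum_range_reflect (fun i => i),
      Finset.sum_range_id, Nat.choose_two_right]
  rw [h2, Nat.choose_two_right]
  have : (2 * m + 1) * (2 * m + 1 - 1) = m * (2 * m + 1) * 2 := by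
    simp only [Nat.add_sub_cancel]
    ring
  rw [this, Nat.mul_div_cancel _ (by norm_num)]

end DC
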