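import Pool.Agent.H18.DC.Gadget
import Pool.Agent.H18.DC.StepExt
import Pool.Agent.H18.DC.StepRest
import Pool.Agent.H18.DC.StepLin
import Pool.Agent.H18.DC.SysGood

/-!
# MP_8e96ff_co, job DC-FAN: all stages, and the complete fan

* `stage_all`: induction on `J`, from `stage_zero` and `stepFam` (`step_poly`, `step_cover`,
  `step_ext`, `step_outer`, `step_lin`).  Card: `card ι_{J+1} = card I * card G * card ι_J +
  κ * (card P)^J`, and `(card P)^J ≤ (card I * card G)^(J+1)` as `card P = card G`,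
  `card I, card G ≥ 1`.
* `fan_all`: for a stage `C` of level `J` add the cells `O_k = {p | ρ k' p.2 ≤ ρ k p.2 ∀ k',
  p.1 ≤ ρ k p.2}`, `k : Fin J → P`.  They are polyhedral cones, `F J = 0` there (`F_eq_zero`), and
  with `C` they cover `X E J`.  Extremeness (`p₁, p₂` in the first cell, `p = a p₁ + b p₂` in both):
  - `O_k, O_k'`: `ρ k' = ρ k` at `p`, so at `p₁`.
  - `C c ∩ O_k` extreme in `C c`: at `p`, `t ≤ ρ k` and `p ∈ Sh J`, so `t = ρ k`; since `ρ k ≤ t` on
    `C c`, `t = ρ k` at `p₁`, so `p₁ ∈ O_k` (`p₁ ∈ Sh J` gives `ρ k' ≤ t = ρ k`).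
  - extreme in `O_k`: at `p`, `t = ρ k` again; `t ≤ ρ k` on `O_k`, so `t = ρ k ≥ ρ k'` at `p₁, p₂`,
    which are therefore in `Sh J`; use `hC.outer c k`.
-/

open Set

namespace DC

namespace Sys

variable {E I G P : Type}

theorem stage_all [Fintype E] [Fintype I] [Fintype G] [Nonempty G] [Fintype P] [Nonempty P]
    [Nonempty I] (S : Sys E I G P) (hS : S.Good) (hGP : Fintype.card P = Fintype.card G)
    {κ : Type} [Fintype κ] {Q : κ → Set (W E)} (hQ : S.GadOK Q) (J : ℕ) :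
    ∃ (ι : Type) (_ : Fintype ι) (C : ι → Set (X E J)), S.Stage J C ∧
      Fintype.card ι ≤ (Fintype.card I * Fintype.card G) ^ J * (1 + J * Fintype.card κ) := by
  classical
  induction J with
  | zero =>
    refine ⟨Unit, inferInstance, fun _ => {p : X E 0 | 0 ≤ p.1}, S.stage_zero hS, ?_⟩
    simp
  | succ J ih =>
    obtain ⟨ι, hι, C, hC, hcard⟩ := ih
    refine ⟨(I × G × ι) ⊕ (κ × (Fin J → P)), inferInstance, S.stepFam Q C, ?_, ?_⟩
    · exact ⟨S.step_poly hQ hC, S.step_cover hS hQ hC, S.step_ext hS hQ hC,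
        S.step_outer hS hQ hC, S.step_lin hS hQ hC⟩
    · have h1 : 1 ≤ Fintype.card I := Fintype.card_pos
      have h2 : 1 ≤ Fintype.card G := Fintype.card_pos
      rw [Fintype.card_sum, Fintype.card_prod, Fintype.card_prod, Fintype.card_prod,
        Fintype.card_fun, Fintype.card_fin, hGP]
      have h3 : Fintype.card G ^ J ≤ (Fintype.card I * Fintype.card G) ^ (J + 1) := by
        calc Fintype.card G ^ J ≤ (Fintype.card I * Fintype.card G) ^ J :=
              Nat.pow_le_pow_left (Nat.le_mul_of_pos_left _ h1) J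
          _ ≤ (Fintype.card I * Fintype.card G) ^ (J + 1) :=
              Nat.pow_le_pow_right (Nat.mul_pos h1 h2) (Nat.le_succ J)
      calc Fintype.card I * (Fintype.card G * Fintype.card ι) +
            Fintype.card κ * Fintype.card G ^ J
          = (Fintype.card I * Fintype.card G) * Fintype.card ι +
            Fintype.card κ * Fintype.card G ^ J := by ring
        _ ≤ (Fintype.card I * Fintype.card G) *
              ((Fintype.card I * Fintype.card G) ^ J * (1 + J * Fintype.card κ)) +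
            Fintype.card κ * (Fintype.card I * Fintype.card G) ^ (J + 1) :=
              Nat.add_le_add (Nat.mul_le_mul_left _ hcard) (Nat.mul_le_mul_left _ h3)
        _ = (Fintype.card I * Fintype.card G) ^ (J + 1) *
              (1 + (J + 1) * Fintype.card κ) := by ring

/-- The outer cells of the fan. -/
def outCell (S : Sys E I G P) (J : ℕ) (k : Fin J → P) : Set (X E J) :=
  {p | (∀ k', S.ρ J k' p.2 ≤ S.ρ J k p.2) ∧ p.1 ≤ S.ρ J k p.2}

theorem outCell_poly [Fintype P] (S : Sys E I G P) (J : ℕ) (k : Fin J → P) :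
    IsPolyCone (S.outCell J k) := by
  have h1 : IsPolyCone {p : X E J | ∀ k' : Fin J → P,
      ((S.ρL J k').comp (LinearMap.snd ℝ ℝ (Fin J → E → ℝ))) p ≤
        ((S.ρL J k).comp (LinearMap.snd ℝ ℝ (Fin J → E → ℝ))) p} := by
    classical
    exact isPolyCone_forall_le _ _
  have h2 : IsPolyCone {p : X E J | ∀ _ : Unit,
      (LinearMap.fst ℝ ℝ (Fin J → E → ℝ)) p ≤
        ((S.ρL J k).comp (LinearMap.snd ℝ ℝ (Fin J → E → ℝ))) p} :=
    isPolyCone_forall_le (κ := Unit) _ _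
  have h3 : S.outCell J k = {p : X E J | ∀ k' : Fin J → P,
      ((S.ρL J k').comp (LinearMap.snd ℝ ℝ (Fin J → E → ℝ))) p ≤
        ((S.ρL J k).comp (LinearMap.snd ℝ ℝ (Fin J → E → ℝ))) p} ∩
      {p : X E J | ∀ _ : Unit, (LinearMap.fst ℝ ℝ (Fin J → E → ℝ)) p ≤
        ((S.ρL J k).comp (LinearMap.snd ℝ ℝ (Fin J → E → ℝ))) p} := by
    ext p
    simp [outCell, ρL_apply]
  rw [h3]
  exact h1.inter h2

theorem fan_all [Fintype E] [Fintype I] [Fintype G] [Nonempty G] [Fintype P] [Nonempty P]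
    (S : Sys E I G P) (hS : S.Good) {J : ℕ} {ι : Type} {C : ι → Set (X E J)}
    (hC : S.Stage J C) :
    ∃ D : ι ⊕ (Fin J → P) → Set (X E J), (∀ c, IsPolyCone (D c)) ∧ (∀ p, ∃ c, p ∈ D c) ∧
      (∀ c c', IsExtreme ℝ (D c) (D c ∩ D c')) ∧
      ∀ c, ∃ g : X E J →ₗ[ℝ] ℝ, ∀ p ∈ D c, S.F J p.1 p.2 = g p := by
  have hCS : ∀ c p, p ∈ C c → ∀ k, S.ρ J k p.2 ≤ p.1 := fun c p hp =>
    (hC.cover p).2 ⟨c, hp⟩
  have comb1 : ∀ (a b : ℝ) (p q : X E J), (a • p + b • q).1 = a * p.1 + b * q.1 := by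
    intro a b p q; simp
  have comb2 : ∀ (a b : ℝ) (p q : X E J) (k : Fin J → P), S.ρ J k (a • p + b • q).2 =
      a * S.ρ J k p.2 + b * S.ρ J k q.2 := by
    intro a b p q k
    rw [← S.ρ_comb]; rfl
  refine ⟨Sum.elim C (S.outCell J), ?_, ?_, ?_, ?_⟩
  · rintro (c | k)
    · exact hC.poly c
    · exact S.outCell_poly J k
  · intro p
    by_cases hp : p ∈ S.Sh J
    · obtain ⟨c, hc⟩ := (hC.cover p).1 hp
      exact ⟨Sum.inl c, hc⟩
    · obtain ⟨k, hk⟩ := S.exists_ρ_max J p.2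
      refine ⟨Sum.inr k, hk, ?_⟩
      by_contra hlt
      push Not at hlt
      exact hp fun k' => (hk k').trans hlt.le
  · rintro (c | k) (c' | k')
    · exact hC.ext c c'
    · refine isExtreme_mk inter_subset_left ?_
      intro p hp q hq a b ha hb hab hz
      refine ⟨hp, ?_⟩
      have h1 : (a • p + b • q).1 ≤ S.ρ J k' (a • p + b • q).2 := hz.2.2
      rw [comb1, comb2] at h1
      have h2 : S.ρ J k' p.2 = p.1 :=
        tight_le_left ha hb (hCS c p hp k') (hCS c q hq k') h1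
      exact ⟨fun k'' => h2 ▸ hCS c p hp k'', h2.ge⟩
    · refine isExtreme_mk inter_subset_left ?_
      intro p hp q hq a b ha hb hab hz
      refine ⟨hp, ?_⟩
      have h1 : S.ρ J k (a • p + b • q).2 ≤ (a • p + b • q).1 := hCS c' _ hz.2 k
      have h1' := h1
      rw [comb1, comb2] at h1
      have h2 : p.1 = S.ρ J k p.2 := tight_le_left ha hb hp.2 hq.2 h1
      have h3 : q.1 = S.ρ J k q.2 := tight_le_right ha hb hp.2 hq.2 h1
      have hpS : p ∈ S.Sh J := fun k'' => h2 ▸ hp.1 k''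
      have hqS : q ∈ S.Sh J := fun k'' => h3 ▸ hq.1 k''
      have hz2 : a • p + b • q ∈ C c' ∩ {p | S.ρ J k p.2 = p.1} := by
        refine ⟨hz.2, ?_⟩
        show S.ρ J k (a • p + b • q).2 = (a • p + b • q).1
        rw [comb1, comb2, ← h2, ← h3]
      exact (IsExtreme.left (hC.outer c' k) hpS hqS ha hb hab hz2).1
    · refine isExtreme_mk inter_subset_left ?_
      intro p hp q hq a b ha hb hab hz
      refine ⟨hp, ?_⟩
      have h1 : S.ρ J k (a • p + b • q).2 ≤ S.ρ J k' (a • p + b • q).2 := hz.2.1 k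
      rw [comb2, comb2] at h1
      have h2 : S.ρ J k' p.2 = S.ρ J k p.2 :=
        tight_le_left ha hb (hp.1 k') (hq.1 k') h1
      exact ⟨fun k'' => h2 ▸ hp.1 k'', h2 ▸ hp.2⟩
  · rintro (c | k)
    · exact hC.lin c
    · refine ⟨0, fun p hp => ?_⟩
      rw [S.F_eq_zero hS J p.1 p.2 ⟨k, hp.2⟩]
      rfl

end Sys

/-- The number of gadget cones for `n = 2 m + 1` bodies (independent of `R`). -/
def gadBound (m : ℕ) : ℕ :=
  2 ^ (1 + (2 * m + 1) * (2 * (m * (2 * m + 1)) * (2 * (m * (2 * m + 1)))) +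
    (2 * m + 1) * (2 * (m * (2 * m + 1))) +
    2 * (m * (2 * m + 1)) * (2 * (m * (2 * m + 1))) + 2 * (m * (2 * m + 1))) *
    (1 + (2 * m + 1) * (2 * (m * (2 * m + 1))) + 2 * (m * (2 * m + 1)))

/-- The complete fan for the concrete system. -/
theorem fan_sysR {m : ℕ} (hm : 1 ≤ m) {R : ℝ} (hR : 2 ≤ R) (J : ℕ)
    [Nonempty (Edge (2 * m + 1) × Bool)] :
    ∃ (ι : Type) (_ : Fintype ι) (D : ι → Set (X (Edge (2 * m + 1)) J)),
      (∀ c, IsPolyCone (D c)) ∧ (∀ p, ∃ c, p ∈ D c) ∧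
      (∀ c c', IsExtreme ℝ (D c) (D c ∩ D c')) ∧
      (∀ c, ∃ g : X (Edge (2 * m + 1)) J →ₗ[ℝ] ℝ, ∀ p ∈ D c,
        (sysR (2 * m + 1) R).F J p.1 p.2 = g p) ∧
      Fintype.card ι ≤ ((2 * m + 1) * (2 * (m * (2 * m + 1)))) ^ J * (1 + J * gadBound m) +
        (2 * (m * (2 * m + 1))) ^ J := by
  classical
  have hS : (sysR (2 * m + 1) R).Good := sysR_good (by omega) hR
  have hG : Fintype.card (Edge (2 * m + 1) × Bool) = 2 * (m * (2 * m + 1)) := by
    rw [Fintype.card_prod, card_edge, Fintype.card_bool, mul_comm]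
  obtain ⟨κ, hκ, Q, hQ, hcard⟩ := Sys.gadget_exists (sysR (2 * m + 1) R) hS
  obtain ⟨ι, hι, C, hC, hcardC⟩ :=
    Sys.stage_all (sysR (2 * m + 1) R) hS rfl hQ J
  obtain ⟨D, h1, h2, h3, h4⟩ := Sys.fan_all (sysR (2 * m + 1) R) hS hC
  refine ⟨ι ⊕ (Fin J → Edge (2 * m + 1) × Bool), inferInstance, D, h1, h2, h3, h4, ?_⟩
  have hk : Fintype.card κ ≤ gadBound m := by
    refine hcard.trans (le_of_eq ?_)
    rw [hG, Fintype.card_fin, gadBound]
  rw [Fintype.card_sum, Fintype.card_fun, Fintype.card_fin, hG]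
  rw [hG, Fintype.card_fin] at hcardC
  refine Nat.add_le_add_right (hcardC.trans ?_) _
  exact Nat.mul_le_mul_left _ (Nat.add_le_add_left (Nat.mul_le_mul_left _ hk) _)

end DC
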