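import Pool.Agent.H18.DC.Complex

/-!
# MP_8e96ff_co: a convex CPWL function has a number of pieces
-/

open Set

namespace DC

/-- A convex function that agrees with an affine function on a set with nonempty interior lies
above it. -/
theorem affine_le_on {n : ℕ} {h : (Fin n → ℝ) → ℝ} (hconv : ConvexOn ℝ univ h)
    (B : (Fin n → ℝ) →ᵃ[ℝ] ℝ) {P : Set (Fin n → ℝ)} (hP : (interior P).Nonempty)
    (hB : ∀ x ∈ P, h x = B x) (x : Fin n → ℝ) : B x ≤ h x := by
  obtain ⟨u, hu⟩ := hP
  -- a small δ with u + δ (u - x) ∈ P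
  have hcont : Continuous fun δ : ℝ => u + δ • (u - x) := by fun_prop
  have hnear : ∀ᶠ δ in nhds (0 : ℝ), u + δ • (u - x) ∈ interior P := by
    have h0 : u + (0 : ℝ) • (u - x) ∈ interior P := by simpa using hu
    exact hcont.continuousAt.eventually (isOpen_interior.mem_nhds h0)
  obtain ⟨ε, hε, hball⟩ := Metric.eventually_nhds_iff.1 hnear
  set δ := ε / 2 with hδ
  have hδpos : 0 < δ := by positivity
  have hmem : u + δ • (u - x) ∈ interior P := by
    apply hball
    rw [Real.dist_eq, sub_zero, abs_of_pos hδpos]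
    linarith
  set u' := u + δ • (u - x) with hu'
  have h1 : h u = B u := hB u (interior_subset hu)
  have h2 : h u' = B u' := hB u' (interior_subset hmem)
  have hpos : 0 < 1 + δ := by linarith
  have hcomb : u = (δ / (1 + δ)) • x + (1 / (1 + δ)) • u' := by
    funext i
    simp only [hu', Pi.add_apply, Pi.smul_apply, Pi.sub_apply, smul_eq_mul]
    field_simp
    ring
  have h3 := hconv.2 (mem_univ x) (mem_univ u') (show 0 ≤ δ / (1 + δ) by positivity)
    (show 0 ≤ 1 / (1 + δ) by positivity) (by field_simp; ring)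
  rw [← hcomb, h1, h2, smul_eq_mul, smul_eq_mul] at h3
  have h4 : B u = (δ / (1 + δ)) * B x + (1 / (1 + δ)) * B u' := by
    conv_lhs => rw [hcomb]
    have := Convex.combo_affine_apply (f := B) (x := x) (y := u') (a := δ / (1 + δ))
      (b := 1 / (1 + δ)) (by field_simp; ring)
    simpa using this
  rw [h4] at h3
  have h5 : (δ / (1 + δ)) * B x ≤ (δ / (1 + δ)) * h x := by linarith
  exact le_of_mul_le_mul_left h5 (by positivity)

theorem convex_hasPieces {n : ℕ} {h : (Fin n → ℝ) → ℝ} (hcp : IsCPWL h)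
    (hconv : ConvexOn ℝ univ h) : ∃ N, HasPieces h N := by
  classical
  obtain ⟨hcont, S, hS⟩ := hcp
  let S' : Finset ((Fin n → ℝ) →ᵃ[ℝ] ℝ) := S.filter fun a => ∀ x, a x ≤ h x
  have hcover : ∀ x, ∃ a ∈ S', a x = h x := by
    intro x
    let 𝒞 : Set (Set (Fin n → ℝ)) := (fun a : (Fin n → ℝ) →ᵃ[ℝ] ℝ => {x | h x = a x}) '' (S : Set _)
    have hfin : 𝒞.Finite := S.finite_toSet.image _
    have hcl : ∀ P ∈ 𝒞, IsClosed P := by
      rintro P ⟨a, -, rfl⟩
      exact isClosed_eq hcont a.continuous_of_finiteDimensional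
    have hcov : ⋃₀ 𝒞 = univ := by
      refine eq_univ_of_forall fun y => ?_
      obtain ⟨a, ha, hay⟩ := hS y
      exact ⟨_, ⟨a, ha, rfl⟩, hay⟩
    obtain ⟨P, ⟨a, ha, rfl⟩, hPi, hxP⟩ := cover_interior hfin hcl hcov x
    refine ⟨a, ?_, hxP.symm⟩
    rw [Finset.mem_filter]
    exact ⟨ha, fun y => affine_le_on hconv a hPi (fun z hz => hz) y⟩
  have hle : ∀ a ∈ S', ∀ x, a x ≤ h x := fun a ha => (Finset.mem_filter.1 ha).2
  let C : S' → Set (Fin n → ℝ) := fun a => {x | ∀ b : S', (b : (Fin n → ℝ) →ᵃ[ℝ] ℝ) x ≤ a.1 x}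
  have hCh : ∀ (a : S') x, x ∈ C a ↔ h x = a.1 x := by
    intro a x
    constructor
    · intro hx
      obtain ⟨b, hb, hbx⟩ := hcover x
      refine le_antisymm ?_ (hle a.1 a.2 x)
      rw [← hbx]
      exact hx ⟨b, hb⟩
    · intro hx b
      rw [← hx]
      exact hle b.1 b.2 x
  have haff : ∀ (a : (Fin n → ℝ) →ᵃ[ℝ] ℝ) (x : Fin n → ℝ),
      a x = ∑ i, a.linear (Pi.single i 1) * x i + a 0 := by
    intro a x
    have h1 : a x = a.linear x + a 0 := by
      have := a.map_vadd 0 x
      simpa using this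
    rw [h1]
    congr 1
    conv_lhs => rw [LinearMap.pi_apply_eq_sum_univ a.linear x]
    refine Finset.sum_congr rfl fun i _ => ?_
    have : (fun j => if i = j then (1 : ℝ) else 0) = Pi.single i 1 := by
      funext j
      by_cases h : i = j
      · subst h; simp
      · simp [h, Ne.symm h]
    rw [this, smul_eq_mul, mul_comm]
  obtain ⟨K, hK⟩ := exists_complex C (fun a => by
      refine ⟨Finset.univ.image fun b : S' => ((fun i => b.1.linear (Pi.single i 1) -
        a.1.linear (Pi.single i 1)), a.1 0 - b.1 0), ?_⟩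
      ext x
      simp only [C, mem_ofPred_eq, Finset.mem_image, Finset.mem_univ, true_and,
        forall_exists_index, forall_apply_eq_imp_iff]
      refine forall_congr' fun b => ?_
      rw [haff b.1 x, haff a.1 x]
      simp only [sub_mul, Finset.sum_sub_distrib]
      constructor <;> intro h <;> linarith)
    (fun x => by
      obtain ⟨a, ha, hax⟩ := hcover x
      exact ⟨⟨a, ha⟩, (hCh _ x).2 hax.symm⟩)
    (fun a b => by
      refine isExtreme_mk inter_subset_left fun p hp q hq s t hs ht hst hz => ?_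
      refine ⟨hp, ?_⟩
      have e1 := (hCh a _).1 hz.1
      have e2 := (hCh b _).1 hz.2
      have e3 := Convex.combo_affine_apply (f := a.1) (x := p) (y := q) hst
      have e4 := Convex.combo_affine_apply (f := b.1) (x := p) (y := q) hst
      simp only [smul_eq_mul] at e3 e4
      have h5 : b.1 p ≤ a.1 p := hp b
      have h6 : b.1 q ≤ a.1 q := hq b
      have h7 := tight_le_left hs ht h5 h6 (by rw [← e3, ← e4, ← e1, ← e2])
      rw [hCh, h7]
      exact (hCh a p).1 hp)
  have hcompat : Compatible h K := by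
    intro P hP
    obtain ⟨a, rfl⟩ := hK hP
    exact ⟨a.1, fun x hx => (hCh a x).1 hx⟩
  have hset : ({M : ℕ | ∃ K : CompleteComplex n, Compatible h K ∧ K.maxCells.ncard = M}).Nonempty :=
    ⟨_, K, hcompat, rfl⟩
  exact ⟨_, Nat.sInf_mem hset, fun M hM => Nat.sInf_le hM⟩

end DC
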