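import Pool.Agent.H18.DC.Complex

/-!
# MP_8e96ff_co, job DC-MAX: a convex function compatible with a complete complex is the maximum
of its affine pieces

PROOF.  Index set `β = K.maxCells` (finite, since `K.cells` is).  For a maximal cell `P` let
`B P` be an affine function with `h = B P` on `P`.  (1) `B P ≤ h` everywhere: let `u ∈ interior P`,
`x` arbitrary, `u' = u + δ (u - x) ∈ P` for small `δ > 0`; `u = (δ x + u')/(1+δ)`, so by convexity
`(1+δ) h u ≤ δ h x + h u'`, and `h u = B P u`, `h u' = B P u' = B P u + δ (B P u - B P x)`; hence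
`B P x ≤ h x`.  (2) every `x` lies in a maximal cell: `cover_interior` (file `Complex`), the
cells being closed (`IsPolyhedron.isClosed`).
-/

open Set

namespace DC

/-- an affine piece of a convex function with nonempty interior domain is a minorant -/
theorem affine_le_of_interior {n : ℕ} (h : (Fin n → ℝ) → ℝ) (hconv : ConvexOn ℝ univ h)
    {P : Set (Fin n → ℝ)} (hP : (interior P).Nonempty) (B : (Fin n → ℝ) →ᵃ[ℝ] ℝ)
    (hB : ∀ x ∈ P, h x = B x) (x : Fin n → ℝ) : B x ≤ h x := by
  obtain ⟨u, hu⟩ := hP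
  have hcont : Continuous fun δ : ℝ => u + δ • (u - x) := by fun_prop
  have h0 : (fun δ : ℝ => u + δ • (u - x)) 0 ∈ interior P := by simpa using hu
  have hev : ∀ᶠ δ in nhds (0 : ℝ), u + δ • (u - x) ∈ interior P :=
    (isOpen_interior.preimage hcont).mem_nhds h0
  obtain ⟨δ, hδ, hδ0⟩ := ((hev.filter_mono nhdsWithin_le_nhds).and
    (self_mem_nhdsWithin : Ioi (0 : ℝ) ∈ nhdsWithin 0 (Ioi 0))).exists
  have hδ0 : 0 < δ := hδ0
  set u' := u + δ • (u - x) with hu'
  set a : ℝ := 1 / (1 + δ) with ha
  set b : ℝ := δ / (1 + δ) with hb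
  have ha0 : 0 < a := by positivity
  have hb0 : 0 < b := by positivity
  have hab : a + b = 1 := by rw [ha, hb]; field_simp
  have hcomb : a • u' + b • x = u := by
    funext i
    simp only [hu', ha, hb, Pi.add_apply, Pi.smul_apply, Pi.sub_apply, smul_eq_mul]
    field_simp
    ring
  have h1 := hconv.2 (mem_univ u') (mem_univ x) ha0.le hb0.le hab
  have h2 : B (a • u' + b • x) = a • B u' + b • B x := Convex.combo_affine_apply hab
  rw [hcomb] at h1 h2
  rw [hB u (interior_subset hu), hB u' (interior_subset hδ)] at h1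
  simp only [smul_eq_mul] at h1 h2
  have h3 : b * B x ≤ b * h x := by linarith
  exact le_of_mul_le_mul_left h3 hb0

theorem exists_max_affine {n : ℕ} (h : (Fin n → ℝ) → ℝ) (hconv : ConvexOn ℝ univ h)
    (K : CompleteComplex n) (hK : Compatible h K) :
    ∃ (β : Type) (_ : Fintype β) (B : β → (Fin n → ℝ) →ᵃ[ℝ] ℝ),
      Fintype.card β ≤ K.maxCells.ncard ∧ (∀ b x, B b x ≤ h x) ∧ ∀ x, ∃ b, B b x = h x := by
  classical
  have hfin : K.maxCells.Finite := K.finite.subset fun P hP => hP.1
  have hft : Fintype K.maxCells := hfin.fintype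
  choose B hB using fun P : K.maxCells => hK P.1 P.2
  refine ⟨K.maxCells, hft, B, ?_, ?_, ?_⟩
  · rw [← Nat.card_eq_fintype_card, Nat.card_coe_set_eq]
  · intro P x
    exact affine_le_of_interior h hconv P.2.2 (B P) (hB P) x
  · intro x
    obtain ⟨P, hP, hi, hx⟩ := cover_interior K.finite
      (fun P hP => (K.polyhedron P hP).isClosed) K.union x
    exact ⟨⟨P, hP, hi⟩, (hB ⟨P, hP, hi⟩ x hx).symm⟩

end DC
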