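import Pool.Agent.H18.DC.Basic

/-!
# MP_8e96ff_co, job DC-CONC: strict midpoint concavity of `F` at core points

`S = sysR n R`, `N i t x = max_g l i g (t,x) = max_e wt R i e * |x e - sg i e * t|`
(`wt = 2` if `Inc i e`, else `1/R`; `sg i e = ±1` if `Inc i e`, else `0`).
A core configuration: bodies `bd j : Fin n` and `w : Fin J → Edge n → ℝ` with `w j e = sg (bd j) e`
if `Inc (bd j) e`, and `|w j e| ≤ Pb` otherwise.

FACTS.  (0) `N ≥ 0`; (1) `0 ≤ F J t y ≤ max t 0`, in particular `F J t y = 0` for `t ≤ 0`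
(induction; for `t > 0` and `i ≠ i'`, with `e = {i,i'}`: `sg i' e = - sg i e`, so
`(t - N i) + (t - N i') ≤ 2 t - 2|x e - σ t| - 2 |x e + σ t| ≤ 2t - 4 t < 0`, so at most one of the
`t - N i t x` is positive and at most one summand is nonzero).
(2) `lower`: if `t ≤ 1` then `1 - 3^J * ((1 - t) + Pb/R) ≤ F J t w` for a core configuration `w`.
Induction: `F (J+1) t w ≥ F J (t - N) (tail w)` with `N = N (bd 0) t (w 0) ≤ 2(1 - t) + Pb/R`
(all summands are `≥ 0`).
(3) `upper`: let `u = w ± 1/4` in the single coordinate `(j0,e0)` with `Inc (bd j0) e0`; if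
`t ≤ 1` then `F J t u ≤ 1/2 + 3^J * ((1 - t) + Pb/R)`.  Induction: if `t ≤ 0`, `F = 0`.  Let
`t > 0`, `i = bd 0`.  For `i' ≠ i` the summand vanishes: for `e = {i,i'}`, `u 0 e` is
`σ = sg i e` or `σ ± 1/4`, `sg i' e = -σ`, so `N i' ≥ 2 (3/4 + t) ≥ t`.  So
`F (J+1) t u = F J (t - N i t (u 0)) (tail u)`.  If `j0 = 0`: `N i t (u 0) ≥ 2 |σ ± 1/4 - σ t| ≥
2 (1/4 - (1 - t))`, so by (1) `F ≤ max (t - N) 0 ≤ max (3/2 - t... ) ...`: 
`t - N ≤ t - 1/2 + 2 (1 - t) = 1/2 + (1 - t)`.  If `j0 > 0`: `u 0 = w 0`,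
`t' = t - N ≤ 1`, `1 - t' = (1 - t) + N ≤ 3 (1-t) + Pb/R`, and use the induction hypothesis:
`3^J (3 (1-t) + 2 Pb/R) ≤ 3^(J+1) ((1-t) + Pb/R)`.
(4) With `t = 1` and `16 * 3^J * Pb ≤ R`: `F w ≥ 15/16`, `F u ≤ 9/16`.
-/

open Set

namespace DC

section core

variable {n : ℕ} {R : ℝ}

theorem wt_nonneg (hR : 0 < R) (i : Fin n) (e : Edge n) : 0 ≤ wt R i e := by
  unfold wt
  split_ifs
  · norm_num
  · positivity

theorem wt_inc {i : Fin n} {e : Edge n} (h : Inc i e) : wt R i e = 2 := by
  simp [wt, h]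

theorem wt_not_inc {i : Fin n} {e : Edge n} (h : ¬ Inc i e) : wt R i e = 1 / R := by
  simp [wt, h]

theorem sg_not_inc {i : Fin n} {e : Edge n} (h : ¬ Inc i e) : sg i e = 0 := by
  unfold Inc at h
  push Not at h
  simp [sg, h.1, h.2]

theorem abs_sg_inc {i : Fin n} {e : Edge n} (h : Inc i e) : |sg i e| = 1 := by
  unfold sg
  split_ifs with h1 h2
  · norm_num
  · norm_num
  · exact absurd h (by unfold Inc; push Not; exact ⟨h1, h2⟩)

variable [Nonempty (Edge n × Bool)]

theorem N_ge (hR : 0 < R) (i : Fin n) (t : ℝ) (x : Edge n → ℝ) (e : Edge n) :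
    wt R i e * |x e - sg i e * t| ≤ (sysR n R).N i t x := by
  have hw := wt_nonneg hR i e
  rcases le_total 0 (x e - sg i e * t) with h | h
  · have := (sysR n R).le_N i (e, true) t x
    rw [sysR_l] at this
    simp only [pm, if_true, one_mul] at this
    rw [abs_of_nonneg h]
    exact this
  · have := (sysR n R).le_N i (e, false) t x
    rw [sysR_l] at this
    simp only [pm, Bool.false_eq_true, if_false] at this
    rw [abs_of_nonpos h]
    linarith

theorem N_le (hR : 0 < R) (i : Fin n) (t : ℝ) (x : Edge n → ℝ) {c : ℝ}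
    (h : ∀ e, wt R i e * |x e - sg i e * t| ≤ c) : (sysR n R).N i t x ≤ c := by
  rw [(sysR n R).N_le_iff]
  rintro ⟨e, b⟩
  rw [sysR_l]
  refine le_trans ?_ (h e)
  have hw := wt_nonneg hR i e
  cases b
  · simp only [pm, Bool.false_eq_true, if_false]
    nlinarith [neg_abs_le (x e - sg i e * t)]
  · simp only [pm, if_true]
    nlinarith [le_abs_self (x e - sg i e * t)]

theorem N_nonneg' (hR : 0 < R) (i : Fin n) (t : ℝ) (x : Edge n → ℝ) :
    0 ≤ (sysR n R).N i t x := by
  obtain ⟨⟨e, -⟩⟩ := (inferInstance : Nonempty (Edge n × Bool))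
  exact le_trans (mul_nonneg (wt_nonneg hR i e) (abs_nonneg _)) (N_ge hR i t x e)

omit [Nonempty (Edge n × Bool)] in
theorem exists_edge {i i' : Fin n} (h : i ≠ i') :
    ∃ e : Edge n, Inc i e ∧ Inc i' e ∧ sg i' e = - sg i e := by
  rcases lt_or_gt_of_ne h with h1 | h1
  · refine ⟨⟨(i, i'), h1⟩, Or.inl rfl, Or.inr rfl, ?_⟩
    simp [sg, h]
  · refine ⟨⟨(i', i), h1⟩, Or.inr rfl, Or.inl rfl, ?_⟩
    simp [sg, h.symm]

theorem two_bodies (hR : 0 < R) {i i' : Fin n} (h : i ≠ i') {t : ℝ} (ht : 0 < t)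
    (x : Edge n → ℝ) : 4 * t ≤ (sysR n R).N i t x + (sysR n R).N i' t x := by
  obtain ⟨e, h1, h2, h3⟩ := exists_edge h
  have h4 := N_ge hR i t x e
  have h5 := N_ge hR i' t x e
  rw [wt_inc h1] at h4
  rw [wt_inc h2, h3] at h5
  have h6 : |x e - -sg i e * t - (x e - sg i e * t)| ≤
      |x e - -sg i e * t| + |x e - sg i e * t| := abs_sub _ _
  have h7 : |x e - -sg i e * t - (x e - sg i e * t)| = 2 * t := by
    rw [show x e - -sg i e * t - (x e - sg i e * t) = sg i e * (2 * t) by ring, abs_mul,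
      abs_sg_inc h1, one_mul, abs_of_pos (by linarith)]
  linarith

/-- FACT (1). -/
theorem F_bound (hR : 0 < R) : ∀ (J : ℕ) (t : ℝ) (y : Fin J → Edge n → ℝ),
    0 ≤ (sysR n R).F J t y ∧ (sysR n R).F J t y ≤ max t 0
  | 0, t, y => by
      simp only [Sys.F]
      exact ⟨le_max_right _ _, le_rfl⟩
  | J + 1, t, y => by
      have ih := F_bound hR J
      have hz : ∀ i, t - (sysR n R).N i t (y 0) ≤ 0 →
          (sysR n R).F J (t - (sysR n R).N i t (y 0)) (Fin.tail y) = 0 := by
        intro i hi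
        have := ih (t - (sysR n R).N i t (y 0)) (Fin.tail y)
        rw [max_eq_right hi] at this
        exact le_antisymm this.2 this.1
      have hdef : (sysR n R).F (J + 1) t y =
          ∑ i, (sysR n R).F J (t - (sysR n R).N i t (y 0)) (Fin.tail y) := rfl
      refine ⟨?_, ?_⟩
      · rw [hdef]
        exact Finset.sum_nonneg fun i _ => (ih _ _).1
      · rw [hdef]
        by_cases hex : ∃ i, 0 < t - (sysR n R).N i t (y 0)
        · obtain ⟨i, hi⟩ := hex
          have hN := N_nonneg' hR i t (y 0)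
          have ht : 0 < t := by linarith
          rw [Finset.sum_eq_single i]
          · refine (ih _ _).2.trans ?_
            rw [max_eq_left hi.le, max_eq_left ht.le]
            linarith
          · intro i' _ hii
            apply hz
            have := two_bodies hR hii ht (y 0)
            linarith
          · intro h
            exact absurd (Finset.mem_univ i) h
        · push Not at hex
          rw [Finset.sum_eq_zero fun i _ => hz i (hex i)]
          exact le_max_right _ _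

theorem F_nonneg (hR : 0 < R) (J : ℕ) (t : ℝ) (y : Fin J → Edge n → ℝ) :
    0 ≤ (sysR n R).F J t y := (F_bound hR J t y).1

theorem F_of_nonpos (hR : 0 < R) (J : ℕ) {t : ℝ} (ht : t ≤ 0) (y : Fin J → Edge n → ℝ) :
    (sysR n R).F J t y = 0 := by
  have := F_bound hR J t y
  rw [max_eq_right ht] at this
  exact le_antisymm this.2 this.1

/-- The gauge of the core body at a core point. -/
theorem N_core (hR : 0 < R) {Pb : ℝ} (hPb : 0 < Pb) (i : Fin n) (x : Edge n → ℝ)
    (hx : ∀ e, Inc i e → x e = sg i e) (hx' : ∀ e, ¬ Inc i e → |x e| ≤ Pb) {t : ℝ}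
    (ht : t ≤ 1) : (sysR n R).N i t x ≤ 2 * (1 - t) + Pb / R := by
  have hPR : 0 < Pb / R := div_pos hPb hR
  apply N_le hR
  intro e
  by_cases he : Inc i e
  · rw [wt_inc he, hx e he, show sg i e - sg i e * t = sg i e * (1 - t) by ring, abs_mul,
      abs_sg_inc he, one_mul, abs_of_nonneg (by linarith)]
    linarith
  · rw [wt_not_inc he, sg_not_inc he]
    have h1 := hx' e he
    have h2 : 1 / R * |x e - 0 * t| ≤ Pb / R := by
      rw [zero_mul, sub_zero, one_div, div_eq_inv_mul]
      exact mul_le_mul_of_nonneg_left h1 (by positivity)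
    linarith

/-- FACT (2). -/
theorem F_lower (hR : 0 < R) {Pb : ℝ} (hPb : 0 < Pb) :
    ∀ (J : ℕ) (w : Fin J → Edge n → ℝ) (bd : Fin J → Fin n)
      (_ : ∀ j e, Inc (bd j) e → w j e = sg (bd j) e)
      (_ : ∀ j e, ¬ Inc (bd j) e → |w j e| ≤ Pb) (t : ℝ) (_ : t ≤ 1),
      1 - 3 ^ J * ((1 - t) + Pb / R) ≤ (sysR n R).F J t w
  | 0, w, bd, hw, hw', t, ht => by
      have hPR : 0 < Pb / R := div_pos hPb hR
      simp only [Sys.F, pow_zero, one_mul]
      refine le_trans ?_ (le_max_left _ _)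
      linarith
  | J + 1, w, bd, hw, hw', t, ht => by
      have hPR : 0 < Pb / R := div_pos hPb hR
      have hN := N_core hR hPb (bd 0) (w 0) (hw 0) (hw' 0) ht
      have hN0 := N_nonneg' hR (bd 0) t (w 0)
      have ih := F_lower hR hPb J (Fin.tail w) (Fin.tail bd) (fun j e h => hw j.succ e h)
        (fun j e h => hw' j.succ e h) (t - (sysR n R).N (bd 0) t (w 0)) (by linarith)
      have hdef : (sysR n R).F (J + 1) t w =
          ∑ i, (sysR n R).F J (t - (sysR n R).N i t (w 0)) (Fin.tail w) := rfl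
      have h1 : (sysR n R).F J (t - (sysR n R).N (bd 0) t (w 0)) (Fin.tail w) ≤
          (sysR n R).F (J + 1) t w := by
        rw [hdef]
        exact Finset.single_le_sum (f := fun i =>
          (sysR n R).F J (t - (sysR n R).N i t (w 0)) (Fin.tail w))
          (fun i _ => F_nonneg hR J _ _) (Finset.mem_univ (bd 0))
      refine le_trans ?_ (ih.trans h1)
      have h3 : (0 : ℝ) < 3 ^ J := by positivity
      have h4 : (1 - (t - (sysR n R).N (bd 0) t (w 0))) + Pb / R ≤ 3 * ((1 - t) + Pb / R) := by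
        linarith
      have h5 := mul_le_mul_of_nonneg_left h4 h3.le
      rw [pow_succ]
      linarith

/-- FACT (3). -/
theorem F_upper (hR : 0 < R) {Pb : ℝ} (hPb : 0 < Pb) {δ : ℝ} (hδ : |δ| = 1 / 4) :
    ∀ (J : ℕ) (w u : Fin J → Edge n → ℝ) (bd : Fin J → Fin n)
      (_ : ∀ j e, Inc (bd j) e → w j e = sg (bd j) e)
      (_ : ∀ j e, ¬ Inc (bd j) e → |w j e| ≤ Pb) (j0 : Fin J) (e0 : Edge n)
      (_ : Inc (bd j0) e0) (_ : ∀ j e, u j e = w j e + if j = j0 ∧ e = e0 then δ else 0)
      (t : ℝ) (_ : t ≤ 1),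
      (sysR n R).F J t u ≤ 1 / 2 + 3 ^ J * ((1 - t) + Pb / R)
  | 0, w, u, bd, hw, hw', j0, e0, he0, hu, t, ht => j0.elim0
  | J + 1, w, u, bd, hw, hw', j0, e0, he0, hu, t, ht => by
      have hPR : 0 < Pb / R := div_pos hPb hR
      have h3 : (1 : ℝ) ≤ 3 ^ J := one_le_pow₀ (by norm_num)
      have hpos : 0 ≤ (3 : ℝ) ^ (J + 1) * ((1 - t) + Pb / R) :=
        mul_nonneg (by positivity) (by linarith)
      rcases le_or_gt t 0 with ht0 | ht0
      · rw [F_of_nonpos hR _ ht0]
        linarith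
      have hdef : (sysR n R).F (J + 1) t u =
          ∑ i, (sysR n R).F J (t - (sysR n R).N i t (u 0)) (Fin.tail u) := rfl
      have hone : (sysR n R).F (J + 1) t u =
          (sysR n R).F J (t - (sysR n R).N (bd 0) t (u 0)) (Fin.tail u) := by
        rw [hdef, Finset.sum_eq_single (bd 0)]
        · intro i' _ hii
          apply F_of_nonpos hR
          obtain ⟨e, h1, h2, h4⟩ := exists_edge (Ne.symm hii)
          have h5 := N_ge hR i' t (u 0) e
          rw [wt_inc h2, h4] at h5
          have h6 : u 0 e = sg (bd 0) e + if (0 : Fin (J + 1)) = j0 ∧ e = e0 then δ else 0 := by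
            rw [hu, hw 0 e h1]
          have h7 : |(if (0 : Fin (J + 1)) = j0 ∧ e = e0 then δ else 0)| ≤ 1 / 4 := by
            split_ifs
            · exact hδ.le
            · simp
          set δ' : ℝ := if (0 : Fin (J + 1)) = j0 ∧ e = e0 then δ else 0
          have h8 : |sg (bd 0) e * (1 + t)| - |(-δ')| ≤ |sg (bd 0) e * (1 + t) - (-δ')| :=
            abs_sub_abs_le_abs_sub _ _
          rw [abs_mul, abs_sg_inc h1, one_mul, abs_of_pos (by linarith : (0 : ℝ) < 1 + t),
            abs_neg] at h8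
          have h9 : u 0 e - -sg (bd 0) e * t = sg (bd 0) e * (1 + t) - (-δ') := by
            rw [h6]; ring
          rw [h9] at h5
          linarith
        · intro h
          exact absurd (Finset.mem_univ _) h
      rw [hone]
      by_cases hj : j0 = 0
      · subst hj
        refine (F_bound hR J _ _).2.trans ?_
        have h5 := N_ge hR (bd 0) t (u 0) e0
        rw [wt_inc he0] at h5
        have h6 : u 0 e0 - sg (bd 0) e0 * t = δ - (-(sg (bd 0) e0 * (1 - t))) := by
          rw [hu, hw 0 e0 he0, if_pos ⟨rfl, rfl⟩]; ring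
        have h8 : |δ| - |(-(sg (bd 0) e0 * (1 - t)))| ≤ |δ - (-(sg (bd 0) e0 * (1 - t)))| :=
          abs_sub_abs_le_abs_sub _ _
        rw [abs_neg, abs_mul, abs_sg_inc he0, one_mul,
          abs_of_nonneg (by linarith : (0 : ℝ) ≤ 1 - t), hδ] at h8
        rw [h6] at h5
        have h9 : (1 - t) ≤ 3 ^ (J + 1) * ((1 - t) + Pb / R) := by
          have h10 : (1 : ℝ) ≤ 3 ^ (J + 1) := one_le_pow₀ (by norm_num)
          nlinarith
        apply max_le
        · linarith
        · linarith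
      · obtain ⟨j1, rfl⟩ := Fin.exists_succ_eq.2 hj
        have hu0 : u 0 = w 0 := by
          funext e
          rw [hu, if_neg, add_zero]
          rintro ⟨h, -⟩
          exact (Fin.succ_ne_zero j1) h.symm
        rw [hu0]
        have hN := N_core hR hPb (bd 0) (w 0) (hw 0) (hw' 0) ht
        have hN0 := N_nonneg' hR (bd 0) t (w 0)
        have ih := F_upper hR hPb hδ J (Fin.tail w) (Fin.tail u) (Fin.tail bd)
          (fun j e h => hw j.succ e h) (fun j e h => hw' j.succ e h) j1 e0 he0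
          (fun j e => by
            have := hu j.succ e
            simp only [Fin.tail, Fin.succ_inj] at this ⊢
            exact this) (t - (sysR n R).N (bd 0) t (w 0)) (by linarith)
        refine ih.trans ?_
        have h4 : (1 - (t - (sysR n R).N (bd 0) t (w 0))) + Pb / R ≤ 3 * ((1 - t) + Pb / R) := by
          linarith
        have h5 := mul_le_mul_of_nonneg_left h4 (by linarith : (0 : ℝ) ≤ 3 ^ J)
        rw [pow_succ]
        linarith

end core

theorem strict_mid {n J : ℕ} {R Pb : ℝ} (hPb : 0 < Pb) (hR : 16 * 3 ^ J * Pb ≤ R)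
    [Nonempty (Edge n × Bool)] (w : Fin J → Edge n → ℝ) (bd : Fin J → Fin n)
    (hw : ∀ j e, Inc (bd j) e → w j e = sg (bd j) e)
    (hw' : ∀ j e, ¬ Inc (bd j) e → |w j e| ≤ Pb)
    (j0 : Fin J) (e0 : Edge n) (he0 : Inc (bd j0) e0) :
    (sysR n R).F J 1 (w + Pi.single j0 (Pi.single e0 (1 / 4))) +
      (sysR n R).F J 1 (w - Pi.single j0 (Pi.single e0 (1 / 4))) < 2 * (sysR n R).F J 1 w := by
  have hR0 : 0 < R := lt_of_lt_of_le (by positivity) hR
  have h1 := F_lower hR0 hPb J w bd hw hw' 1 le_rfl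
  have h2 := F_upper hR0 hPb (δ := 1 / 4) (by norm_num [abs_of_pos]) J w
    (w + Pi.single j0 (Pi.single e0 (1 / 4))) bd hw hw' j0 e0 he0 (fun j e => by
      by_cases hj : j = j0
      · subst hj
        by_cases he : e = e0
        · subst he; simp
        · simp [he]
      · simp [hj]) 1 le_rfl
  have h3 := F_upper hR0 hPb (δ := -(1 / 4)) (by norm_num [abs_of_pos]) J w
    (w - Pi.single j0 (Pi.single e0 (1 / 4))) bd hw hw' j0 e0 he0 (fun j e => by
      by_cases hj : j = j0
      · subst hj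
        by_cases he : e = e0
        · subst he; simp; ring
        · simp [he]
      · simp [hj]) 1 le_rfl
  have h4 : (3 : ℝ) ^ J * (Pb / R) ≤ 1 / 16 := by
    rw [← mul_div_assoc, div_le_iff₀ hR0]
    linarith
  simp only [sub_self, zero_add] at h1 h2 h3
  linarith

end DC
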