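import Mathlib

/-!
# MP_8e96ff_co, job DC-NUM: the exponential beats every polynomial

PROOF.  Let `p : MvPolynomial (Fin 2) ℝ`.  There are `C ≥ 0` and `d ≥ 1` with
`eval ![x,y] p ≤ C * (x*y)^d` for all `x, y ≥ 1` (`C` the sum of the absolute values of the
coefficients, `d = totalDegree + 1`; `MvPolynomial.eval_eq'`).  Choose `m ≥ 1` with
`2 * ((2m+1) * (2*(m*(2m+1))))^d ≤ 2^m` (exponential beats a polynomial).  Write
`a = (2m+1) * (2*(m*(2m+1)))`, `D = m*(2m+1)`.  For `q ≤ a^J * (1 + J κ) + (2 D)^J`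
`≤ a^J * (2 + J κ)` and `N = J*D+1`:
`C * (N*q)^d ≤ C * ((J D + 1) (2 + J κ))^d * (a^d)^J`, and
`2^(J*m) ≥ 2^J * (a^d)^J`; for large `J`, `C * ((J D + 1)(2 + J κ))^d < 2^J`.
-/

open Set Filter Topology

namespace DC

/-- a polynomial in two variables is bounded by a power of the product -/
theorem numeric_bound (p : MvPolynomial (Fin 2) ℝ) :
    ∃ C : ℝ, 0 ≤ C ∧ ∃ d : ℕ, ∀ x y : ℝ, 1 ≤ x → 1 ≤ y →
      MvPolynomial.eval ![x, y] p ≤ C * (x * y) ^ d := by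
  refine ⟨∑ s ∈ p.support, |p.coeff s|, Finset.sum_nonneg fun _ _ => abs_nonneg _,
    p.support.sup (fun s => s 0 + s 1), fun x y hx hy => ?_⟩
  rw [MvPolynomial.eval_eq', Finset.sum_mul]
  refine Finset.sum_le_sum fun s hs => ?_
  have hd : s 0 + s 1 ≤ p.support.sup (fun s => s 0 + s 1) :=
    Finset.le_sup (f := fun s : Fin 2 →₀ ℕ => s 0 + s 1) hs
  set d := p.support.sup (fun s => s 0 + s 1)
  simp only [Fin.prod_univ_two, Matrix.cons_val_zero, Matrix.cons_val_one]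
  have h1 : x ^ s 0 ≤ x ^ d := pow_le_pow_right₀ hx (by omega)
  have h2 : y ^ s 1 ≤ y ^ d := pow_le_pow_right₀ hy (by omega)
  have hx0 : 0 ≤ x := by linarith
  have hy0 : 0 ≤ y := by linarith
  have h3 : x ^ s 0 * y ^ s 1 ≤ (x * y) ^ d := by
    rw [mul_pow]
    exact mul_le_mul h1 h2 (by positivity) (by positivity)
  calc p.coeff s * (x ^ s 0 * y ^ s 1) ≤ |p.coeff s| * (x ^ s 0 * y ^ s 1) :=
        mul_le_mul_of_nonneg_right (le_abs_self _) (by positivity)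
    _ ≤ |p.coeff s| * (x * y) ^ d := mul_le_mul_of_nonneg_left h3 (abs_nonneg _)

/-- the exponential beats a power -/
theorem exp_beats (C : ℝ) (k : ℕ) : ∀ᶠ n : ℕ in atTop, C * (n : ℝ) ^ k < (2 : ℝ) ^ n := by
  have h := (tendsto_pow_const_div_const_pow_of_one_lt k (show (1 : ℝ) < 2 by norm_num)).const_mul C
  rw [mul_zero] at h
  filter_upwards [h.eventually_lt_const (show (0 : ℝ) < 1 by norm_num)] with n hn
  rw [← mul_div_assoc, div_lt_one (by positivity)] at hn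
  exact hn

theorem numeric (p : MvPolynomial (Fin 2) ℝ) :
    ∃ m : ℕ, 1 ≤ m ∧ ∀ κ : ℕ, ∃ J : ℕ, 1 ≤ J ∧ ∀ q : ℕ, 1 ≤ q →
      q ≤ ((2 * m + 1) * (2 * (m * (2 * m + 1)))) ^ J * (1 + J * κ) +
        (2 * (m * (2 * m + 1))) ^ J →
      MvPolynomial.eval ![((J * (m * (2 * m + 1)) + 1 : ℕ) : ℝ), (q : ℝ)] p <
        ((2 ^ (J * m) : ℕ) : ℝ) := by
  obtain ⟨C, hC, d, hp⟩ := numeric_bound p
  obtain ⟨m, hm, hm1⟩ := ((exp_beats (2 * 18 ^ d) (3 * d)).and (eventually_ge_atTop 1)).exists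
  refine ⟨m, hm1, fun κ => ?_⟩
  have hm1' : (1 : ℝ) ≤ m := by exact_mod_cast hm1
  set D : ℕ := m * (2 * m + 1) with hD
  set a : ℕ := (2 * m + 1) * (2 * D) with ha
  have haR : (a : ℝ) ≤ 18 * (m : ℝ) ^ 3 := by
    rw [ha, hD]
    push_cast
    have h1 : (2 * (m : ℝ) + 1) ≤ 3 * m := by linarith
    have h2 : (m : ℝ) * (2 * m + 1) ≤ m * (3 * m) := mul_le_mul_of_nonneg_left h1 (by positivity)
    calc (2 * (m : ℝ) + 1) * (2 * (m * (2 * m + 1))) ≤ (3 * m) * (2 * (m * (3 * m))) :=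
          mul_le_mul h1 (by linarith) (by positivity) (by positivity)
      _ = 18 * (m : ℝ) ^ 3 := by ring
  have ham : 2 * (a : ℝ) ^ d ≤ 2 ^ m := by
    calc 2 * (a : ℝ) ^ d ≤ 2 * (18 * (m : ℝ) ^ 3) ^ d := by gcongr
      _ = 2 * 18 ^ d * (m : ℝ) ^ (3 * d) := by rw [mul_pow, ← pow_mul]; ring
      _ ≤ 2 ^ m := hm.le
  obtain ⟨J, hJ, hJ1⟩ := ((exp_beats (C * (((D : ℝ) + 1) * (2 + κ)) ^ d) (2 * d)).and
    (eventually_ge_atTop 1)).exists
  refine ⟨J, hJ1, fun q hq1 hq => ?_⟩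
  have hJ1' : (1 : ℝ) ≤ J := by exact_mod_cast hJ1
  have hD1 : 1 ≤ D := by
    rw [hD]
    exact Nat.one_le_iff_ne_zero.2 (Nat.mul_ne_zero (by omega) (by omega))
  have ha1 : 1 ≤ a := by
    rw [ha]
    exact Nat.one_le_iff_ne_zero.2 (Nat.mul_ne_zero (by omega) (by omega))
  have hDa : 2 * D ≤ a := by
    rw [ha]
    exact Nat.le_mul_of_pos_left _ (by omega)
  have hq2 : (q : ℝ) ≤ (a : ℝ) ^ J * (2 + J * κ) := by
    have h1 : q ≤ a ^ J * (1 + J * κ) + a ^ J := hq.trans (by gcongr)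
    have h2 : (q : ℝ) ≤ (a : ℝ) ^ J * (1 + J * κ) + (a : ℝ) ^ J := by exact_mod_cast h1
    linarith
  have hq1' : (1 : ℝ) ≤ q := by exact_mod_cast hq1
  have hN1 : (1 : ℝ) ≤ ((J * D + 1 : ℕ) : ℝ) := by
    push_cast
    have : (0 : ℝ) ≤ (J : ℝ) * D := by positivity
    linarith
  have haJ : (0 : ℝ) < ((a : ℝ) ^ d) ^ J := by
    have : (0 : ℝ) < a := by exact_mod_cast ha1
    positivity
  have hpoly : ((J : ℝ) * D + 1) * (2 + J * κ) ≤ (((D : ℝ) + 1) * (2 + κ)) * (J : ℝ) ^ 2 := by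
    have h1 : (J : ℝ) * D + 1 ≤ (D + 1) * J := by nlinarith
    have h2 : 2 + (J : ℝ) * κ ≤ (2 + κ) * J := by nlinarith
    calc ((J : ℝ) * D + 1) * (2 + J * κ) ≤ ((D + 1) * J) * ((2 + κ) * J) :=
          mul_le_mul h1 h2 (by positivity) (by positivity)
      _ = _ := by ring
  have hlt : C * (((J : ℝ) * D + 1) * (2 + J * κ)) ^ d < 2 ^ J := by
    refine lt_of_le_of_lt ?_ hJ
    calc C * (((J : ℝ) * D + 1) * (2 + J * κ)) ^ d ≤
        C * ((((D : ℝ) + 1) * (2 + κ)) * (J : ℝ) ^ 2) ^ d := by gcongr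
      _ = C * (((D : ℝ) + 1) * (2 + κ)) ^ d * (J : ℝ) ^ (2 * d) := by
          rw [mul_pow, ← pow_mul]; ring
  calc MvPolynomial.eval ![((J * D + 1 : ℕ) : ℝ), (q : ℝ)] p
      ≤ C * (((J * D + 1 : ℕ) : ℝ) * q) ^ d := hp _ _ hN1 hq1'
    _ ≤ C * (((J : ℝ) * D + 1) * ((a : ℝ) ^ J * (2 + J * κ))) ^ d := by
        push_cast
        gcongr
    _ = C * (((J : ℝ) * D + 1) * (2 + J * κ)) ^ d * ((a : ℝ) ^ d) ^ J := by
        rw [show ((J : ℝ) * D + 1) * ((a : ℝ) ^ J * (2 + J * κ)) =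
          (((J : ℝ) * D + 1) * (2 + J * κ)) * (a : ℝ) ^ J by ring, mul_pow, ← pow_mul, ← pow_mul,
          mul_comm J d]
        ring
    _ < 2 ^ J * ((a : ℝ) ^ d) ^ J := mul_lt_mul_of_pos_right hlt haJ
    _ = (2 * (a : ℝ) ^ d) ^ J := by rw [mul_pow]
    _ ≤ (2 ^ m) ^ J := by gcongr
    _ = ((2 ^ (J * m) : ℕ) : ℝ) := by
        push_cast
        rw [← pow_mul, mul_comm]

end DC
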