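import Pool.Agent.H18.DC.Branch

/-!
# MP_8e96ff_co, job DC-TREE: the tree argument

Setting: `n = 2 m + 1`, `ι = Fin J × Edge n`, `f = G - h` on `ι → ℝ`, `G` convex, `h` the maximum
of the finitely many affine functions `c0 b + ∑ i, g b i * x i`; `hconc`: `f` is strictly midpoint
concave in the pinned directions at all core configurations.  Claim: `2 ^ (J*m) ≤ card β`.

INDUCTIVE STATEMENT `tree_aux` (state `κ, z, bd`; level `j` is *active* if `κ j < m` and *done* if
`κ j = m`; `A = {c | κ c.1 < m}`; potential `K = ∑ j, (m - κ j)`): see below.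
PROOF by induction on `K` (for all states).
`K = 0`: some `b` is active at `z`, and `z ∈ Box A z (rad d 0)`.
`K + 1`: some level is active.  Put `r = rad d K + 1`, `a = 4 d r + 1`, so `rad d (K+1) = a + r`.
(i) BODIES: for every active level `j` there is a vertex `i` such that `z (j,e) = 0` for all
`e ∋ i`: at most `κ j ≤ m - 1` edges carry a nonzero value, they have at most `2 m - 2 < n` ends.
Put `bd' j` = this vertex for active levels, `bd' j = bd j` for done levels, and
`w (j,e) = sg (bd' j) e` if `Inc (bd' j) e`, else `z (j,e)`.  `w = z` outside `A`,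
`|w - z| ≤ 1` on `A`, and `|w c| ≤ Pb` for the other edges.
(ii) For an active level `j0` choose `e0` with `Inc (bd' j0) e0` (`n ≥ 3`); `u, v = w ± 1/4` in
`(j0,e0)`.  `u, v ∈ Box A z r` (`r ≥ 3`), and `h u + h v > 2 h w` as `h = G - f`, `G` convex,
`hconc`.  So the branching lemma applies (`4 |A| r ≤ 4 d r < a`): get `c = (j1,e1)`, `κ j1 < m`.
(iii) For each sign `z' = z ± a e_c`, the new state: `κ' = κ + 1` at `j1`, potential `K`.
Claim: at least `2^K` functions `b` are active in `Box A z' r`.
 - If `κ j1 + 1 < m`: state `(κ', z', bd)`, `A' = A`; at most one more nonzero coordinate at level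
   `j1`; `Box A z' (rad d K) ⊆ Box A z' r`.
 - If `κ j1 + 1 = m`: at most `m` edges of level `j1` carry a nonzero value of `z'`, with at most
   `2 m < n` ends, so there is `i` with `z' (j1,e) = 0` for `e ∋ i`; new center `z''`: at level
   `j1` replace `z' (j1,e)` by `sg i e` for `e ∋ i`; `bd' = bd` updated at `j1` by `i`.  Then
   `A' ⊆ A`, and `Box A' z'' (rad d K) ⊆ Box A z' r` (at level `j1` the points of the left box have
   the values of `z''`, at distance `≤ 1` of `z'`).
 Bounds: `|z'' c| ≤ max 1 (|z c| + a)`, and `|z c| + a + rad d K ≤ |z c| + rad d (K+1) ≤ Pb`,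
 `1 + rad d K ≤ rad d (K+1) ≤ Pb`.
(iv) the two sets of active functions (for `+` and `-`) are disjoint by the branching lemma, and
both are contained in the set of functions active in `Box A z (rad d (K+1))`, since
`Box A (z ± a e_c) r ⊆ Box A z (a + r)`.
The theorem: `κ = 0`, `z = 0`, `K = J * m`, `Pb = rad d (J*m)` (`m ≥ 1`).
-/

open Set

namespace DC

/-- the radii of the tree argument; `d` is the number of coordinates -/
noncomputable def rad (d : ℕ) : ℕ → ℝ
  | 0 => 2
  | K + 1 => (4 * d * (rad d K + 1) + 1) + (rad d K + 1)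

theorem rad_nonneg (d K : ℕ) : 2 ≤ rad d K := by
  induction K with
  | zero => simp [rad]
  | succ K ih =>
    have h0 : (0 : ℝ) ≤ d := Nat.cast_nonneg d
    have h1 : 0 ≤ 4 * (d : ℝ) * (rad d K + 1) := by positivity
    simp only [rad]
    linarith

theorem rad_succ (d K : ℕ) :
    rad d (K + 1) = (4 * d * (rad d K + 1) + 1) + (rad d K + 1) := rfl

private theorem exists_free {n : ℕ} (S : Finset (Edge n)) (h : 2 * S.card < n) :
    ∃ i : Fin n, ∀ e, Inc i e → e ∉ S := by
  classical
  by_contra hcon
  push Not at hcon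
  have hsub : (Finset.univ : Finset (Fin n)) ⊆
      S.image (fun e => e.1.1) ∪ S.image (fun e => e.1.2) := by
    intro i _
    obtain ⟨e, he, heS⟩ := hcon i
    rcases he with he | he
    · exact Finset.mem_union_left _ (Finset.mem_image.2 ⟨e, heS, he⟩)
    · exact Finset.mem_union_right _ (Finset.mem_image.2 ⟨e, heS, he⟩)
  have h1 := Finset.card_le_card hsub
  rw [Finset.card_univ, Fintype.card_fin] at h1
  have h2 := Finset.card_union_le (S.image (fun e : Edge n => e.1.1))
    (S.image (fun e : Edge n => e.1.2))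
  have h3 := Finset.card_image_le (s := S) (f := fun e : Edge n => e.1.1)
  have h4 := Finset.card_image_le (s := S) (f := fun e : Edge n => e.1.2)
  omega

private theorem exists_inc {n : ℕ} (hn : 2 ≤ n) (i : Fin n) : ∃ e : Edge n, Inc i e := by
  by_cases hi : i.val = 0
  · refine ⟨⟨(i, ⟨1, by omega⟩), ?_⟩, Or.inl rfl⟩
    rw [Fin.lt_def]
    simp only
    omega
  · refine ⟨⟨(⟨0, by omega⟩, i), ?_⟩, Or.inr rfl⟩
    rw [Fin.lt_def]
    simp only
    omega

private theorem abs_sg_le {n : ℕ} (i : Fin n) (e : Edge n) : |sg i e| ≤ 1 := by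
  unfold sg
  split_ifs <;> simp

private theorem card_add_le {β : Type} [Fintype β] {P Q R : β → Prop} {n : ℕ}
    (hP : n ≤ Nat.card {b : β // P b}) (hQ : n ≤ Nat.card {b : β // Q b})
    (hPR : ∀ b, P b → R b) (hQR : ∀ b, Q b → R b) (hd : ∀ b, ¬ (P b ∧ Q b)) :
    n + n ≤ Nat.card {b : β // R b} := by
  classical
  rw [Nat.card_eq_fintype_card, Fintype.card_subtype] at hP hQ ⊢
  have hdis : Disjoint (Finset.univ.filter P) (Finset.univ.filter Q) := by
    rw [Finset.disjoint_left]
    intro b hb hb'
    exact hd b ⟨(Finset.mem_filter.1 hb).2, (Finset.mem_filter.1 hb').2⟩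
  calc n + n ≤ (Finset.univ.filter P).card + (Finset.univ.filter Q).card := add_le_add hP hQ
    _ = (Finset.univ.filter P ∪ Finset.univ.filter Q).card :=
        (Finset.card_union_of_disjoint hdis).symm
    _ ≤ (Finset.univ.filter R).card := by
        apply Finset.card_le_card
        intro b hb
        rw [Finset.mem_union, Finset.mem_filter, Finset.mem_filter] at hb
        rw [Finset.mem_filter]
        exact ⟨Finset.mem_univ _, hb.elim (fun h => hPR b h.2) (fun h => hQR b h.2)⟩

private theorem card_mono_le {β : Type} [Fintype β] {P R : β → Prop} {n : ℕ}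
    (hP : n ≤ Nat.card {b : β // P b}) (hPR : ∀ b, P b → R b) :
    n ≤ Nat.card {b : β // R b} := by
  classical
  rw [Nat.card_eq_fintype_card, Fintype.card_subtype] at hP ⊢
  refine hP.trans (Finset.card_le_card ?_)
  intro b hb
  rw [Finset.mem_filter] at hb ⊢
  exact ⟨hb.1, hPR b hb.2⟩

private theorem one_le_card {β : Type} [Fintype β] {P : β → Prop} (h : ∃ b, P b) :
    1 ≤ Nat.card {b : β // P b} := by
  classical
  obtain ⟨b, hb⟩ := h
  have : Nonempty {b : β // P b} := ⟨⟨b, hb⟩⟩
  exact Nat.card_pos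

private theorem tree_step {m J : ℕ} {β : Type} [Fintype β]
    (Act : Finset (Fin J × Edge (2 * m + 1)) → (Fin J × Edge (2 * m + 1) → ℝ) → ℝ → β → Prop)
    (hmono : ∀ A z r A' z' r', Box A' z' r' ⊆ Box A z r → ∀ b, Act A' z' r' b → Act A z r b)
    (Pb ρ : ℝ) (K : ℕ)
    (ih : ∀ (κ : Fin J → ℕ) (z : Fin J × Edge (2 * m + 1) → ℝ) (bd : Fin J → Fin (2 * m + 1)),
      (∀ j, κ j ≤ m) → ∑ j, (m - κ j) = K →
      (∀ j, κ j < m → (Finset.univ.filter fun e => z (j, e) ≠ 0).card ≤ κ j) →
      (∀ j, κ j = m → ∀ e, Inc (bd j) e → z (j, e) = sg (bd j) e) →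
      (∀ c, |z c| + ρ ≤ Pb) →
      2 ^ K ≤ Nat.card {b : β // Act (Finset.univ.filter fun c => κ c.1 < m) z ρ b})
    (κ : Fin J → ℕ) (z : Fin J × Edge (2 * m + 1) → ℝ) (bd : Fin J → Fin (2 * m + 1))
    (h1 : ∀ j, κ j ≤ m) (h2 : ∑ j, (m - κ j) = K + 1)
    (h3 : ∀ j, κ j < m → (Finset.univ.filter fun e => z (j, e) ≠ 0).card ≤ κ j)
    (h4 : ∀ j, κ j = m → ∀ e, Inc (bd j) e → z (j, e) = sg (bd j) e)
    (j1 : Fin J) (e1 : Edge (2 * m + 1)) (hj1 : κ j1 < m) (a t : ℝ) (hρ : 2 ≤ ρ)
    (hz : ∀ c, |z c| + a + ρ ≤ Pb) (hz1 : 1 + ρ ≤ Pb) (ht : |t| ≤ a) :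
    2 ^ K ≤ Nat.card {b : β // Act (Finset.univ.filter fun c => κ c.1 < m)
      (z + Pi.single (j1, e1) t) (ρ + 1) b} := by
  classical
  have ha : 0 ≤ a := (abs_nonneg t).trans ht
  set z' : Fin J × Edge (2 * m + 1) → ℝ := z + Pi.single (j1, e1) t with hz'
  have hz'o : ∀ c, c ≠ (j1, e1) → z' c = z c := by
    intro c hc
    simp [hz', Pi.single_eq_of_ne hc]
  have hz'a : ∀ c, |z' c| ≤ |z c| + a := by
    intro c
    by_cases hc : c = (j1, e1)
    · subst hc
      simp only [hz', Pi.add_apply, Pi.single_eq_same]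
      exact (abs_add_le _ _).trans (by linarith)
    · rw [hz'o c hc]
      linarith
  set κ' : Fin J → ℕ := Function.update κ j1 (κ j1 + 1) with hκ'
  have hκs : κ' j1 = κ j1 + 1 := by simp [hκ']
  have hκo : ∀ j, j ≠ j1 → κ' j = κ j := by
    intro j hj
    simp [hκ', Function.update_of_ne hj]
  have h1' : ∀ j, κ' j ≤ m := by
    intro j
    by_cases hj : j = j1
    · subst hj
      rw [hκs]
      exact hj1
    · rw [hκo j hj]
      exact h1 j
  have h2' : ∑ j, (m - κ' j) = K := by
    have e1' : ∑ j, (m - κ j) = (m - κ j1) + ∑ j ∈ Finset.univ.erase j1, (m - κ j) :=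
      (Finset.add_sum_erase _ _ (Finset.mem_univ j1)).symm
    have e2' : ∑ j, (m - κ' j) = (m - κ' j1) + ∑ j ∈ Finset.univ.erase j1, (m - κ' j) :=
      (Finset.add_sum_erase _ _ (Finset.mem_univ j1)).symm
    have e3' : ∑ j ∈ Finset.univ.erase j1, (m - κ' j) =
        ∑ j ∈ Finset.univ.erase j1, (m - κ j) :=
      Finset.sum_congr rfl fun j hj => by rw [hκo j (Finset.ne_of_mem_erase hj)]
    rw [e2', e3', hκs]
    rw [e1'] at h2
    omega
  have hcard : (Finset.univ.filter fun e => z' (j1, e) ≠ 0).card ≤ κ j1 + 1 := by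
    have hsub : (Finset.univ.filter fun e => z' (j1, e) ≠ 0) ⊆
        insert e1 (Finset.univ.filter fun e => z (j1, e) ≠ 0) := by
      intro e he
      rw [Finset.mem_insert, Finset.mem_filter]
      by_cases hee : e = e1
      · exact Or.inl hee
      · refine Or.inr ⟨Finset.mem_univ _, ?_⟩
        have := (Finset.mem_filter.1 he).2
        rwa [hz'o (j1, e) (by simpa using hee)] at this
    exact (Finset.card_le_card hsub).trans ((Finset.card_insert_le _ _).trans
      (Nat.succ_le_succ (h3 j1 hj1)))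
  have hother : ∀ j, j ≠ j1 → ∀ e, z' (j, e) = z (j, e) := by
    intro j hj e
    exact hz'o (j, e) (by simp [hj])
  rcases lt_or_eq_of_le (Nat.succ_le_of_lt hj1) with hlt | heq
  · -- the level stays active
    have hlt' : κ j1 + 1 < m := hlt
    have h := ih κ' z' bd h1' h2' ?_ ?_ ?_
    · refine card_mono_le h fun b => hmono _ _ _ _ _ _ ?_ b
      rintro x ⟨hx1, hx2⟩
      refine ⟨fun c hc => hx1 c ?_, fun c hc => ?_⟩
      · intro hc'
        apply hc
        rw [Finset.mem_filter] at hc' ⊢
        refine ⟨hc'.1, ?_⟩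
        by_cases hcj : c.1 = j1
        · rw [hcj]
          exact hj1
        · rw [← hκo c.1 hcj]
          exact hc'.2
      · refine (hx2 c ?_).trans (by linarith)
        rw [Finset.mem_filter] at hc ⊢
        refine ⟨hc.1, ?_⟩
        by_cases hcj : c.1 = j1
        · rw [hcj, hκs]
          exact hlt'
        · rw [hκo c.1 hcj]
          exact hc.2
    · intro j hj
      by_cases hjj : j = j1
      · subst hjj
        rw [hκs]
        exact hcard
      · rw [hκo j hjj] at hj ⊢
        have : (Finset.univ.filter fun e => z' (j, e) ≠ 0) =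
            Finset.univ.filter fun e => z (j, e) ≠ 0 := by
          apply Finset.filter_congr
          intro e _
          rw [hother j hjj e]
        rw [this]
        exact h3 j hj
    · intro j hj e he
      have hjj : j ≠ j1 := by
        rintro rfl
        rw [hκs] at hj
        omega
      rw [hother j hjj e]
      exact h4 j (by rw [← hκo j hjj]; exact hj) e he
    · intro c
      have := hz c
      have := hz'a c
      linarith
  · -- the level becomes done
    have heq' : κ j1 + 1 = m := heq
    obtain ⟨i, hi⟩ := exists_free (Finset.univ.filter fun e => z' (j1, e) ≠ 0)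
      (show 2 * (Finset.univ.filter fun e => z' (j1, e) ≠ 0).card < 2 * m + 1 by omega)
    have hi' : ∀ e, Inc i e → z' (j1, e) = 0 := by
      intro e he
      by_contra hne
      exact hi e he (Finset.mem_filter.2 ⟨Finset.mem_univ _, hne⟩)
    set z'' : Fin J × Edge (2 * m + 1) → ℝ := fun c =>
      if c.1 = j1 ∧ Inc i c.2 then sg i c.2 else z' c with hz''
    have hz''o : ∀ c, c.1 ≠ j1 → z'' c = z' c := by
      intro c hc
      simp [hz'', hc]
    have hz''d : ∀ c, |z'' c - z' c| ≤ 1 := by
      intro c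
      by_cases hc : c.1 = j1 ∧ Inc i c.2
      · have e0 : z' c = 0 := by
          have := hi' c.2 hc.2
          rw [← hc.1] at this
          exact this
        have e2 : z'' c = sg i c.2 := by simp [hz'', hc]
        rw [e0, e2, sub_zero]
        exact abs_sg_le _ _
      · have e2 : z'' c = z' c := by simp only [hz'', if_neg hc]
        rw [e2, sub_self, abs_zero]
        exact zero_le_one
    have hz''b : ∀ c, |z'' c| + ρ ≤ Pb := by
      intro c
      by_cases hc : c.1 = j1 ∧ Inc i c.2
      · have e2 : z'' c = sg i c.2 := by simp [hz'', hc]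
        have := abs_sg_le i c.2
        rw [e2]
        linarith
      · have e2 : z'' c = z' c := by simp only [hz'', if_neg hc]
        have := hz c
        have := hz'a c
        rw [e2]
        linarith
    have h := ih κ' z'' (Function.update bd j1 i) h1' h2' ?_ ?_ hz''b
    · refine card_mono_le h fun b => hmono _ _ _ _ _ _ ?_ b
      rintro x ⟨hx1, hx2⟩
      refine ⟨fun c hc => ?_, fun c hc => ?_⟩
      · have hcm : ¬ κ c.1 < m := by
          intro h'
          exact hc (Finset.mem_filter.2 ⟨Finset.mem_univ _, h'⟩)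
        have hcj : c.1 ≠ j1 := by
          intro h'
          rw [h'] at hcm
          exact hcm hj1
        rw [← hz''o c hcj]
        apply hx1 c
        intro hc'
        rw [Finset.mem_filter, hκo c.1 hcj] at hc'
        exact hcm hc'.2
      · by_cases hcj : c.1 = j1
        · have hcA' : c ∉ Finset.univ.filter fun c : Fin J × Edge (2 * m + 1) => κ' c.1 < m := by
            rw [Finset.mem_filter, hcj, hκs]
            omega
          rw [hx1 c hcA']
          exact (hz''d c).trans (by linarith)
        · have hcA' : c ∈ Finset.univ.filter fun c : Fin J × Edge (2 * m + 1) => κ' c.1 < m := by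
            rw [Finset.mem_filter, hκo c.1 hcj]
            exact Finset.mem_filter.1 hc
          have := hx2 c hcA'
          rw [hz''o c hcj] at this
          linarith
    · intro j hj
      have hjj : j ≠ j1 := by
        rintro rfl
        rw [hκs] at hj
        omega
      have : (Finset.univ.filter fun e => z'' (j, e) ≠ 0) =
          Finset.univ.filter fun e => z (j, e) ≠ 0 := by
        apply Finset.filter_congr
        intro e _
        rw [hz''o (j, e) hjj, hother j hjj e]
      rw [this, hκo j hjj]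
      exact h3 j (by rw [← hκo j hjj]; exact hj)
    · intro j hj e he
      by_cases hjj : j = j1
      · subst hjj
        rw [Function.update_self] at he ⊢
        simp [hz'', he]
      · rw [Function.update_of_ne hjj] at he ⊢
        rw [hz''o (j, e) hjj, hother j hjj e]
        exact h4 j (by rw [← hκo j hjj]; exact hj) e he

theorem tree_aux {m J : ℕ} (hm : 1 ≤ m) {β : Type} [Fintype β]
    (g : β → (Fin J × Edge (2 * m + 1)) → ℝ) (c0 : β → ℝ)
    (f G h : (Fin J × Edge (2 * m + 1) → ℝ) → ℝ) (hG : ConvexOn ℝ univ G)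
    (hf : ∀ x, f x = G x - h x)
    (hle : ∀ b x, c0 b + ∑ i, g b i * x i ≤ h x)
    (hex : ∀ x, ∃ b, c0 b + ∑ i, g b i * x i = h x) (Pb : ℝ)
    (hconc : ∀ (w : Fin J × Edge (2 * m + 1) → ℝ) (bd : Fin J → Fin (2 * m + 1)),
      (∀ j e, Inc (bd j) e → w (j, e) = sg (bd j) e) →
      (∀ j e, ¬ Inc (bd j) e → |w (j, e)| ≤ Pb) →
      ∀ j0 e0, Inc (bd j0) e0 →
        f (w + Pi.single (j0, e0) (1 / 4)) + f (w - Pi.single (j0, e0) (1 / 4)) < 2 * f w)
    (K : ℕ) : ∀ (κ : Fin J → ℕ) (z : Fin J × Edge (2 * m + 1) → ℝ) (bd : Fin J → Fin (2 * m + 1)),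
      (∀ j, κ j ≤ m) → ∑ j, (m - κ j) = K →
      (∀ j, κ j < m → (Finset.univ.filter fun e => z (j, e) ≠ 0).card ≤ κ j) →
      (∀ j, κ j = m → ∀ e, Inc (bd j) e → z (j, e) = sg (bd j) e) →
      (∀ c, |z c| + rad (J * Fintype.card (Edge (2 * m + 1))) K ≤ Pb) →
      2 ^ K ≤ Nat.card {b : β // ∃ x ∈ Box (Finset.univ.filter fun c => κ c.1 < m) z
        (rad (J * Fintype.card (Edge (2 * m + 1))) K), c0 b + ∑ i, g b i * x i = h x} := by
  classical
  set D : ℕ := J * Fintype.card (Edge (2 * m + 1)) with hD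
  induction K with
  | zero =>
    intro κ z bd h1 h2 h3 h4 h5
    rw [pow_zero]
    obtain ⟨b, hb⟩ := hex z
    refine one_le_card ⟨b, z, ⟨fun c _ => rfl, fun c _ => ?_⟩, hb⟩
    have := rad_nonneg D 0
    rw [sub_self, abs_zero]
    linarith
  | succ K ih =>
    intro κ z bd h1 h2 h3 h4 h5
    have hrad := rad_nonneg D K
    have hradS : rad D (K + 1) = (4 * D * (rad D K + 1) + 1) + (rad D K + 1) := rfl
    have hD0 : (0 : ℝ) ≤ D := Nat.cast_nonneg D
    set ρ : ℝ := rad D K with hρ
    set r : ℝ := ρ + 1 with hr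
    set a : ℝ := 4 * D * r + 1 with ha
    have hr0 : 0 ≤ r := by linarith
    have hDr : 0 ≤ 4 * (D : ℝ) * r := by positivity
    have ha0 : 0 < a := by linarith
    set A : Finset (Fin J × Edge (2 * m + 1)) := Finset.univ.filter fun c => κ c.1 < m with hA
    have hAmem : ∀ c, c ∈ A ↔ κ c.1 < m := by
      intro c
      simp [hA]
    -- an active level
    obtain ⟨j0, hj0⟩ : ∃ j0, κ j0 < m := by
      by_contra hcon
      push Not at hcon
      have : ∑ j, (m - κ j) = 0 := Finset.sum_eq_zero fun j _ => by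
        have := hcon j
        omega
      omega
    -- bodies
    have hbod : ∀ j, ∃ i : Fin (2 * m + 1), (κ j = m → i = bd j) ∧
        (κ j < m → ∀ e, Inc i e → z (j, e) = 0) := by
      intro j
      rcases lt_or_eq_of_le (h1 j) with hlt | heq
      · have hc := h3 j hlt
        obtain ⟨i, hi⟩ := exists_free (Finset.univ.filter fun e => z (j, e) ≠ 0)
          (show 2 * (Finset.univ.filter fun e => z (j, e) ≠ 0).card < 2 * m + 1 by omega)
        refine ⟨i, fun h => absurd h hlt.ne, fun _ e he => ?_⟩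
        by_contra hne
        exact hi e he (Finset.mem_filter.2 ⟨Finset.mem_univ _, hne⟩)
      · exact ⟨bd j, fun _ => rfl, fun h => absurd heq h.ne⟩
    choose bd' hbd1 hbd2 using hbod
    set w : Fin J × Edge (2 * m + 1) → ℝ := fun c =>
      if Inc (bd' c.1) c.2 then sg (bd' c.1) c.2 else z c with hw
    have hwI : ∀ c : Fin J × Edge (2 * m + 1), Inc (bd' c.1) c.2 → w c = sg (bd' c.1) c.2 := by
      intro c hc
      simp only [hw, if_pos hc]
    have hwN : ∀ c : Fin J × Edge (2 * m + 1), ¬ Inc (bd' c.1) c.2 → w c = z c := by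
      intro c hc
      simp only [hw, if_neg hc]
    have hwo : ∀ c, c ∉ A → w c = z c := by
      intro c hc
      rw [hAmem] at hc
      have hcm : κ c.1 = m := le_antisymm (h1 c.1) (not_lt.1 hc)
      by_cases hI : Inc (bd' c.1) c.2
      · rw [hwI c hI]
        rw [hbd1 c.1 hcm] at hI ⊢
        exact (h4 c.1 hcm c.2 hI).symm
      · exact hwN c hI
    have hwd : ∀ c ∈ A, |w c - z c| ≤ 1 := by
      intro c hc
      rw [hAmem] at hc
      by_cases hI : Inc (bd' c.1) c.2
      · have e0 : z c = 0 := hbd2 c.1 hc c.2 hI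
        rw [hwI c hI, e0, sub_zero]
        exact abs_sg_le _ _
      · rw [hwN c hI, sub_self, abs_zero]
        exact zero_le_one
    obtain ⟨e0, he0⟩ := exists_inc (show 2 ≤ 2 * m + 1 by omega) (bd' j0)
    have hcw := hconc w bd' (fun j e hI => hwI (j, e) hI) (fun j e hI => by
      rw [hwN (j, e) hI]
      have := h5 (j, e)
      have := rad_nonneg D (K + 1)
      linarith) j0 e0 he0
    set u : Fin J × Edge (2 * m + 1) → ℝ := w + Pi.single (j0, e0) (1 / 4) with hu
    set v : Fin J × Edge (2 * m + 1) → ℝ := w - Pi.single (j0, e0) (1 / 4) with hv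
    have huv : (1 / 2 : ℝ) • (u + v) = w := by
      funext c
      simp only [hu, hv, Pi.smul_apply, Pi.add_apply, Pi.sub_apply, smul_eq_mul]
      ring
    have hsing : ∀ c : Fin J × Edge (2 * m + 1), c ≠ (j0, e0) →
        (Pi.single (j0, e0) (1 / 4 : ℝ) : Fin J × Edge (2 * m + 1) → ℝ) c = 0 := fun c hc =>
      Pi.single_eq_of_ne hc _
    have hsing2 : ∀ c : Fin J × Edge (2 * m + 1),
        |(Pi.single (j0, e0) (1 / 4 : ℝ) : Fin J × Edge (2 * m + 1) → ℝ) c| ≤ 1 := by
      intro c
      by_cases hc : c = (j0, e0)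
      · subst hc
        rw [Pi.single_eq_same, abs_of_nonneg (by norm_num)]
        norm_num
      · rw [hsing c hc, abs_zero]
        exact zero_le_one
    have hj0A : (j0, e0) ∈ A := (hAmem _).2 hj0
    have huB : u ∈ Box A z r := by
      refine ⟨fun c hc => ?_, fun c hc => ?_⟩
      · have hne : c ≠ (j0, e0) := by
          rintro rfl
          exact hc hj0A
        rw [hu, Pi.add_apply, hsing c hne, add_zero]
        exact hwo c hc
      · have q1 := hwd c hc
        have q2 := hsing2 c
        rw [hu, Pi.add_apply, show ∀ p q s : ℝ, p + q - s = (p - s) + q from fun p q s => by ring]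
        exact (abs_add_le _ _).trans (by linarith)
    have hvB : v ∈ Box A z r := by
      refine ⟨fun c hc => ?_, fun c hc => ?_⟩
      · have hne : c ≠ (j0, e0) := by
          rintro rfl
          exact hc hj0A
        rw [hv, Pi.sub_apply, hsing c hne, sub_zero]
        exact hwo c hc
      · have q1 := hwd c hc
        have q2 := hsing2 c
        rw [hv, Pi.sub_apply, show ∀ p q s : ℝ, p - q - s = (p - s) - q from fun p q s => by ring]
        exact (abs_sub _ _).trans (by linarith)
    have hna : 2 * h ((1 / 2 : ℝ) • (u + v)) < h u + h v := by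
      have hGc : G ((1 / 2 : ℝ) • (u + v)) ≤ 1 / 2 * G u + 1 / 2 * G v := by
        have := hG.2 (mem_univ u) (mem_univ v) (show (0 : ℝ) ≤ 1 / 2 by norm_num)
          (show (0 : ℝ) ≤ 1 / 2 by norm_num) (by norm_num)
        rw [smul_add]
        simpa only [smul_eq_mul] using this
      rw [huv] at hGc ⊢
      rw [hf u, hf v, hf w] at hcw
      linarith
    have hAcard : (A.card : ℝ) ≤ D := by
      have : A.card ≤ D := by
        refine (Finset.card_le_univ A).trans ?_
        rw [Fintype.card_prod, Fintype.card_fin]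
      exact_mod_cast this
    have hbr : 4 * (A.card : ℝ) * r < a := by
      have : (A.card : ℝ) * r ≤ D * r := mul_le_mul_of_nonneg_right hAcard hr0
      rw [ha]
      linarith
    obtain ⟨c1, hc1A, hc1⟩ := branching g c0 h hle hex A z r a (by linarith) hbr
      ⟨u, huB, v, hvB, hna⟩
    have hj1 : κ c1.1 < m := (hAmem c1).1 hc1A
    set Act : Finset (Fin J × Edge (2 * m + 1)) → (Fin J × Edge (2 * m + 1) → ℝ) → ℝ → β → Prop :=
      fun A z r b => ∃ x ∈ Box A z r, c0 b + ∑ i, g b i * x i = h x with hAct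
    have hmono : ∀ A z r A' z' r', Box A' z' r' ⊆ Box A z r →
        ∀ b, Act A' z' r' b → Act A z r b := by
      rintro A z r A' z' r' hsub b ⟨x, hx, hxb⟩
      exact ⟨x, hsub hx, hxb⟩
    have hz : ∀ c, |z c| + a + ρ ≤ Pb := by
      intro c
      have := h5 c
      linarith
    have hz1 : 1 + ρ ≤ Pb := by
      have := h5 c1
      have := abs_nonneg (z c1)
      linarith
    have hstep : ∀ t : ℝ, |t| ≤ a → 2 ^ K ≤ Nat.card {b : β // Act A
        (z + Pi.single c1 t) (ρ + 1) b} := fun t ht =>
      tree_step Act hmono Pb ρ K ih κ z bd h1 h2 h3 h4 c1.1 c1.2 hj1 a t hrad hz hz1 ht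
    have hplus := hstep a (abs_of_pos ha0).le
    have hminus := hstep (-a) (by rw [abs_neg, abs_of_pos ha0])
    have hneg : z + Pi.single c1 (-a) = z - Pi.single c1 a := by
      rw [Pi.single_neg, sub_eq_add_neg]
    rw [hneg] at hminus
    have hboxp : ∀ s : ℝ, |s| ≤ a → Box A (z + Pi.single c1 s) r ⊆ Box A z (rad D (K + 1)) := by
      rintro s hs x ⟨hx1, hx2⟩
      refine ⟨fun c hc => ?_, fun c hc => ?_⟩
      · have hne : c ≠ c1 := by
          rintro rfl
          exact hc hc1A
        rw [hx1 c hc, Pi.add_apply, Pi.single_eq_of_ne hne, add_zero]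
      · have q1 := hx2 c hc
        have q2 : |(Pi.single c1 s : Fin J × Edge (2 * m + 1) → ℝ) c| ≤ a := by
          by_cases hcc : c = c1
          · subst hcc
            rwa [Pi.single_eq_same]
          · rw [Pi.single_eq_of_ne hcc, abs_zero]
            exact ha0.le
        have q3 : x c - z c = (x c - (z + (Pi.single c1 s : Fin J × Edge (2 * m + 1) → ℝ)) c) +
            (Pi.single c1 s : Fin J × Edge (2 * m + 1) → ℝ) c := by
          rw [Pi.add_apply]
          ring
        rw [q3, hradS]
        exact (abs_add_le _ _).trans (by linarith)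
    have hboxm : Box A (z - Pi.single c1 a) r ⊆ Box A z (rad D (K + 1)) := by
      rw [← hneg]
      exact hboxp (-a) (by rw [abs_neg, abs_of_pos ha0])
    have hfin := card_add_le (R := Act A z (rad D (K + 1))) hplus hminus
      (fun b => hmono _ _ _ _ _ _ (hboxp a (abs_of_pos ha0).le) b)
      (fun b => hmono _ _ _ _ _ _ hboxm b) (fun b => hc1 b)
    rw [pow_succ, mul_two]
    exact hfin

theorem tree {m J : ℕ} (hm : 1 ≤ m) {β : Type} [Fintype β]
    (g : β → (Fin J × Edge (2 * m + 1)) → ℝ) (c0 : β → ℝ)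
    (f G h : (Fin J × Edge (2 * m + 1) → ℝ) → ℝ) (hG : ConvexOn ℝ univ G)
    (hf : ∀ x, f x = G x - h x)
    (hle : ∀ b x, c0 b + ∑ i, g b i * x i ≤ h x)
    (hex : ∀ x, ∃ b, c0 b + ∑ i, g b i * x i = h x)
    (hconc : ∀ (w : Fin J × Edge (2 * m + 1) → ℝ) (bd : Fin J → Fin (2 * m + 1)),
      (∀ j e, Inc (bd j) e → w (j, e) = sg (bd j) e) →
      (∀ j e, ¬ Inc (bd j) e →
        |w (j, e)| ≤ rad (J * Fintype.card (Edge (2 * m + 1))) (J * m)) →
      ∀ j0 e0, Inc (bd j0) e0 →
        f (w + Pi.single (j0, e0) (1 / 4)) + f (w - Pi.single (j0, e0) (1 / 4)) < 2 * f w) :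
    2 ^ (J * m) ≤ Fintype.card β := by
  classical
  rcases Nat.eq_zero_or_pos J with hJ | hJ
  · subst hJ
    obtain ⟨b, -⟩ := hex 0
    rw [zero_mul, pow_zero]
    exact Fintype.card_pos_iff.2 ⟨b⟩
  · have h := tree_aux hm g c0 f G h hG hf hle hex
      (rad (J * Fintype.card (Edge (2 * m + 1))) (J * m)) hconc (J * m) (fun _ => 0) 0
      (fun _ => ⟨0, by omega⟩) (fun _ => Nat.zero_le _) ?_ ?_ ?_ ?_
    · refine h.trans ?_
      rw [Nat.card_eq_fintype_card]
      exact Fintype.card_subtype_le _
    · simp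
    · intro j _
      simp
    · intro j hj
      omega
    · intro c
      simp

end DC
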