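import Pool.Agent.H18.DC.Fan
import Pool.Agent.H18.DC.MaxAff
import Pool.Agent.H18.DC.NonAff
import Pool.Agent.H18.DC.Tree
import Pool.Agent.H18.DC.Numeric
import Pool.Agent.H18.DC.HasPieces

/-!
# MP_8e96ff_co: assembly
-/

open Set

namespace DC

/-! ## Continuity -/

theorem continuous_N {E I G P : Type} [Fintype E] [Fintype G] [Nonempty G] (S : Sys E I G P)
    (i : I) : Continuous fun p : ℝ × (E → ℝ) => S.N i p.1 p.2 := by
  unfold Sys.N
  refine Continuous.finset_sup'_apply _ fun g _ => ?_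
  exact (LinearMap.continuous_of_finiteDimensional (S.l i g)).comp
    (continuous_fst.prodMk continuous_snd)

theorem continuous_F {E I G P : Type} [Fintype E] [Fintype I] [Fintype G] [Nonempty G]
    (S : Sys E I G P) (J : ℕ) : Continuous fun p : X E J => S.F J p.1 p.2 := by
  induction J with
  | zero =>
    show Continuous fun p : X E 0 => max p.1 0
    fun_prop
  | succ J ih =>
    show Continuous fun p : X E (J + 1) =>
      ∑ i, S.F J (p.1 - S.N i p.1 (p.2 0)) (Fin.tail p.2)
    refine continuous_finsetSum _ fun i _ => ?_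
    have h1 : Continuous fun p : X E (J + 1) =>
        ((p.1 - S.N i p.1 (p.2 0), Fin.tail p.2) : X E J) := by
      refine Continuous.prodMk ?_ ?_
      · refine continuous_fst.sub ?_
        exact (continuous_N S i).comp
          (continuous_fst.prodMk ((continuous_apply 0).comp continuous_snd))
      · refine continuous_pi fun j => ?_
        exact (continuous_apply j.succ).comp continuous_snd
    exact ih.comp h1

/-! ## Transport to `Fin N → ℝ` -/

theorem IsPolyCone.toPolyhedron {N : ℕ} {V : Type*} [AddCommGroup V] [Module ℝ V] {C : Set V}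
    (hC : IsPolyCone C) (e : (Fin N → ℝ) →ₗ[ℝ] V) : IsPolyhedron (e ⁻¹' C) := by
  classical
  obtain ⟨κ, _, a, rfl⟩ := hC
  refine ⟨Finset.univ.image fun k : κ => (fun i => - a k (e (Pi.single i 1)), (0 : ℝ)), ?_⟩
  ext x
  have key : ∀ k, a k (e x) = ∑ i, a k (e (Pi.single i 1)) * x i := by
    intro k
    conv_lhs => rw [← LinearMap.comp_apply, LinearMap.pi_apply_eq_sum_univ ((a k).comp e) x]
    refine Finset.sum_congr rfl fun i _ => ?_
    have : (fun j => if i = j then (1 : ℝ) else 0) = Pi.single i 1 := by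
      funext j
      by_cases h : i = j
      · subst h; simp
      · simp [h, Pi.single_apply, Ne.symm h]
    rw [this, smul_eq_mul, mul_comm, LinearMap.comp_apply]
  simp only [mem_preimage, mem_ofPred_eq, Finset.mem_image, Finset.mem_univ, true_and,
    forall_exists_index, forall_apply_eq_imp_iff]
  refine forall_congr' fun k => ?_
  rw [key]
  simp only [neg_mul, Finset.sum_neg_distrib]
  constructor <;> intro h <;> linarith

theorem IsExtreme.preimage_linear {V V' : Type*} [AddCommGroup V] [Module ℝ V]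
    [AddCommGroup V'] [Module ℝ V'] {A B : Set V} (h : IsExtreme ℝ A B) (e : V' →ₗ[ℝ] V) :
    IsExtreme ℝ (e ⁻¹' A) (e ⁻¹' B) := by
  refine isExtreme_mk (preimage_mono h.subset) fun p hp q hq a b ha hb hab hz => ?_
  refine IsExtreme.left h hp hq ha hb hab ?_
  simpa using hz

theorem finrank_X (E : Type) [Fintype E] (J : ℕ) :
    Module.finrank ℝ (X E J) = J * Fintype.card E + 1 := by
  rw [Module.finrank_prod, Module.finrank_self, Module.finrank_pi_fintype]
  simp [add_comm]

/-- A complete complex has at least one maximal cell. -/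
theorem one_le_ncard_maxCells {n : ℕ} (K : CompleteComplex n) : 1 ≤ K.maxCells.ncard := by
  have hfin : K.maxCells.Finite := K.finite.subset fun P hP => hP.1
  obtain ⟨P, hP, hPi, -⟩ := cover_interior K.finite
    (fun P hP => (K.polyhedron P hP).isClosed) K.union 0
  exact (ncard_pos hfin).2 ⟨P, hP, hPi⟩

theorem maxCells_finite {n : ℕ} (K : CompleteComplex n) : K.maxCells.Finite :=
  K.finite.subset fun _ hP => hP.1

/-- The radius bound is at least `2`. -/
theorem two_le_rad (d K : ℕ) : 2 ≤ rad d K := by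
  induction K with
  | zero => simp [rad]
  | succ K ih =>
    have h1 : 0 ≤ 4 * (d : ℝ) * (rad d K + 1) := by positivity
    simp only [rad]
    linarith

/-- The lower bound for the concrete function, transported. -/
theorem lower_bound {m J N : ℕ} (hm : 1 ≤ m) {R : ℝ}
    (hR : 16 * 3 ^ J * rad (J * Fintype.card (Edge (2 * m + 1))) (J * m) ≤ R)
    (hne : Nonempty (Edge (2 * m + 1) × Bool))
    (e : (Fin N → ℝ) ≃ₗ[ℝ] X (Edge (2 * m + 1)) J) (g h : (Fin N → ℝ) → ℝ)
    (hg : ConvexOn ℝ univ g) (hh : ConvexOn ℝ univ h)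
    (hf : ∀ x, (sysR (2 * m + 1) R).F J (e x).1 (e x).2 = g x - h x)
    (K : CompleteComplex N) (hK : Compatible h K) :
    2 ^ (J * m) ≤ K.maxCells.ncard := by
  classical
  obtain ⟨β, _, B, hβ, hle, hex⟩ := exists_max_affine h hh K hK
  refine le_trans ?_ hβ
  -- the embedding of the slice
  let L : (Fin J × Edge (2 * m + 1) → ℝ) →ₗ[ℝ] (Fin N → ℝ) :=
    e.symm.toLinearMap.comp ((LinearMap.inr ℝ ℝ (Fin J → Edge (2 * m + 1) → ℝ)).comp
      ({ toFun := fun x j e => x (j, e)
         map_add' := fun _ _ => rfl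
         map_smul' := fun _ _ => rfl } :
        (Fin J × Edge (2 * m + 1) → ℝ) →ₗ[ℝ] (Fin J → Edge (2 * m + 1) → ℝ)))
  let v0 : Fin N → ℝ := e.symm (1, 0)
  let φ : (Fin J × Edge (2 * m + 1) → ℝ) → (Fin N → ℝ) := fun x => L x + v0
  have hφ : ∀ x, e (φ x) = (1, fun j e => x (j, e)) := by
    intro x
    simp [φ, L, v0]
  have hφcomb : ∀ (a b : ℝ) x y, a + b = 1 → φ (a • x + b • y) = a • φ x + b • φ y := by
    intro a b x y hab
    simp only [φ, map_add, map_smul, smul_add]
    have : v0 = a • v0 + b • v0 := by rw [← add_smul, hab, one_smul]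
    conv_lhs => rw [this]
    abel
  have hcomp : ∀ k : (Fin N → ℝ) → ℝ, ConvexOn ℝ univ k → ConvexOn ℝ univ (fun x => k (φ x)) := by
    intro k hk
    refine ⟨convex_univ, fun x _ y _ a b ha hb hab => ?_⟩
    simp only
    rw [hφcomb a b x y hab]
    exact hk.2 (mem_univ _) (mem_univ _) ha hb hab
  have hBform : ∀ b (x : Fin J × Edge (2 * m + 1) → ℝ),
      B b (φ x) = B b v0 + ∑ i, (B b).linear (L (Pi.single i 1)) * x i := by
    intro b x
    have h1 : B b (φ x) = (B b).linear (L x) + B b v0 := by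
      have := (B b).map_vadd v0 (L x)
      simpa [φ] using this
    have h2 : (B b).linear (L x) = ∑ i, (B b).linear (L (Pi.single i 1)) * x i := by
      conv_lhs => rw [← LinearMap.comp_apply, LinearMap.pi_apply_eq_sum_univ ((B b).linear.comp L) x]
      refine Finset.sum_congr rfl fun i _ => ?_
      have : (fun j => if i = j then (1 : ℝ) else 0) = Pi.single i 1 := by
        funext j
        by_cases h : i = j
        · subst h; simp
        · simp [h, Pi.single_apply, Ne.symm h]
      rw [this, smul_eq_mul, mul_comm, LinearMap.comp_apply]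
    rw [h1, h2, add_comm]
  refine tree (J := J) hm (fun b i => (B b).linear (L (Pi.single i 1))) (fun b => B b v0)
    (fun x => (sysR (2 * m + 1) R).F J 1 (fun j e => x (j, e)))
    (fun x => g (φ x)) (fun x => h (φ x)) (hcomp g hg) ?_ ?_ ?_ ?_
  · intro x
    have := hf (φ x)
    rw [hφ x] at this
    exact this
  · intro b x
    rw [← hBform]
    exact hle b _
  · intro x
    obtain ⟨b, hb⟩ := hex (φ x)
    exact ⟨b, by rw [← hBform]; exact hb⟩
  · intro w bd hw hw' j0 e0 he0
    have hPb : 0 < rad (J * Fintype.card (Edge (2 * m + 1))) (J * m) := by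
      linarith [two_le_rad (J * Fintype.card (Edge (2 * m + 1))) (J * m)]
    have := strict_mid hPb hR (fun j e => w (j, e)) bd hw hw' j0 e0 he0
    have h1 : (fun j e => (w + Pi.single (j0, e0) (1 / 4 : ℝ) : Fin J × Edge (2 * m + 1) → ℝ) (j, e)) =
        (fun j e => w (j, e)) + Pi.single j0 (Pi.single e0 (1 / 4)) := by
      funext j e
      by_cases hj : j = j0
      · subst hj
        by_cases he : e = e0
        · subst he; simp
        · simp [Pi.single_apply, he]
      · simp [Pi.single_apply, hj]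
    have h2 : (fun j e => (w - Pi.single (j0, e0) (1 / 4 : ℝ) : Fin J × Edge (2 * m + 1) → ℝ) (j, e)) =
        (fun j e => w (j, e)) - Pi.single j0 (Pi.single e0 (1 / 4)) := by
      funext j e
      by_cases hj : j = j0
      · subst hj
        by_cases he : e = e0
        · subst he; simp
        · simp [Pi.single_apply, he]
      · simp [Pi.single_apply, hj]
    rw [h1, h2]
    exact this

/-- The negated form of Q1, with the lower bound for the subtracted function alone. -/
theorem strong_negation (p : MvPolynomial (Fin 2) ℝ) :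
    ∃ (n q : ℕ) (f : (Fin n → ℝ) → ℝ), 1 ≤ n ∧ 1 ≤ q ∧ IsCPWL f ∧ HasPieces f q ∧
      ∀ g h : (Fin n → ℝ) → ℝ, ConvexOn ℝ univ g → ConvexOn ℝ univ h →
        (∀ x, f x = g x - h x) → ∀ K : CompleteComplex n, Compatible h K →
          MvPolynomial.eval ![(n : ℝ), (q : ℝ)] p < K.maxCells.ncard := by
  classical
  obtain ⟨m, hm, hnum⟩ := numeric p
  obtain ⟨J, hJ, hnum⟩ := hnum (gadBound m)
  have hne : Nonempty (Edge (2 * m + 1) × Bool) := nonempty_facet (by omega)
  set Pb := rad (J * Fintype.card (Edge (2 * m + 1))) (J * m) with hPbdef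
  have hPb : 2 ≤ Pb := two_le_rad _ _
  set R : ℝ := 16 * 3 ^ J * Pb with hRdef
  have h3 : (1 : ℝ) ≤ 3 ^ J := one_le_pow₀ (by norm_num)
  have hR2 : 2 ≤ R := by rw [hRdef]; nlinarith
  obtain ⟨ι, _, D, hpoly, hcov, hext, hlin, hcard⟩ := fan_sysR hm hR2 J
  set N := J * (m * (2 * m + 1)) + 1 with hN
  have hfr : Module.finrank ℝ (Fin N → ℝ) = Module.finrank ℝ (X (Edge (2 * m + 1)) J) := by
    rw [finrank_X, card_edge, Module.finrank_fin_fun]
  let e : (Fin N → ℝ) ≃ₗ[ℝ] X (Edge (2 * m + 1)) J := LinearEquiv.ofFinrankEq _ _ hfr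
  let f : (Fin N → ℝ) → ℝ := fun x => (sysR (2 * m + 1) R).F J (e x).1 (e x).2
  have hcpwl : IsCPWL f := by
    refine ⟨(continuous_F _ J).comp
      (LinearMap.continuous_of_finiteDimensional e.toLinearMap), ?_⟩
    choose gg hgg using hlin
    refine ⟨Finset.univ.image fun c => ((gg c).comp e.toLinearMap).toAffineMap, fun x => ?_⟩
    obtain ⟨c, hc⟩ := hcov (e x)
    exact ⟨_, Finset.mem_image_of_mem _ (Finset.mem_univ c), hgg c _ hc⟩
  obtain ⟨K0, hK0⟩ := exists_complex (fun c => e.toLinearMap ⁻¹' D c)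
    (fun c => (hpoly c).toPolyhedron e.toLinearMap) (fun x => hcov (e x))
    (fun c c' => by
      have := IsExtreme.preimage_linear (hext c c') e.toLinearMap
      simpa [preimage_inter] using this)
  have hcompat : Compatible f K0 := by
    intro P hP
    obtain ⟨c, rfl⟩ := hK0 hP
    obtain ⟨gg, hgg⟩ := hlin c
    exact ⟨(gg.comp e.toLinearMap).toAffineMap, fun x hx => hgg _ hx⟩
  have hncard : K0.maxCells.ncard ≤ Fintype.card ι := by
    calc K0.maxCells.ncard ≤ (range fun c => e.toLinearMap ⁻¹' D c).ncard :=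
          ncard_le_ncard hK0 (finite_range _)
      _ ≤ Fintype.card ι := by
          rw [← image_univ]
          refine (ncard_image_le finite_univ).trans ?_
          rw [ncard_univ, Nat.card_eq_fintype_card]
  have hset : ({M : ℕ | ∃ K : CompleteComplex N, Compatible f K ∧ K.maxCells.ncard = M}).Nonempty :=
    ⟨_, K0, hcompat, rfl⟩
  obtain ⟨q, hq⟩ : ∃ q, HasPieces f q := ⟨_, Nat.sInf_mem hset, fun M hM => Nat.sInf_le hM⟩
  have hq1 : 1 ≤ q := by
    obtain ⟨K, -, hK⟩ := hq.1
    rw [← hK]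
    exact one_le_ncard_maxCells K
  have hqle : q ≤ ((2 * m + 1) * (2 * (m * (2 * m + 1)))) ^ J * (1 + J * gadBound m) +
      (2 * (m * (2 * m + 1))) ^ J :=
    (hq.2 ⟨K0, hcompat, rfl⟩).trans (hncard.trans hcard)
  refine ⟨N, q, f, by omega, hq1, hcpwl, hq, fun g h hg hh hf K hK => ?_⟩
  refine lt_of_lt_of_le (hnum q hq1 hqle) ?_
  exact_mod_cast lower_bound hm le_rfl hne e g h hg hh hf K hK

/-- The negated form of Q1. -/
theorem negated_form (p : MvPolynomial (Fin 2) ℝ) :
    ∃ (n q : ℕ) (f : (Fin n → ℝ) → ℝ), 1 ≤ n ∧ 1 ≤ q ∧ IsCPWL f ∧ HasPieces f q ∧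
      ∀ g h : (Fin n → ℝ) → ℝ, IsCPWL g → IsCPWL h → ConvexOn ℝ univ g → ConvexOn ℝ univ h →
        (∀ x, f x = g x - h x) →
          ∃ N : ℕ, HasPieces h N ∧ MvPolynomial.eval ![(n : ℝ), (q : ℝ)] p < N := by
  obtain ⟨n, q, f, hn, hq, hf, hfq, hlow⟩ := strong_negation p
  refine ⟨n, q, f, hn, hq, hf, hfq, fun g h _ hhc hg hh hfgh => ?_⟩
  obtain ⟨N, hN⟩ := convex_hasPieces hhc hh
  obtain ⟨K, hK, hKN⟩ := hN.1
  refine ⟨N, hN, ?_⟩
  rw [← hKN]
  exact hlow g h hg hh hfgh K hK

end DC
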