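import Pool.Agent.H18.DC.Basic

/-!
# MP_8e96ff_co, job DC-GAD: the constant size gadget

For a good system of bodies `S` we subdivide the cone `S.T` minus the bodies `S.Eh i`, face to
face, without subdividing the facets of the bodies `S.Eh i` and of `S.T` itself.

Notation for `w = (t, x, lam) : W E` (`w.1, w.2.1, w.2.2`):
`e i g w = S.l i g (t,x) + lam`, `τ k w = S.φ k x + lam/8` (linear forms on `W E`).
`S.T = {lam ≥ 0, τ k ≤ t}`, `S.Eh i = {lam ≥ 0, e i g ≤ t}`.

CONSTRUCTION.  Index set of the arrangement `K = Unit ⊕ (I×G×G) ⊕ (I×G) ⊕ (P×P) ⊕ P`, forms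
`a_k`:  `lam`;  `e i g - e i g'`;  `e i g - (3/2) t`;  `τ k - τ k'`;  `τ k - (1/2) t`.
Let `M > 0` be such that `|a_k w| ≤ M/4 * t` hence `a_k w + (M/2) t > 0` on `T \ {0}`, for all `k`
(`Sys.T_form_bound` for each of the finitely many `k`).
Cells (`s : K → Bool` a sign vector, `pm (s k) = ±1`):
* (mid)  `s` with: `s lam = +`; for every `i` there is `g` with `s (i,g) = +`
  (i.e. `e i g ≥ (3/2) t`); for every `k : P`, `s k = -` (i.e. `τ k ≤ (1/2) t`):
  `M_s = {w | 0 ≤ pm (s k) * a_k w for all k}`;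
* (col) `(i,g,s)`: `{w | 0 ≤ lam, e i g' ≤ e i g ∀ g', t ≤ e i g ≤ (3/2) t,
   0 ≤ pm (s k) * (a_k w + M * ((3/2) t - e i g w)) ∀ k}`;
* (out) `(k0,s)`: `{w | 0 ≤ lam, τ k ≤ τ k0 ∀ k, (1/2) t ≤ τ k0 ≤ t,
   0 ≤ pm (s k) * (a_k w + M * (τ k0 w - (1/2) t)) ∀ k}`.
Let `E' i = {lam ≥ 0, e i g ≤ (3/2) t ∀ g}`.  Facts (from `Good`):
`w ∈ E' i → w = 0 ∨ (0 < t ∧ ∀ k, τ k w < t/2)` (l_nonneg gives `t ≥ 0`; if `t = 0` then all
`l i g (0,x) ≤ 0`, so `x = 0`, and `lam = 0`; if `t > 0` use `small`), so `E' i ⊆ T`;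
`E' i ∩ E' i' = {0}` for `i ≠ i'` (`sep` gives `t = 0`, as `lam ≥ 0`).
All cells are contained in `T`; `T` is pointed (`T_nonneg`, `T_zero`), so sets contained in `{0}`
are extreme (`isExtreme_of_subset_zero` with `t = LinearMap.fst`).
EXTREMENESS (`p₁, p₂` in the first cell, `p = a p₁ + b p₂` in both cells; show `p₁` in the second;
a form which is `≥ 0` on the first cell and `≤ 0` at `p` vanishes at `p₁` : `tight_left`):
* mid–mid: if `s k ≠ s' k` then `a_k p = 0`, so `a_k p₁ = 0`.
* col–col, same `i`: `e i g' = e i g` at `p`, so at `p₁`; then the functions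
  `w_k = a_k + M((3/2)t - e i g)` agree at `p₁` for `g` and `g'`; if `s k ≠ s' k` then `w_k p = 0`,
  so `w_k p₁ = 0`.  col–col with different `i`, col–out: intersection `⊆ {0}`.
* out–out: same as col–col.
* mid–col: at `p`: `N = max_g e i g ≥ (3/2) t` (mid) and `= e i g ≤ (3/2) t` (col), so
  `e i g = (3/2) t` at `p`.  (First cell col:) `e i g = (3/2) t` at `p₁`, so `w_k = a_k` there,
  and if `s k ≠ s' k` then `a_k p = 0`, `a_k p₁ = 0`.  (First cell mid:) forms `e i g' - e i g` and
  `e i g - (3/2) t` are in the arrangement, hence have a definite sign on `M_s`; they are `≤ 0`,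
  resp. `= 0`, at `p`, so `e i g' ≤ e i g`, `e i g = (3/2) t` at `p₁`; again `w_k = a_k` at `p₁`.
* mid–out: the same with `τ`.
* `out i` (every `w` in a cell has some `g` with `t ≤ e i g`): mid: `e i g ≥ (3/2) t ≥ t`; col of
  `i` clear; for col of `i' ≠ i` and out-cells: otherwise `w ∈ Eh i ⊆ E' i` and `w ∈ E' i'`
  (resp. `τ k0 ≥ t/2`), so `w = 0`, but then `t ≤ e i g` (both `0`).
* `extQ`, `extE` for the cell `(i,g,s)` and `Eh i`: the intersection lies in `{e i g = t}`; if
  `s k = -` for some `k` then `a_k p + (M/2) t ≤ 0` there, so `p = 0`; if all `s k = +`: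
  `e i g = t` at `p` forces `e i g = t` at `p₁ ∈ Eh i` (resp. `∈ cell`), and then
  `w_k p₁ = a_k p₁ + (M/2) t ≥ 0`.  For all other cells `Q ∩ Eh i ⊆ {0}`.
* `outer`: for mid and col: `τ k ≤ t/2` on the cell, so `τ k = t` only at `0`.  For `(k0,s)`: if
  `τ k p = t` then `τ k0 p = t`; if some `s k' = -` then `p = 0`; otherwise `τ k = τ k0 = t` at
  `p₁ ∈ T`, and `w_k p₁ = a_k p₁ + (M/2) t ≥ 0`.
* cover: `w ∈ T`, `k0` maximizing `τ k`: if `τ k0 w ≥ t/2` use (out) with `s k = +` iff
  `w_k w ≥ 0`.  Otherwise, if some `i` has all `e i g ≤ (3/2) t`: if all `e i g ≤ t` then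
  `w ∈ Eh i`, else use (col) with `g` maximizing.  Otherwise use (mid) with `s k = +` iff
  `a_k w ≥ 0`.
CARD: `κ = {s // cond} ⊕ (I×G×(K→Bool)) ⊕ (P×(K→Bool))`.
-/

open Set

namespace DC

section tools
variable {V : Type*} [AddCommGroup V] [Module ℝ V]

theorem tightF (f : V →ₗ[ℝ] ℝ) {p q : V} {a b : ℝ} (ha : 0 < a) (hb : 0 < b)
    (hp : 0 ≤ f p) (hq : 0 ≤ f q) (hz : f (a • p + b • q) ≤ 0) : f p = 0 := by
  simp only [map_add, map_smul, smul_eq_mul] at hz
  exact tight_left ha hb hp hq hz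

theorem sign_part (F F' : V →ₗ[ℝ] ℝ) {p q : V} {a b : ℝ} (ha : 0 < a) (hb : 0 < b) {c c' : Bool}
    (hp : 0 ≤ pm c * F p) (hq : 0 ≤ pm c * F q)
    (hz' : 0 ≤ pm c' * F' (a • p + b • q)) (ez : F (a • p + b • q) = F' (a • p + b • q))
    (ep : F p = F' p) : 0 ≤ pm c' * F' p := by
  by_cases h : c = c'
  · subst h; rw [← ep]; exact hp
  · have hpm : pm c' = - pm c := by cases c <;> cases c' <;> simp_all [pm]
    rw [hpm] at hz' ⊢
    rw [← ez] at hz'
    have h1 := tightF (p := p) (q := q) (pm c • F) ha hb (by simpa using hp) (by simpa using hq)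
      (by rw [LinearMap.smul_apply, smul_eq_mul]; linarith)
    rw [LinearMap.smul_apply, smul_eq_mul] at h1
    rw [← ep]; linarith

end tools

namespace Sys

variable {E I G P : Type}

/-- the index set of the arrangement -/
abbrev GK (I G P : Type) := Unit ⊕ (I × G × G) ⊕ (I × G) ⊕ (P × P) ⊕ P

/-- the types of cells -/
abbrev GC (I G P : Type) := Option ((I × G) ⊕ P)

noncomputable def tL (E : Type) : W E →ₗ[ℝ] ℝ := LinearMap.fst ℝ ℝ ((E → ℝ) × ℝ)

noncomputable def xL (E : Type) : W E →ₗ[ℝ] (E → ℝ) :=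
  (LinearMap.fst ℝ (E → ℝ) ℝ).comp (LinearMap.snd ℝ ℝ ((E → ℝ) × ℝ))

noncomputable def lamL (E : Type) : W E →ₗ[ℝ] ℝ :=
  (LinearMap.snd ℝ (E → ℝ) ℝ).comp (LinearMap.snd ℝ ℝ ((E → ℝ) × ℝ))

@[simp] theorem tL_apply (w : W E) : tL E w = w.1 := rfl
@[simp] theorem lamL_apply (w : W E) : lamL E w = w.2.2 := rfl

variable (S : Sys E I G P)

noncomputable def eL (i : I) (g : G) : W E →ₗ[ℝ] ℝ :=
  (S.l i g).comp ((tL E).prod (xL E)) + lamL E

noncomputable def uL (k : P) : W E →ₗ[ℝ] ℝ := (S.φ k).comp (xL E) + (1 / 8 : ℝ) • lamL E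

theorem eL_apply (i : I) (g : G) (w : W E) : S.eL i g w = S.l i g (w.1, w.2.1) + w.2.2 := rfl

theorem uL_apply (k : P) (w : W E) : S.uL k w = S.φ k w.2.1 + w.2.2 / 8 := by
  simp only [uL, LinearMap.add_apply, LinearMap.comp_apply, LinearMap.smul_apply, smul_eq_mul,
    lamL_apply]
  have : xL E w = w.2.1 := rfl
  rw [this]; ring

/-- the forms of the arrangement -/
noncomputable def form : GK I G P → W E →ₗ[ℝ] ℝ
  | .inl _ => lamL E
  | .inr (.inl (i, g, g')) => S.eL i g - S.eL i g'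
  | .inr (.inr (.inl (i, g))) => S.eL i g - (3 / 2 : ℝ) • tL E
  | .inr (.inr (.inr (.inl (k, k')))) => S.uL k - S.uL k'
  | .inr (.inr (.inr (.inr k))) => S.uL k - (1 / 2 : ℝ) • tL E

/-- the level form of a type of cells -/
noncomputable def lev : GC I G P → W E →ₗ[ℝ] ℝ
  | none => 0
  | some (.inl (i, g)) => (3 / 2 : ℝ) • tL E - S.eL i g
  | some (.inr k) => S.uL k - (1 / 2 : ℝ) • tL E

/-- the base cone of a type of cells -/
def base : GC I G P → Set (W E)
  | none => univ
  | some (.inl (i, g)) => {w | 0 ≤ w.2.2 ∧ (∀ g', S.eL i g' w ≤ S.eL i g w) ∧ w.1 ≤ S.eL i g w ∧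
      S.eL i g w ≤ 3 / 2 * w.1}
  | some (.inr k) => {w | 0 ≤ w.2.2 ∧ (∀ k', S.uL k' w ≤ S.uL k w) ∧ 1 / 2 * w.1 ≤ S.uL k w ∧
      S.uL k w ≤ w.1}

noncomputable def FL (M : ℝ) (c : GC I G P) (k : GK I G P) : W E →ₗ[ℝ] ℝ := S.form k + M • S.lev c

theorem FL_apply (M : ℝ) (c : GC I G P) (k : GK I G P) (w : W E) :
    S.FL M c k w = S.form k w + M * S.lev c w := rfl

def cell (M : ℝ) (c : GC I G P) (s : GK I G P → Bool) : Set (W E) :=
  {w | w ∈ S.base c ∧ ∀ k, 0 ≤ pm (s k) * S.FL M c k w}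

/-- the condition on the sign vectors of the middle cells -/
def Cond (s : GK I G P → Bool) : Prop :=
  s (.inl ()) = true ∧ (∀ i, ∃ g, s (.inr (.inr (.inl (i, g)))) = true) ∧
    ∀ k, s (.inr (.inr (.inr (.inr k)))) = false

def Ix (I G P : Type) := {p : GC I G P × (GK I G P → Bool) // p.1 = none → Cond p.2}

def E3 (i : I) : Set (W E) := {w | 0 ≤ w.2.2 ∧ ∀ g, S.eL i g w ≤ 3 / 2 * w.1}

variable {S}

theorem E3_pos [Nonempty G] (hS : S.Good) {i : I} {w : W E} (hw : w ∈ S.E3 i) :
    w = 0 ∨ (0 < w.1 ∧ ∀ k, S.uL k w < w.1 / 2) := by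
  obtain ⟨h1, h2⟩ := hw
  simp only [eL_apply] at h2
  have ht : 0 ≤ w.1 := by
    obtain ⟨g, hg⟩ := hS.l_nonneg i w.1 w.2.1
    have := h2 g
    linarith
  rcases ht.eq_or_lt with h0 | h0
  · left
    have hx : w.2.1 = 0 := by
      apply hS.l_def i
      intro g
      have := h2 g
      rw [← h0] at this
      linarith
    have hl : w.2.2 = 0 := by
      obtain ⟨g⟩ := ‹Nonempty G›
      have h3 := h2 g
      rw [← h0, hx] at h3
      have h4 : S.l i g (0, 0) = 0 := map_zero _
      rw [h4] at h3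
      linarith
    exact Prod.ext h0.symm (Prod.ext hx hl)
  · right
    refine ⟨h0, fun k => ?_⟩
    rw [uL_apply]
    exact hS.small i w.1 w.2.1 w.2.2 h1 h2 h0 k

theorem E3_disj [Nonempty G] (hS : S.Good) {i i' : I} (hi : i ≠ i') {w : W E} (hw : w ∈ S.E3 i)
    (hw' : w ∈ S.E3 i') : w = 0 := by
  have ht : w.1 = 0 := by
    apply hS.sep i i' hi w.1 w.2.1
    · intro g
      have h1 := hw.1
      have h2 := hw.2 g
      rw [eL_apply] at h2
      linarith
    · intro g
      have h1 := hw'.1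
      have h2 := hw'.2 g
      rw [eL_apply] at h2
      linarith
  rcases E3_pos hS hw with h | h
  · exact h
  · rw [ht] at h; exact absurd h.1 (lt_irrefl _)

theorem mem_T_iff {w : W E} : w ∈ S.T ↔ 0 ≤ w.2.2 ∧ ∀ k, S.uL k w ≤ w.1 := by
  simp only [uL_apply]; rfl

theorem mem_Eh_iff {i : I} {w : W E} : w ∈ S.Eh i ↔ 0 ≤ w.2.2 ∧ ∀ g, S.eL i g w ≤ w.1 := Iff.rfl

theorem zero_mem_T : (0 : W E) ∈ S.T := by
  rw [mem_T_iff]; simp

theorem E3_sub_T [Nonempty G] (hS : S.Good) {i : I} {w : W E} (hw : w ∈ S.E3 i) : w ∈ S.T := by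
  rcases E3_pos hS hw with h | h
  · rw [h]; exact zero_mem_T
  · rw [mem_T_iff]
    refine ⟨hw.1, fun k => ?_⟩
    have := h.2 k
    linarith [h.1]

theorem Eh_nonneg (hS : S.Good) {i : I} {w : W E} (hw : w ∈ S.Eh i) : 0 ≤ w.1 := by
  obtain ⟨g, hg⟩ := hS.l_nonneg i w.1 w.2.1
  have h1 := hw.2 g
  have h2 := hw.1
  linarith

theorem Eh_sub_E3 (hS : S.Good) {i : I} {w : W E} (hw : w ∈ S.Eh i) : w ∈ S.E3 i := by
  have ht := Eh_nonneg hS hw
  rw [mem_Eh_iff] at hw
  exact ⟨hw.1, fun g => by have := hw.2 g; linarith⟩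

/-- membership in a middle cell -/
theorem mid_facts (hS : S.Good) {M : ℝ} {s : GK I G P → Bool} (hs : Cond s) {w : W E}
    (hw : w ∈ S.cell M none s) : 0 ≤ w.1 ∧ 0 ≤ w.2.2 ∧ (∀ i, ∃ g, 3 / 2 * w.1 ≤ S.eL i g w) ∧
      ∀ k, S.uL k w ≤ 1 / 2 * w.1 := by
  obtain ⟨-, h⟩ := hw
  simp only [FL_apply, lev, LinearMap.zero_apply, mul_zero, add_zero] at h
  have h1 : 0 ≤ w.2.2 := by
    have := h (.inl ())
    rw [hs.1] at this
    simpa [pm, form] using this
  have h3 : ∀ k, S.uL k w ≤ 1 / 2 * w.1 := by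
    intro k
    have := h (.inr (.inr (.inr (.inr k))))
    rw [hs.2.2 k] at this
    simp only [pm, form, LinearMap.sub_apply, LinearMap.smul_apply, smul_eq_mul, tL_apply] at this
    norm_num at this
    linarith
  refine ⟨?_, h1, ?_, h3⟩
  · obtain ⟨k, hk⟩ := hS.φ_nonneg w.2.1
    have := h3 k
    rw [uL_apply] at this
    linarith
  · intro i
    obtain ⟨g, hg⟩ := hs.2.1 i
    refine ⟨g, ?_⟩
    have := h (.inr (.inr (.inl (i, g))))
    rw [hg] at this
    simp only [pm, form, LinearMap.sub_apply, LinearMap.smul_apply, smul_eq_mul, tL_apply] at this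
    norm_num at this
    linarith

theorem col_E3 {M : ℝ} {i : I} {g : G} {s : GK I G P → Bool} {w : W E}
    (hw : w ∈ S.cell M (some (.inl (i, g))) s) : w ∈ S.E3 i := by
  obtain ⟨⟨h1, h2, h3, h4⟩, -⟩ := hw
  exact ⟨h1, fun g' => (h2 g').trans h4⟩

theorem cell_sub_T [Nonempty G] (hS : S.Good) {M : ℝ} {c : GC I G P} {s : GK I G P → Bool}
    (hs : c = none → Cond s) {w : W E} (hw : w ∈ S.cell M c s) : w ∈ S.T := by
  rcases c with _ | ⟨i, g⟩ | k
  · obtain ⟨h0, h1, h2, h3⟩ := mid_facts hS (hs rfl) hw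
    rw [mem_T_iff]
    exact ⟨h1, fun k => by have := h3 k; linarith⟩
  · exact E3_sub_T hS (col_E3 hw)
  · obtain ⟨⟨h1, h2, h3, h4⟩, -⟩ := hw
    rw [mem_T_iff]
    exact ⟨h1, fun k' => (h2 k').trans h4⟩

theorem zero_mem_cell (M : ℝ) (c : GC I G P) (s : GK I G P → Bool) : (0 : W E) ∈ S.cell M c s := by
  refine ⟨?_, fun k => by simp⟩
  rcases c with _ | ⟨i, g⟩ | k
  · exact mem_univ _
  · simp [base]
  · simp [base]

/-- the polyhedral cones -/
theorem base_poly [Fintype G] [Fintype P] (c : GC I G P) : IsPolyCone (S.base c) := by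
  rcases c with _ | ⟨i, g⟩ | k
  · refine ⟨Empty, inferInstance, fun k => k.elim, ?_⟩
    ext v; simp [base]
  · refine ⟨Unit ⊕ G ⊕ Bool, inferInstance, Sum.elim (fun _ => lamL E)
      (Sum.elim (fun g' => S.eL i g - S.eL i g')
        (fun b => if b then S.eL i g - tL E else (3 / 2 : ℝ) • tL E - S.eL i g)), ?_⟩
    ext v
    simp [base]
    tauto
  · refine ⟨Unit ⊕ P ⊕ Bool, inferInstance, Sum.elim (fun _ => lamL E)
      (Sum.elim (fun k' => S.uL k - S.uL k')
        (fun b => if b then S.uL k - (1 / 2 : ℝ) • tL E else tL E - S.uL k)), ?_⟩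
    ext v
    simp [base]
    tauto

theorem cell_poly [Fintype I] [Fintype G] [Fintype P] (M : ℝ) (c : GC I G P)
    (s : GK I G P → Bool) : IsPolyCone (S.cell M c s) := by
  have h : S.cell M c s = S.base c ∩ {w | ∀ k, 0 ≤ (pm (s k) • S.FL M c k) w} := rfl
  rw [h]
  exact (base_poly c).inter (isPolyCone_forall_nonneg _)

theorem T_comb_zero (hS : S.Good) {p q : W E} (hp : p ∈ S.T) (hq : q ∈ S.T) {a b : ℝ}
    (ha : 0 < a) (hb : 0 < b) (hz : a • p + b • q = 0) : p = 0 := by
  apply S.T_zero hS hp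
  exact tightF (p := p) (q := q) (tL E) ha hb (S.T_nonneg hS hp) (S.T_nonneg hS hq) (by rw [hz, map_zero])

/-- The key step: comparison of two cells. -/
theorem key [Nonempty G] (hS : S.Good) {M : ℝ} {c c' : GC I G P} {s s' : GK I G P → Bool}
    (hs : c = none → Cond s) (hs' : c' = none → Cond s') {p q : W E} {a b : ℝ}
    (ha : 0 < a) (hb : 0 < b) (hp : p ∈ S.cell M c s) (hq : q ∈ S.cell M c s)
    (hz : a • p + b • q ∈ S.cell M c s) (hz' : a • p + b • q ∈ S.cell M c' s') :
    a • p + b • q = 0 ∨ (S.lev c (a • p + b • q) = S.lev c' (a • p + b • q) ∧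
      S.lev c p = S.lev c' p ∧ p ∈ S.base c') := by
  have hpT := cell_sub_T hS hs hp
  have hqT := cell_sub_T hS hs hq
  have hzT := cell_sub_T hS hs hz
  have htp := S.T_nonneg hS hpT
  have htq := S.T_nonneg hS hqT
  have htz := S.T_nonneg hS hzT
  set z := a • p + b • q with hzdef
  rcases c with _ | ⟨i, g⟩ | k0
  · rcases c' with _ | ⟨i', g'⟩ | k0'
    · exact Or.inr ⟨rfl, rfl, mem_univ _⟩
    · -- mid, col
      right
      obtain ⟨_, hz2, hz3, hz4⟩ := mid_facts hS (hs rfl) hz
      obtain ⟨⟨hc1, hc2, hc3, hc4⟩, -⟩ := hz'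
      obtain ⟨_, hp2, _, _⟩ := mid_facts hS (hs rfl) hp
      have he : S.eL i' g' z = 3 / 2 * z.1 := by
        obtain ⟨g1, hg1⟩ := hz3 i'
        exact le_antisymm hc4 (hg1.trans (hc2 g1))
      have hmax : ∀ g'', S.eL i' g'' p ≤ S.eL i' g' p := by
        intro g''
        have e1 := hp.2 (.inr (.inl (i', g'', g')))
        have e2 := hq.2 (.inr (.inl (i', g'', g')))
        have e3 := hc2 g''
        simp only [FL_apply, lev, LinearMap.zero_apply, mul_zero, add_zero] at e1 e2
        cases hb' : s (.inr (.inl (i', g'', g')))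
        · rw [hb'] at e1
          simp only [pm, form, LinearMap.sub_apply] at e1
          norm_num at e1
          exact e1
        · rw [hb'] at e1 e2
          simp only [pm, form, if_true, one_mul] at e1 e2
          have h0 := tightF (p := p) (q := q) (S.eL i' g'' - S.eL i' g') ha hb e1 e2 (by
            rw [← hzdef, LinearMap.sub_apply]; linarith)
          rw [LinearMap.sub_apply] at h0
          linarith
      have heq : S.eL i' g' p = 3 / 2 * p.1 := by
        have e1 := hp.2 (.inr (.inr (.inl (i', g'))))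
        have e2 := hq.2 (.inr (.inr (.inl (i', g'))))
        simp only [FL_apply, lev, LinearMap.zero_apply, mul_zero, add_zero] at e1 e2
        have h0 := tightF (p := p) (q := q) (pm (s (.inr (.inr (.inl (i', g'))))) • S.form (.inr (.inr (.inl (i', g')))))
          ha hb e1 e2 (by
            rw [← hzdef, LinearMap.smul_apply]
            simp only [form, LinearMap.sub_apply, LinearMap.smul_apply, smul_eq_mul, tL_apply]
            rw [he]; simp)
        simp only [form, LinearMap.sub_apply, LinearMap.smul_apply, smul_eq_mul, tL_apply,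
          mul_eq_zero] at h0
        rcases h0 with h0 | h0
        · cases hb' : s (.inr (.inr (.inl (i', g')))) <;> rw [hb'] at h0 <;> simp [pm] at h0
        · linarith
      refine ⟨?_, ?_, hp2, hmax, ?_, heq.le⟩
      · simp [lev, he]
      · simp [lev, heq]
      · rw [heq]; linarith
    · -- mid, out
      right
      obtain ⟨_, hz2, hz3, hz4⟩ := mid_facts hS (hs rfl) hz
      obtain ⟨⟨hc1, hc2, hc3, hc4⟩, -⟩ := hz'
      obtain ⟨_, hp2, _, _⟩ := mid_facts hS (hs rfl) hp
      have he : S.uL k0' z = 1 / 2 * z.1 := le_antisymm (hz4 k0') hc3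
      have hmax : ∀ k, S.uL k p ≤ S.uL k0' p := by
        intro k
        have e1 := hp.2 (.inr (.inr (.inr (.inl (k, k0')))))
        have e2 := hq.2 (.inr (.inr (.inr (.inl (k, k0')))))
        have e3 := hc2 k
        simp only [FL_apply, lev, LinearMap.zero_apply, mul_zero, add_zero] at e1 e2
        cases hb' : s (.inr (.inr (.inr (.inl (k, k0')))))
        · rw [hb'] at e1
          simp only [pm, form, LinearMap.sub_apply] at e1
          norm_num at e1
          exact e1
        · rw [hb'] at e1 e2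
          simp only [pm, form, if_true, one_mul] at e1 e2
          have h0 := tightF (p := p) (q := q) (S.uL k - S.uL k0') ha hb e1 e2 (by
            rw [← hzdef, LinearMap.sub_apply]; linarith)
          rw [LinearMap.sub_apply] at h0
          linarith
      have heq : S.uL k0' p = 1 / 2 * p.1 := by
        have e1 := hp.2 (.inr (.inr (.inr (.inr k0'))))
        have e2 := hq.2 (.inr (.inr (.inr (.inr k0'))))
        simp only [FL_apply, lev, LinearMap.zero_apply, mul_zero, add_zero] at e1 e2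
        have h0 := tightF (p := p) (q := q) (pm (s (.inr (.inr (.inr (.inr k0'))))) •
          S.form (.inr (.inr (.inr (.inr k0')))))
          ha hb e1 e2 (by
            rw [← hzdef, LinearMap.smul_apply]
            simp only [form, LinearMap.sub_apply, LinearMap.smul_apply, smul_eq_mul, tL_apply]
            rw [he]; simp)
        simp only [form, LinearMap.sub_apply, LinearMap.smul_apply, smul_eq_mul, tL_apply,
          mul_eq_zero] at h0
        rcases h0 with h0 | h0
        · cases hb' : s (.inr (.inr (.inr (.inr k0')))) <;> rw [hb'] at h0 <;> simp [pm] at h0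
        · linarith
      refine ⟨?_, ?_, hp2, hmax, heq.ge, ?_⟩
      · simp [lev, he]
      · simp [lev, heq]
      · rw [heq]; linarith
  · obtain ⟨⟨hp1, hp2, hp3, hp4⟩, -⟩ := id hp
    obtain ⟨⟨hq1, hq2, hq3, hq4⟩, -⟩ := id hq
    obtain ⟨⟨hz1, hz2, hz3, hz4⟩, -⟩ := id hz
    rcases c' with _ | ⟨i', g'⟩ | k0'
    · -- col, mid
      right
      obtain ⟨_, _, hm3, hm4⟩ := mid_facts hS (hs' rfl) hz'
      have he : S.eL i g z = 3 / 2 * z.1 := by
        obtain ⟨g1, hg1⟩ := hm3 i
        exact le_antisymm hz4 (hg1.trans (hz2 g1))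
      have h0 := tightF (p := p) (q := q) ((3 / 2 : ℝ) • tL E - S.eL i g) ha hb
        (by simp only [LinearMap.sub_apply, LinearMap.smul_apply, smul_eq_mul, tL_apply]; linarith)
        (by simp only [LinearMap.sub_apply, LinearMap.smul_apply, smul_eq_mul, tL_apply]; linarith)
        (by
          rw [← hzdef]
          simp only [LinearMap.sub_apply, LinearMap.smul_apply, smul_eq_mul, tL_apply]; linarith)
      refine ⟨?_, ?_, mem_univ _⟩
      · simp [lev, he]
      · simpa [lev] using h0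
    · by_cases hi : i = i'
      · -- col, col
        subst hi
        right
        obtain ⟨⟨hc1, hc2, hc3, hc4⟩, -⟩ := hz'
        have he : S.eL i g z = S.eL i g' z := le_antisymm (hc2 g) (hz2 g')
        have h0 := tightF (p := p) (q := q) (S.eL i g - S.eL i g') ha hb
          (by rw [LinearMap.sub_apply]; linarith [hp2 g'])
          (by rw [LinearMap.sub_apply]; linarith [hq2 g'])
          (by rw [← hzdef, LinearMap.sub_apply]; linarith)
        rw [LinearMap.sub_apply] at h0
        have he2 : S.eL i g' p = S.eL i g p := by linarith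
        refine ⟨?_, ?_, hp1, ?_, ?_, ?_⟩
        · simp [lev, he]
        · simp [lev, he2]
        · intro g''; rw [he2]; exact hp2 g''
        · rw [he2]; exact hp3
        · rw [he2]; exact hp4
      · left
        exact E3_disj hS hi (col_E3 hz) (col_E3 hz')
    · -- col, out
      left
      obtain ⟨⟨hc1, hc2, hc3, hc4⟩, -⟩ := hz'
      rcases E3_pos hS (col_E3 hz) with h | h
      · exact h
      · have := h.2 k0'
        linarith
  · obtain ⟨⟨hp1, hp2, hp3, hp4⟩, -⟩ := id hp
    obtain ⟨⟨hq1, hq2, hq3, hq4⟩, -⟩ := id hq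
    obtain ⟨⟨hz1, hz2, hz3, hz4⟩, -⟩ := id hz
    rcases c' with _ | ⟨i', g'⟩ | k0'
    · -- out, mid
      right
      obtain ⟨_, _, hm3, hm4⟩ := mid_facts hS (hs' rfl) hz'
      have he : S.uL k0 z = 1 / 2 * z.1 := le_antisymm (hm4 k0) hz3
      have h0 := tightF (p := p) (q := q) (S.uL k0 - (1 / 2 : ℝ) • tL E) ha hb
        (by simp only [LinearMap.sub_apply, LinearMap.smul_apply, smul_eq_mul, tL_apply]; linarith)
        (by simp only [LinearMap.sub_apply, LinearMap.smul_apply, smul_eq_mul, tL_apply]; linarith)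
        (by
          rw [← hzdef]
          simp only [LinearMap.sub_apply, LinearMap.smul_apply, smul_eq_mul, tL_apply]; linarith)
      refine ⟨?_, ?_, mem_univ _⟩
      · simp [lev, he]
      · simpa [lev] using h0
    · -- out, col
      left
      rcases E3_pos hS (col_E3 hz') with h | h
      · exact h
      · have := h.2 k0
        linarith
    · -- out, out
      right
      obtain ⟨⟨hc1, hc2, hc3, hc4⟩, -⟩ := hz'
      have he : S.uL k0 z = S.uL k0' z := le_antisymm (hc2 k0) (hz2 k0')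
      have h0 := tightF (p := p) (q := q) (S.uL k0 - S.uL k0') ha hb
        (by rw [LinearMap.sub_apply]; linarith [hp2 k0'])
        (by rw [LinearMap.sub_apply]; linarith [hq2 k0'])
        (by rw [← hzdef, LinearMap.sub_apply]; linarith)
      rw [LinearMap.sub_apply] at h0
      have he2 : S.uL k0' p = S.uL k0 p := by linarith
      refine ⟨?_, ?_, hp1, ?_, ?_, ?_⟩
      · simp [lev, he]
      · simp [lev, he2]
      · intro k'; rw [he2]; exact hp2 k'
      · rw [he2]; exact hp3
      · rw [he2]; exact hp4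

theorem cell_ext [Nonempty G] (hS : S.Good) {M : ℝ} {c c' : GC I G P} {s s' : GK I G P → Bool}
    (hs : c = none → Cond s) (hs' : c' = none → Cond s') :
    IsExtreme ℝ (S.cell M c s) (S.cell M c s ∩ S.cell M c' s') := by
  refine isExtreme_mk inter_subset_left fun p hp q hq a b ha hb hab hz => ⟨hp, ?_⟩
  rcases key hS hs hs' ha hb hp hq hz.1 hz.2 with h | ⟨h1, h2, h3⟩
  · rw [T_comb_zero hS (cell_sub_T hS hs hp) (cell_sub_T hS hs hq) ha hb h]
    exact zero_mem_cell M c' s'
  · refine ⟨h3, fun k => ?_⟩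
    apply sign_part (S.FL M c k) (S.FL M c' k) ha hb (hp.2 k) (hq.2 k) (hz.2.2 k)
    · rw [FL_apply, FL_apply, h1]
    · rw [FL_apply, FL_apply, h2]

theorem cell_out [Nonempty G] (hS : S.Good) {M : ℝ} {c : GC I G P} {s : GK I G P → Bool}
    (hs : c = none → Cond s) (i : I) {w : W E} (hw : w ∈ S.cell M c s) :
    ∃ g, w.1 ≤ S.eL i g w := by
  have hT := cell_sub_T hS hs hw
  have ht := S.T_nonneg hS hT
  by_contra hcon
  push Not at hcon
  have hE : w ∈ S.E3 i := ⟨hT.1, fun g => by have := hcon g; linarith⟩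
  have h0 : w ≠ 0 := by
    rintro rfl
    obtain ⟨g⟩ := ‹Nonempty G›
    have := hcon g
    simp at this
  rcases c with _ | ⟨i', g⟩ | k
  · obtain ⟨_, _, h3, _⟩ := mid_facts hS (hs rfl) hw
    obtain ⟨g, hg⟩ := h3 i
    have := hcon g
    linarith
  · by_cases hi : i = i'
    · subst hi
      obtain ⟨⟨h1, h2, h3, h4⟩, -⟩ := hw
      have := hcon g
      linarith
    · exact h0 (E3_disj hS hi hE (col_E3 hw))
  · obtain ⟨⟨h1, h2, h3, h4⟩, -⟩ := hw
    rcases E3_pos hS hE with h | h
    · exact h0 h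
    · have := h.2 k
      linarith

/-- Intersection of a cell with a body. -/
theorem cell_inter_Eh [Nonempty G] (hS : S.Good) {M : ℝ} {c : GC I G P} {s : GK I G P → Bool}
    (hs : c = none → Cond s) (i : I) {w : W E} (hw : w ∈ S.cell M c s) (hi : w ∈ S.Eh i) :
    w = 0 ∨ ∃ g, c = some (.inl (i, g)) ∧ S.eL i g w = w.1 ∧ 0 < w.1 := by
  have hT := cell_sub_T hS hs hw
  have ht := S.T_nonneg hS hT
  have hE := Eh_sub_E3 hS hi
  rcases ht.eq_or_lt with h0 | h0
  · left; exact S.T_zero hS hT h0.symm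
  rcases c with _ | ⟨i', g⟩ | k
  · obtain ⟨_, _, h3, _⟩ := mid_facts hS (hs rfl) hw
    obtain ⟨g, hg⟩ := h3 i
    have := (mem_Eh_iff.1 hi).2 g
    linarith
  · by_cases hii : i = i'
    · subst hii
      obtain ⟨⟨h1, h2, h3, h4⟩, -⟩ := hw
      right
      exact ⟨g, rfl, le_antisymm ((mem_Eh_iff.1 hi).2 g) h3, h0⟩
    · left; exact E3_disj hS hii hE (col_E3 hw)
  · obtain ⟨⟨h1, h2, h3, h4⟩, -⟩ := hw
    rcases E3_pos hS hE with h | h
    · exact Or.inl h
    · have := h.2 k
      linarith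

theorem cell_extQ [Nonempty G] (hS : S.Good) {M : ℝ} {c : GC I G P} {s : GK I G P → Bool}
    (hs : c = none → Cond s) (i : I) :
    IsExtreme ℝ (S.cell M c s) (S.cell M c s ∩ S.Eh i) := by
  refine isExtreme_mk inter_subset_left fun p hp q hq a b ha hb hab hz => ⟨hp, ?_⟩
  rcases cell_inter_Eh hS hs i hz.1 hz.2 with h | ⟨g, rfl, h1, h2⟩
  · rw [T_comb_zero hS (cell_sub_T hS hs hp) (cell_sub_T hS hs hq) ha hb h]
    rw [mem_Eh_iff]; simp
  · obtain ⟨⟨hp1, hp2, hp3, hp4⟩, -⟩ := hp
    obtain ⟨⟨hq1, hq2, hq3, hq4⟩, -⟩ := hq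
    have h0 := tightF (p := p) (q := q) (S.eL i g - tL E) ha hb
      (by rw [LinearMap.sub_apply, tL_apply]; linarith)
      (by rw [LinearMap.sub_apply, tL_apply]; linarith)
      (by rw [LinearMap.sub_apply, tL_apply]; linarith)
    rw [LinearMap.sub_apply, tL_apply] at h0
    rw [mem_Eh_iff]
    exact ⟨hp1, fun g' => by have := hp2 g'; linarith⟩

theorem cell_extE [Nonempty G] (hS : S.Good) {M : ℝ}
    (hM : 0 < M) (hMb : ∀ k, ∀ w ∈ S.T, |S.form k w| ≤ M / 4 * w.1) {c : GC I G P}
    {s : GK I G P → Bool} (hs : c = none → Cond s) (i : I) :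
    IsExtreme ℝ (S.Eh i) (S.cell M c s ∩ S.Eh i) := by
  refine isExtreme_mk inter_subset_right fun p hp q hq a b ha hb hab hz => ⟨?_, hp⟩
  have hpT := E3_sub_T hS (Eh_sub_E3 hS hp)
  have hqT := E3_sub_T hS (Eh_sub_E3 hS hq)
  have hzT := cell_sub_T hS hs hz.1
  rcases cell_inter_Eh hS hs i hz.1 hz.2 with h | ⟨g, rfl, h1, h2⟩
  · rw [T_comb_zero hS hpT hqT ha hb h]
    exact zero_mem_cell M c s
  · set z := a • p + b • q with hzdef
    have hall : ∀ k, s k = true := by
      intro k
      by_contra hcon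
      have hk : s k = false := by simpa using hcon
      have e1 := hz.1.2 k
      rw [hk, FL_apply] at e1
      simp only [pm, lev, LinearMap.sub_apply, LinearMap.smul_apply, smul_eq_mul, tL_apply, h1] at e1
      norm_num at e1
      have e2 := (abs_le.1 (hMb k z hzT)).1
      nlinarith
    have hp' := mem_Eh_iff.1 hp
    have hq' := mem_Eh_iff.1 hq
    have h0 := tightF (p := p) (q := q) (tL E - S.eL i g) ha hb
      (by rw [LinearMap.sub_apply, tL_apply]; linarith [hp'.2 g])
      (by rw [LinearMap.sub_apply, tL_apply]; linarith [hq'.2 g])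
      (by rw [← hzdef, LinearMap.sub_apply, tL_apply]; linarith)
    rw [LinearMap.sub_apply, tL_apply] at h0
    have heq : S.eL i g p = p.1 := by linarith
    have htp := S.T_nonneg hS hpT
    refine ⟨⟨hp'.1, fun g' => ?_, ?_, ?_⟩, fun k => ?_⟩
    · rw [heq]; exact hp'.2 g'
    · exact heq.ge
    · rw [heq]; linarith
    · rw [hall k, FL_apply]
      simp only [pm, lev, LinearMap.sub_apply, LinearMap.smul_apply, smul_eq_mul, tL_apply, heq,
        if_true, one_mul]
      have e2 := (abs_le.1 (hMb k p hpT)).1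
      nlinarith

theorem cell_outer [Nonempty G] (hS : S.Good) {M : ℝ}
    (hM : 0 < M) (hMb : ∀ k, ∀ w ∈ S.T, |S.form k w| ≤ M / 4 * w.1) {c : GC I G P}
    {s : GK I G P → Bool} (hs : c = none → Cond s) (k : P) :
    IsExtreme ℝ S.T (S.cell M c s ∩ {w | S.uL k w = w.1}) := by
  refine isExtreme_mk (fun w hw => cell_sub_T hS hs hw.1) fun p hp q hq a b ha hb hab hz => ?_
  have hzT := cell_sub_T hS hs hz.1
  have htz := S.T_nonneg hS hzT
  have htp := S.T_nonneg hS hp
  have hzk : S.uL k (a • p + b • q) = (a • p + b • q).1 := hz.2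
  have hp' := mem_T_iff.1 hp
  have hq' := mem_T_iff.1 hq
  have h0 := tightF (p := p) (q := q) (tL E - S.uL k) ha hb
      (by rw [LinearMap.sub_apply, tL_apply]; linarith [hp'.2 k])
      (by rw [LinearMap.sub_apply, tL_apply]; linarith [hq'.2 k])
      (by rw [LinearMap.sub_apply, tL_apply]; linarith)
  rw [LinearMap.sub_apply, tL_apply] at h0
  have hpk : S.uL k p = p.1 := by linarith
  refine ⟨?_, hpk⟩
  rcases htz.eq_or_lt with h00 | h00
  · have hz0 := S.T_zero hS hzT h00.symm
    rw [T_comb_zero hS hp hq ha hb hz0]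
    exact zero_mem_cell M c s
  set z := a • p + b • q with hzdef
  rcases c with _ | ⟨i', g⟩ | k0
  · obtain ⟨_, _, _, h4⟩ := mid_facts hS (hs rfl) hz.1
    have := h4 k
    linarith
  · rcases E3_pos hS (col_E3 hz.1) with h | h
    · rw [h] at h00; simp at h00
    · have := h.2 k
      linarith
  · obtain ⟨⟨h1, h2, h3, h4⟩, h5⟩ := hz.1
    have hk0 : S.uL k0 z = z.1 := le_antisymm h4 (by have := h2 k; linarith)
    have hall : ∀ k, s k = true := by
      intro k
      by_contra hcon
      have hk : s k = false := by simpa using hcon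
      have e1 := h5 k
      rw [hk, FL_apply] at e1
      simp only [pm, lev, LinearMap.sub_apply, LinearMap.smul_apply, smul_eq_mul, tL_apply, hk0] at e1
      norm_num at e1
      have e2 := (abs_le.1 (hMb k z hzT)).1
      nlinarith
    have h0 := tightF (p := p) (q := q) (tL E - S.uL k0) ha hb
      (by rw [LinearMap.sub_apply, tL_apply]; linarith [hp'.2 k0])
      (by rw [LinearMap.sub_apply, tL_apply]; linarith [hq'.2 k0])
      (by rw [← hzdef, LinearMap.sub_apply, tL_apply]; linarith)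
    rw [LinearMap.sub_apply, tL_apply] at h0
    have heq : S.uL k0 p = p.1 := by linarith
    refine ⟨⟨hp'.1, fun k' => ?_, ?_, ?_⟩, fun k => ?_⟩
    · rw [heq]; exact hp'.2 k'
    · rw [heq]; linarith
    · exact heq.le
    · rw [hall k, FL_apply]
      simp only [pm, lev, LinearMap.sub_apply, LinearMap.smul_apply, smul_eq_mul, tL_apply, heq,
        if_true, one_mul]
      have e2 := (abs_le.1 (hMb k p hp)).1
      nlinarith

open Classical in
theorem cell_cover [Finite G] [Nonempty G] [Finite P] [Nonempty P] (hS : S.Good) {M : ℝ}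
    {w : W E} (hw : w ∈ S.T) :
    (∃ i, w ∈ S.Eh i) ∨ ∃ (c : GC I G P) (s : GK I G P → Bool), (c = none → Cond s) ∧
      w ∈ S.cell M c s := by
  have ht := S.T_nonneg hS hw
  have hw' := mem_T_iff.1 hw
  have hsgn : ∀ c : GC I G P, ∀ k, 0 ≤ pm (decide (0 ≤ S.FL M c k w)) * S.FL M c k w := by
    intro c k
    by_cases h : 0 ≤ S.FL M c k w
    · simp [pm, h]
    · simp only [h, decide_false, pm]
      push Not at h
      simp
      exact h.le
  obtain ⟨k0, hk0⟩ := Finite.exists_max fun k => S.uL k w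
  by_cases h1 : 1 / 2 * w.1 ≤ S.uL k0 w
  · right
    exact ⟨some (.inr k0), fun k => decide (0 ≤ S.FL M (some (.inr k0)) k w), by simp,
      ⟨hw'.1, hk0, h1, hw'.2 k0⟩, hsgn _⟩
  push Not at h1
  by_cases h2 : ∃ i, ∀ g, S.eL i g w ≤ 3 / 2 * w.1
  · obtain ⟨i, hi⟩ := h2
    by_cases h3 : ∀ g, S.eL i g w ≤ w.1
    · left; exact ⟨i, mem_Eh_iff.2 ⟨hw'.1, h3⟩⟩
    · push Not at h3
      obtain ⟨g1, hg1⟩ := h3
      obtain ⟨g, hg⟩ := Finite.exists_max fun g => S.eL i g w
      right
      exact ⟨some (.inl (i, g)), fun k => decide (0 ≤ S.FL M (some (.inl (i, g))) k w), by simp,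
        ⟨hw'.1, hg, hg1.le.trans (hg g1), hi g⟩, hsgn _⟩
  · push Not at h2
    right
    refine ⟨none, fun k => decide (0 ≤ S.FL M none k w), fun _ => ⟨?_, ?_, ?_⟩, mem_univ _, hsgn _⟩
    · simp only [FL_apply, lev, LinearMap.zero_apply, mul_zero, add_zero, form, lamL_apply,
        decide_eq_true_eq]
      exact hw'.1
    · intro i
      obtain ⟨g, hg⟩ := h2 i
      refine ⟨g, ?_⟩
      simp only [FL_apply, lev, LinearMap.zero_apply, mul_zero, add_zero, form,
        LinearMap.sub_apply, LinearMap.smul_apply, smul_eq_mul, tL_apply, decide_eq_true_eq]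
      linarith
    · intro k
      have := hk0 k
      simp only [FL_apply, lev, LinearMap.zero_apply, mul_zero, add_zero, form,
        LinearMap.sub_apply, LinearMap.smul_apply, smul_eq_mul, tL_apply, decide_eq_false_iff_not,
        not_le]
      linarith

theorem gadget_exists [Fintype E] [Fintype I] [Fintype G] [Nonempty G] [Fintype P] [Nonempty P]
    (S : Sys E I G P) (hS : S.Good) :
    ∃ (κ : Type) (_ : Fintype κ) (Q : κ → Set (W E)), S.GadOK Q ∧
      Fintype.card κ ≤ 2 ^ (1 + Fintype.card I * (Fintype.card G * Fintype.card G) +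
        Fintype.card I * Fintype.card G + Fintype.card P * Fintype.card P + Fintype.card P) *
        (1 + Fintype.card I * Fintype.card G + Fintype.card P) := by
  classical
  have hb := fun k : GK I G P => S.T_form_bound hS (S.form k)
  choose m hm0 hm using hb
  set M : ℝ := 4 * ∑ k, m k with hMdef
  have hMb : ∀ k, ∀ w ∈ S.T, |S.form k w| ≤ M / 4 * w.1 := by
    intro k w hw
    refine (hm k w hw).trans ?_
    apply mul_le_mul_of_nonneg_right _ (S.T_nonneg hS hw)
    have : m k ≤ ∑ k, m k := Finset.single_le_sum (fun k _ => (hm0 k).le) (Finset.mem_univ k)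
    rw [hMdef]; linarith
  have hM : 0 < M := by
    have : 0 < ∑ k, m k := Finset.sum_pos (fun k _ => hm0 k) ⟨.inl (), Finset.mem_univ _⟩
    rw [hMdef]; linarith
  refine ⟨{p : GC I G P × (GK I G P → Bool) // p.1 = none → Cond p.2}, inferInstance,
    fun p => S.cell M p.1.1 p.1.2, ?_, ?_⟩
  · exact {
      poly := fun q => cell_poly M _ _
      sub := fun q w hw => cell_sub_T hS q.2 hw
      cover := fun w hw => by
        rcases cell_cover (M := M) hS hw with h | ⟨c, s, h1, h2⟩
        · exact Or.inl h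
        · exact Or.inr ⟨⟨(c, s), h1⟩, h2⟩
      ext := fun q q' => cell_ext hS q.2 q'.2
      out := fun q i w hw => cell_out hS q.2 i hw
      extQ := fun q i => cell_extQ hS q.2 i
      extE := fun q i => cell_extE hS hM hMb q.2 i
      outer := fun q k => by
        have := cell_outer hS hM hMb (s := q.1.2) (c := q.1.1) q.2 k
        simpa only [uL_apply] using this }
  · refine (Fintype.card_subtype_le _).trans ?_
    simp only [Fintype.card_prod, Fintype.card_option, Fintype.card_sum, Fintype.card_fun,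
      Fintype.card_bool, Fintype.card_unit]
    apply le_of_eq
    ring

end Sys

end DC
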